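import Pool.Agent.N637.P21.Tor4
import Pool.Agent.N637.P21.Rank
import Pool.Agent.N875.X15.Conv

/-!
# The converse: `E_m(ℚ)` finite and `Ш[2] = 0` imply the criterion

`E_m : y² = x (x - 9 m) (x + 7 m)`.
-/

set_option autoImplicit false

namespace Pool.Agent.N637.P21

open Pool.Agent.Z702 (LocI WZ coc S_COC S_LOT S_COB S_TRN)
open Pool.Agent.TH841.SH.D (shaCoc cob Coch Sha cob_zero)
open Pool.Agent.N875.X15 (RC NC Ram sq_of_zmod sq_of_mod8 sq_cancel not_dvd_of_prime dvd_of_primes)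

/-- points of the isogenous curve such that all the factors are squares -/
def PtAll (K : Type) [Field K] (m : ℤ) : Prop := ∃ X r0 r1 r2 : K, X = r0 ^ 2 ∧
    X - m = r1 ^ 2 ∧ X - 49 * m = r2 ^ 2 ∧ r0 ≠ 0 ∧ r1 ≠ 0 ∧ r2 ≠ 0

lemma pt_aux {K : Type} [Field K] [CharZero K] {m : ℤ}
    (h : ∃ x y : K, y ≠ 0 ∧ y ^ 2 = (x - (0 : ℤ)) * (x - (m : ℤ)) * (x - (49 * m : ℤ)) ∧
      IsSquare (x - ((0 : ℤ) : K)) ∧ IsSquare (x - ((m : ℤ) : K)) ∧
      IsSquare (x - ((49 * m : ℤ) : K))) : PtAll K m := by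
  obtain ⟨x, y, hy, hxy, ⟨r0, h0⟩, ⟨r1, h1⟩, ⟨r2, h2⟩⟩ := h
  push_cast at h0 h1 h2 hxy
  have hne : (x - 0) * (x - (m : K)) * (x - 49 * m) ≠ 0 := by
    rw [← hxy]; exact pow_ne_zero 2 hy
  refine ⟨x, r0, r1, r2, ?_, ?_, ?_, ?_, ?_, ?_⟩
  · linear_combination h0
  · linear_combination h1
  · linear_combination h2
  · rintro rfl
    rw [h0] at hne
    simp at hne
  · rintro rfl
    rw [h1] at hne
    simp at hne
  · rintro rfl
    rw [h2] at hne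
    simp at hne

lemma pt_all (p : ℕ) [hp : Fact p.Prime] (m : ℤ) : PtAll ℚ_[p] m :=
  pt_aux (Pool.Agent.TH841.SH.pt_pad p 0 m (49 * m))

lemma pt_allR (m : ℤ) : PtAll ℝ m :=
  pt_aux (Pool.Agent.TH841.SH.pt_real 0 m (49 * m))

section loc

variable {K : Type} [Field K] [CharZero K] {m d : ℤ}

lemma locI_sq (hP : PtAll K m) (hd : d ≠ 0) (h : IsSquare (d : K)) :
    LocI K (25 * m) (144 * m ^ 2) d := by
  obtain ⟨X, r0, r1, r2, e0, e1, e2, n0, n1, n2⟩ := hP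
  obtain ⟨e, he⟩ := h
  have hd' : (d : K) ≠ 0 := by exact_mod_cast hd
  have he0 : e ≠ 0 := by
    rintro rfl
    apply hd'
    rw [he, mul_zero]
  refine ⟨X, r0 * r1 * r2, r0 / e, by rw [e0]; exact pow_ne_zero 2 n0, ?_, ?_⟩
  · push_cast
    rw [mul_pow, mul_pow, ← e0, ← e1, ← e2]
    ring
  · rw [e0, he]
    field_simp

lemma locI_m (hP : PtAll K m) (hm : m ≠ 0) (hd : d ≠ 0) (h : IsSquare ((d : K) * m)) :
    LocI K (25 * m) (144 * m ^ 2) d := by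
  obtain ⟨X, r0, r1, r2, e0, e1, e2, n0, n1, n2⟩ := hP
  obtain ⟨e, he⟩ := h
  have hd' : (d : K) ≠ 0 := by exact_mod_cast hd
  have hm' : (m : K) ≠ 0 := by exact_mod_cast hm
  have he0 : e ≠ 0 := by
    rintro rfl
    rw [mul_zero] at he
    exact mul_ne_zero hd' hm' he
  have hr1 : r1 ^ 2 ≠ 0 := pow_ne_zero 2 n1
  refine ⟨m * (r2 / r1) ^ 2, 48 * m ^ 2 * (r0 * r2) / r1 ^ 3, e * r2 / (d * r1),
    mul_ne_zero hm' (pow_ne_zero 2 (div_ne_zero n2 n1)), ?_, ?_⟩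
  · push_cast
    have h2 : r2 ^ 2 = r0 ^ 2 - 49 * m := by rw [← e2, e0]
    have h3 : r1 ^ 2 = r0 ^ 2 - m := by rw [← e1, e0]
    have h4 : (48 * (m : K) ^ 2 * (r0 * r2) / r1 ^ 3) ^ 2 =
        2304 * (m : K) ^ 4 * r0 ^ 2 * r2 ^ 2 / (r1 ^ 2) ^ 3 := by
      field_simp
      ring
    have h5 : (m : K) * (r2 / r1) ^ 2 = m * r2 ^ 2 / r1 ^ 2 := by
      rw [div_pow]; ring
    rw [h4, h5, h2]
    have hr1' : r0 ^ 2 - (m : K) ≠ 0 := by rw [← h3]; exact hr1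
    rw [h3]
    field_simp
    ring
  · have h1 : (m : K) * (r2 / r1) ^ 2 = (e * e) * r2 ^ 2 / (d * r1 ^ 2) := by
      rw [← he, div_pow]
      field_simp
    rw [h1]
    field_simp

/-- a point with a given abscissa -/
lemma locI_x {x : ℤ} (hx : x ≠ 0) (hd : d ≠ 0)
    (h : IsSquare (((x * (x - m) * (x - 49 * m) : ℤ)) : K)) (h' : IsSquare (((x * d : ℤ)) : K)) :
    LocI K (25 * m) (144 * m ^ 2) d := by
  obtain ⟨Y, hY⟩ := h
  obtain ⟨e, he⟩ := h'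
  have hd' : (d : K) ≠ 0 := by exact_mod_cast hd
  refine ⟨(x : K), Y, e / d, by exact_mod_cast hx, ?_, ?_⟩
  · push_cast at hY ⊢
    rw [pow_two, ← hY]
    ring
  · push_cast at he
    rw [div_pow, pow_two, ← he]
    field_simp

end loc

lemma zmod_of {N : ℕ} {n a : ℤ} (h : (N : ℤ) ∣ n - a) : ((n : ℤ) : ZMod N) = ((a : ℤ) : ZMod N) := by
  have h4 := (ZMod.intCast_zmod_eq_zero_iff_dvd (n - a) N).2 h
  rw [Int.cast_sub] at h4
  exact sub_eq_zero.1 h4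

lemma sqz3 {n : ℤ} (hn : n % 3 = 1) : IsSquare ((n : ℤ) : ZMod 3) := by
  rw [zmod_of (N := 3) (n := n) (a := 1) (by push_cast; omega)]
  exact ⟨1, by decide⟩

lemma sqz7 {n : ℤ} (hn : n % 7 = 1 ∨ n % 7 = 2 ∨ n % 7 = 4) : IsSquare ((n : ℤ) : ZMod 7) := by
  rcases hn with h | h | h
  · rw [zmod_of (N := 7) (n := n) (a := 1) (by push_cast; omega)]
    exact ⟨1, by decide⟩
  · rw [zmod_of (N := 7) (n := n) (a := 2) (by push_cast; omega)]
    exact ⟨3, by decide⟩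
  · rw [zmod_of (N := 7) (n := n) (a := 4) (by push_cast; omega)]
    exact ⟨2, by decide⟩

lemma sq7 {n : ℤ} (hn : n % 7 = 1 ∨ n % 7 = 2 ∨ n % 7 = 4) : IsSquare (n : ℚ_[7]) :=
  sq_of_zmod (p := 7) (by norm_num) (by push_cast; omega) (sqz7 hn)

/-- **All the local conditions**. -/
theorem loc_all {m d : ℤ} (hm : Cls m) (hd0 : d ≠ 0) (hd4 : m % 4 = 1 → d % 4 = 1)
    (hsup : ∀ p : ℕ, p.Prime → (p : ℤ) ∣ d → Ram m p)
    (hloc : ∀ (p : ℕ) [Fact p.Prime], Ram m p →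
      IsSquare (d : ℚ_[p]) ∨ IsSquare ((d : ℚ_[p]) * m)) :
    (∀ (p : ℕ) [Fact p.Prime], LocI ℚ_[p] (25 * m) (144 * m ^ 2) d) ∧
      LocI ℝ (25 * m) (144 * m ^ 2) d := by
  have hm0 : m ≠ 0 := hm.neg.ne
  refine ⟨fun p hp => ?_, ?_⟩
  · by_cases hram : Ram m p
    · rcases hloc p hram with h | h
      · exact locI_sq (pt_all p m) hd0 h
      · exact locI_m (pt_all p m) hm0 hd0 h
    have hpd : ¬ (p : ℤ) ∣ d := fun h => hram (hsup p hp.out h)
    have hpm : ¬ (p : ℤ) ∣ m := fun h => hram (Or.inl h)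
    by_cases hp2 : p = 2
    · subst hp2
      have hm4 : m % 4 = 1 := by
        by_contra h
        exact hram (Or.inr ⟨rfl, h⟩)
      have h5 := hd4 hm4
      have h6 : d % 8 = 1 ∨ (d % 8 = 5 ∧ m % 8 = 5) ∨ (d % 8 = 5 ∧ m % 8 = 1) := by omega
      rcases h6 with h6 | ⟨h6, h7⟩ | ⟨h6, h7⟩
      · exact locI_sq (pt_all 2 m) hd0 (sq8 h6)
      · refine locI_m (pt_all 2 m) hm0 hd0 ?_
        have := sq8 (n := d * m) (by rw [Int.mul_emod, h6, h7]; norm_num)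
        push_cast at this
        exact this
      · -- the special point `X = 5 m`
        refine locI_x (x := 5 * m) (by omega) hd0 ?_ (sq8 ?_)
        · obtain ⟨w, hw⟩ := sq8 (n := -55 * m) (by omega)
          refine ⟨4 * m * w, ?_⟩
          push_cast at hw ⊢
          linear_combination (16 * (m : ℚ_[2]) ^ 2) * hw
        · have e : 5 * m * d % 8 = (5 * m % 8) * (d % 8) % 8 := Int.mul_emod _ _ _
          have e' : 5 * m % 8 = 5 := by omega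
          rw [e, e', h6]
          norm_num
    by_cases hsq : IsSquare ((d : ℤ) : ZMod p)
    · exact locI_sq (pt_all p m) hd0 (sq_of_zmod hp2 hpd hsq)
    have hpr : Prime (p : ℤ) := Nat.prime_iff_prime_int.1 hp.out
    by_cases hp3 : p = 3
    · subst hp3
      have hpd' : ¬ (3 : ℤ) ∣ d := by exact_mod_cast hpd
      have hpm' : ¬ (3 : ℤ) ∣ m := by exact_mod_cast hpm
      have h1 : d % 3 = 2 := by
        have h2 : d % 3 = 1 ∨ d % 3 = 2 := by omega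
        rcases h2 with h2 | h2
        · exact absurd (sqz3 h2) hsq
        · exact h2
      have h2 : m % 3 = 2 := by have := hm.m3; omega
      have h3 : d * m % 3 = 1 := by rw [Int.mul_emod, h1, h2]; norm_num
      refine locI_m (pt_all 3 m) hm0 hd0 ?_
      have := sq_of_zmod (p := 3) (n := d * m) (by norm_num) (by push_cast; omega) (sqz3 h3)
      push_cast at this
      exact this
    by_cases hp7 : p = 7
    · subst hp7
      have hpd' : ¬ (7 : ℤ) ∣ d := by exact_mod_cast hpd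
      have hpm' : ¬ (7 : ℤ) ∣ m := by exact_mod_cast hpm
      have h1 : d % 7 = 3 ∨ d % 7 = 5 ∨ d % 7 = 6 := by
        by_contra hcon
        exact hsq (sqz7 (by omega))
      have hx : ∀ x : ℤ, (x = 3 ∧ (m % 7 = 1 ∨ m % 7 = 2)) ∨ (x = 5 ∧ m % 7 = 4) →
          LocI ℚ_[7] (25 * m) (144 * m ^ 2) d := by
        intro x hx
        refine locI_x (x := x) (by omega) hd0 (sq7 ?_) (sq7 ?_)
        · have e1 : x * (x - m) * (x - 49 * m) ≡ (x % 7) * (x - m % 7) * (x % 7 - 0) [ZMOD 7] := by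
            refine Int.ModEq.mul (Int.ModEq.mul (Int.mod_modEq x 7).symm ?_) ?_
            · exact Int.ModEq.sub (Int.ModEq.refl x) (Int.mod_modEq m 7).symm
            · refine Int.ModEq.sub (Int.mod_modEq x 7).symm ?_
              show 49 * m % 7 = 0 % 7
              omega
          have e2 : x * (x - m) * (x - 49 * m) % 7 = (x % 7) * (x - m % 7) * (x % 7 - 0) % 7 := e1
          rw [e2]
          rcases hx with ⟨rfl, h | h⟩ | ⟨rfl, h⟩ <;> rw [h] <;> norm_num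
        · have e1 : x * d % 7 = (x % 7) * (d % 7) % 7 := Int.mul_emod _ _ _
          rw [e1]
          rcases hx with ⟨rfl, -⟩ | ⟨rfl, -⟩ <;> rcases h1 with h | h | h <;> rw [h] <;> norm_num
      have h2 : m % 7 = 1 ∨ m % 7 = 2 ∨ m % 7 = 4 := by
        have := hm.m7
        omega
      rcases h2 with h2 | h2 | h2
      · exact hx 3 (Or.inl ⟨rfl, Or.inl h2⟩)
      · exact hx 3 (Or.inl ⟨rfl, Or.inr h2⟩)
      · exact hx 5 (Or.inr ⟨rfl, h2⟩)
    -- the primes of good reduction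
    have hz : ∀ n : ℤ, ¬ (p : ℤ) ∣ n → ((n : ℤ) : ZMod p) ≠ 0 := fun n hn h =>
      hn ((ZMod.intCast_zmod_eq_zero_iff_dvd n p).1 h)
    have hb : ((144 * m ^ 2 : ℤ) : ZMod p) ≠ 0 := by
      apply hz
      intro h
      rcases hpr.dvd_or_dvd h with h3 | h3
      · have e : (144 : ℤ) = 2 ^ 4 * 3 ^ 2 := by norm_num
        rw [e] at h3
        rcases hpr.dvd_or_dvd h3 with h4 | h4
        · exact not_dvd_of_prime Nat.prime_two hp2 (hpr.dvd_of_dvd_pow h4)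
        · exact not_dvd_of_prime Nat.prime_three hp3 (hpr.dvd_of_dvd_pow h4)
      · exact hpm (hpr.dvd_of_dvd_pow h3)
    refine Pool.Agent.Z894.LG.aux p (25 * m) (144 * m ^ 2) d hp2 hb ?_ hd0 ?_
    · have e : (((25 * m : ℤ) : ZMod p)) ^ 2 - 4 * ((144 * m ^ 2 : ℤ) : ZMod p) =
          (7 * (m : ZMod p)) ^ 2 := by
        push_cast; ring
      rw [e]
      apply quadraticChar_sq_one'
      have h16 : ¬ (p : ℤ) ∣ 7 * m := by
        intro h
        rcases hpr.dvd_or_dvd h with h3 | h3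
        · exact not_dvd_of_prime (q := 7) (by norm_num) hp7 h3
        · exact hpm h3
      have := hz _ h16
      push_cast at this
      exact this
    · rcases quadraticChar_dichotomy (hz d hpd) with h | h
      · exfalso
        exact hsq ((quadraticChar_one_iff_isSquare (hz d hpd)).1 h)
      · exact h
  · -- the real place
    rcases lt_or_gt_of_ne hd0 with h | h
    · refine locI_m (pt_allR m) hm0 hd0 ?_
      have h1 : (0 : ℝ) ≤ (d : ℝ) * m := by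
        have h2 : (0 : ℤ) ≤ d * m := (mul_pos_of_neg_of_neg h hm.neg).le
        exact_mod_cast h2
      exact ⟨Real.sqrt ((d : ℝ) * m), (Real.mul_self_sqrt h1).symm⟩
    · refine locI_sq (pt_allR m) hd0 ?_
      have h1 : (0 : ℝ) ≤ (d : ℝ) := by exact_mod_cast h.le
      exact ⟨Real.sqrt (d : ℝ), (Real.mul_self_sqrt h1).symm⟩

/-- a nontrivial element of `Ш[2]` from an everywhere locally trivial class -/
theorem sha_ex21 {m d : ℤ} (hm : m < 0) (hns : ¬ IsSquare (-(m : ℚ))) (hd : d ≠ 0)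
    (n1 : ¬ IsSquare (d : ℚ)) (n2 : ¬ IsSquare ((d : ℚ) * m))
    (hl : ∀ (p : ℕ) [Fact p.Prime], LocI ℚ_[p] (25 * m) (144 * m ^ 2) d)
    (hr : LocI ℝ (25 * m) (144 * m ^ 2) d)
    (hf : Finite (WZ (25 * m) (144 * m ^ 2)).toAffine.Point) :
    ∃ x : Sha (WZ (25 * m) (144 * m ^ 2)), x ≠ 0 ∧ x + x = 0 := by
  have hm0 : m ≠ 0 := hm.ne
  have hb : (144 * m ^ 2 : ℤ) ≠ 0 := mul_ne_zero (by norm_num) (pow_ne_zero 2 hm0)
  have hab : (25 * m) ^ 2 - 4 * (144 * m ^ 2) ≠ 0 := by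
    have : (25 * m) ^ 2 - 4 * (144 * m ^ 2) = 49 * m ^ 2 := by ring
    rw [this]
    exact mul_ne_zero (by norm_num) (pow_ne_zero 2 hm0)
  have h1 : S_COC := Pool.Agent.Z488.t_COC
  have h2 : S_LOT := Pool.Agent.Y210.Z702.t_LOT
  have h3 : S_COB := Pool.Agent.Z290.COBf.t_COB
  have hc : coc hb d ∈ shaCoc (WZ (25 * m) (144 * m ^ 2)) := ⟨(h1 _ _ hb d).1,
    fun p _ => h2 _ _ hb d hab hd ℚ_[p] (hl p), h2 _ _ hb d hab hd ℝ hr⟩
  let N : AddSubgroup (shaCoc (WZ (25 * m) (144 * m ^ 2))) :=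
    (cob (WZ (25 * m) (144 * m ^ 2))).addSubgroupOf (shaCoc (WZ (25 * m) (144 * m ^ 2)))
  let y : shaCoc (WZ (25 * m) (144 * m ^ 2)) := ⟨coc hb d, hc⟩
  refine ⟨(QuotientAddGroup.mk y : shaCoc (WZ (25 * m) (144 * m ^ 2)) ⧸ N), ?_, ?_⟩
  · intro h0
    have h0' : (QuotientAddGroup.mk y : shaCoc (WZ (25 * m) (144 * m ^ 2)) ⧸ N) = 0 := h0
    rw [QuotientAddGroup.eq_zero_iff, AddSubgroup.mem_addSubgroupOf] at h0'
    rcases h3 _ _ hb d hab hd h0' with h | h | h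
    · exact n1 h
    · apply n1
      obtain ⟨r, hr'⟩ := h
      have hm' : (m : ℚ) ≠ 0 := by exact_mod_cast hm0
      refine ⟨r / (7 * m), ?_⟩
      push_cast at hr'
      field_simp
      linear_combination hr'
    · rcases tor4 hm hns hf h with h | h
      · exact n1 h
      · exact n2 h
  · have h5 : (QuotientAddGroup.mk (y + y) : shaCoc (WZ (25 * m) (144 * m ^ 2)) ⧸ N) = 0 := by
      rw [QuotientAddGroup.eq_zero_iff, AddSubgroup.mem_addSubgroupOf]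
      have h6 : ((y + y : shaCoc (WZ (25 * m) (144 * m ^ 2))) :
          Coch (WZ (25 * m) (144 * m ^ 2))) = 0 := (h1 _ _ hb d).2
      rw [h6]
      exact cob_zero _
    exact h5

theorem Em_Δ (m : ℤ) : (Em m).Δ = 2 ^ 12 * 3 ^ 4 * 7 ^ 2 * m ^ 6 := by
  simp only [Em, WeierstrassCurve.Δ, WeierstrassCurve.b₂, WeierstrassCurve.b₄,
    WeierstrassCurve.b₆, WeierstrassCurve.b₈]
  ring

theorem EQm_Δ_ne {m : ℤ} (hm : m ≠ 0) : (EQm m).Δ ≠ 0 := by
  rw [WeierstrassCurve.map_Δ, Em_Δ]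
  show ((2 ^ 12 * 3 ^ 4 * 7 ^ 2 * m ^ 6 : ℤ) : ℚ) ≠ 0
  have : (2 ^ 12 * 3 ^ 4 * 7 ^ 2 * m ^ 6 : ℤ) ≠ 0 := mul_ne_zero (by norm_num) (pow_ne_zero 6 hm)
  exact_mod_cast this

/-- transport to the curve `E_m` -/
theorem trnE {m : ℤ} (hm : m ≠ 0) :
    (Finite (WZ (25 * m) (144 * m ^ 2)).toAffine.Point ↔ Finite (EQm m).toAffine.Point) ∧
    ((∀ x : Sha (WZ (25 * m) (144 * m ^ 2)), x + x = 0 → x = 0) ↔
      ∀ x : Sha (EQm m), x + x = 0 → x = 0) := by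
  have hv : Pool.Agent.Y700.VR (WZ (25 * m) (144 * m ^ 2)) (EQm m) 1 (-9 * m) 0 0 := by
    refine ⟨one_ne_zero, ?_, ?_, ?_, ?_, ?_⟩
    · show (1 : ℚ) * (((0 : ℤ)) : ℚ) = 0 + 2 * 0
      norm_num
    · show (1 : ℚ) ^ 2 * (((-2 * m : ℤ)) : ℚ) = ((25 * m : ℤ) : ℚ) - 0 * 0 + 3 * (-9 * m) - 0 ^ 2
      push_cast
      ring
    · show (1 : ℚ) ^ 3 * (((0 : ℤ)) : ℚ) = 0 + (-9 * m) * 0 + 2 * 0
      norm_num
    · show (1 : ℚ) ^ 4 * (((-63 * m ^ 2 : ℤ)) : ℚ) = ((144 * m ^ 2 : ℤ) : ℚ) - 0 * 0 +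
        2 * (-9 * m) * ((25 * m : ℤ) : ℚ) - (0 + -9 * m * 0) * 0 + 3 * (-9 * m) ^ 2 - 2 * 0 * 0
      push_cast
      ring
    · show (1 : ℚ) ^ 6 * (((0 : ℤ)) : ℚ) = 0 + (-9 * m) * ((144 * m ^ 2 : ℤ) : ℚ) +
        (-9 * m) ^ 2 * ((25 * m : ℤ) : ℚ) + (-9 * m) ^ 3 - 0 * 0 - 0 ^ 2 - (-9 * m) * 0 * 0
      push_cast
      ring
  have hT : S_TRN := Pool.Agent.Z932.Z702.t_TRN
  obtain ⟨h1, h2, -⟩ := hT _ _ _ _ _ _ hv (EQm_Δ_ne hm)
  exact ⟨h1, h2⟩

/-- squarefree integers in the same square class -/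
lemma eq_of_sq {d m : ℤ} (hd : Squarefree d) (hm : Squarefree m)
    (h : IsSquare ((d : ℚ) * m)) : d = m := by
  have h1 : IsSquare (((d * m : ℤ)) : ℚ) := by push_cast; exact h
  rw [Rat.isSquare_intCast_iff] at h1
  obtain ⟨r, hr⟩ := h1
  have h2 : d ∣ r := (hd.dvd_pow_iff_dvd two_ne_zero).1 ⟨m, by rw [pow_two, hr]⟩
  obtain ⟨k, rfl⟩ := h2
  have h3 : m = d * (k * k) := mul_left_cancel₀ hd.ne_zero (by rw [hr]; ring)
  have h4 : IsUnit k := hm k ⟨d, by rw [h3]; ring⟩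
  rcases Int.isUnit_iff.1 h4 with h | h <;> rw [h3, h] <;> ring

/-- **The converse**. -/
theorem rc_of_fin {m : ℤ} (hm : Cls m) (hf : Finite (EQm m).toAffine.Point)
    (hs : ∀ x : Sha (EQm m), x + x = 0 → x = 0) : RC m := by
  intro d hds hsup hd4 hloc
  by_contra hcon
  push Not at hcon
  have hm0 : m ≠ 0 := hm.neg.ne
  have hd0 : d ≠ 0 := hds.ne_zero
  obtain ⟨l1, l2⟩ := loc_all hm hd0 hd4 hsup (fun p _ hpm => hloc p hpm)
  have hsn : Squarefree (-m) := fun x hx => hm.sqf x (by rwa [dvd_neg] at hx)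
  have hns : ¬ IsSquare (-(m : ℚ)) := by
    intro h
    have h1 := eq_of_sq squarefree_one hsn (by push_cast; rwa [one_mul])
    have := hm.m7
    omega
  have n1 : ¬ IsSquare (d : ℚ) := fun h =>
    hcon.1 (eq_of_sq squarefree_one hds (by push_cast; rwa [one_mul])).symm
  have n2 : ¬ IsSquare ((d : ℚ) * m) := fun h => hcon.2 (eq_of_sq hds hm.sqf h)
  obtain ⟨t1, t2⟩ := trnE hm0
  obtain ⟨x, hx, hxx⟩ := sha_ex21 hm.neg hns hd0 n1 n2 (fun p _ => l1 p) l2 (t1.2 hf)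
  exact hx (t2.2 hs x hxx)

end Pool.Agent.N637.P21
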