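import Pool.Agent.N637.P21.Min
import Pool.Agent.N875.X15.Crit
import Pool.Agent.H82R3.EK.FF

/-!
# The coefficients `a_p` of the twists of `21a1`
-/

set_option autoImplicit false

open scoped Classical

namespace Pool.Agent.N637.P21

open Pool.Agent.W97.MT (affCount ap)
open Pool.Agent.N875.X15 (recip)

/-- the curve `21a1` (this is `E21` of `Pool.Agent.N974.Gen.Models`) -/
def E21 : WeierstrassCurve ℤ := ⟨1, 0, 0, -4, -1⟩

/-- the curve `21a1` and the twist by `1` -/
theorem affCount_E21 (p : ℕ) : affCount E21 p = affCount (WN 1) p := by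
  unfold affCount
  refine Nat.card_congr
    { toFun := fun x => ⟨(x.1.1 - 2, x.1.2 + 1), ?_⟩
      invFun := fun x => ⟨(x.1.1 + 2, x.1.2 - 1), ?_⟩
      left_inv := ?_
      right_inv := ?_ }
  · have h := x.2
    rw [WeierstrassCurve.Affine.equation_iff] at h ⊢
    simp only [E21, WN, WeierstrassCurve.map, map_one, map_neg, map_zero, eq_intCast] at h ⊢
    norm_num at h ⊢
    linear_combination h
  · have h := x.2
    rw [WeierstrassCurve.Affine.equation_iff] at h ⊢
    simp only [E21, WN, WeierstrassCurve.map, map_one, map_neg, map_zero, eq_intCast] at h ⊢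
    norm_num at h ⊢
    linear_combination h
  · intro x
    ext
    · show x.1.1 - 2 + 2 = x.1.1
      ring
    · show x.1.2 + 1 - 1 = x.1.2
      ring
  · intro x
    ext
    · show x.1.1 + 2 - 2 = x.1.1
      ring
    · show x.1.2 - 1 + 1 = x.1.2
      ring

theorem ap_E21 (p : ℕ) : ap E21 p = ap (WN 1) p := by
  unfold ap
  rw [affCount_E21]

theorem affCount_odd {m : ℤ} (hm : m % 4 = 1) (p : ℕ) [Fact p.Prime] (hp : p ≠ 2) :
    (affCount (WN m) p : ℤ) = p + ∑ x : ZMod p,
      quadraticChar (ZMod p) (x ^ 3 + 25 * (m : ZMod p) * x ^ 2 + 144 * (m : ZMod p) ^ 2 * x) := by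
  have hpp : p.Prime := Fact.out
  have n2 : (2 : ZMod p) ≠ 0 := by
    intro h
    have : ((2 : ℕ) : ZMod p) = 0 := by exact_mod_cast h
    rw [ZMod.natCast_eq_zero_iff] at this
    exact hp ((Nat.prime_dvd_prime_iff_eq hpp Nat.prime_two).1 this)
  have n4 : (4 : ZMod p) ≠ 0 := by
    rw [show (4 : ZMod p) = 2 ^ 2 by norm_num]
    exact pow_ne_zero 2 n2
  obtain ⟨k, rfl⟩ : ∃ k, m = 4 * k + 1 := ⟨m / 4, by omega⟩
  rw [WN_k]
  have hchar : ringChar (ZMod p) ≠ 2 := by rw [ZMod.ringChar_zmod_n]; exact hp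
  set M : ZMod p := ((4 * k + 1 : ℤ) : ZMod p) with hM
  have hM' : M = 4 * (k : ZMod p) + 1 := by rw [hM]; push_cast; ring
  set g : ZMod p → ZMod p := fun x => 4 * x ^ 3 + 25 * M * x ^ 2 + 36 * M ^ 2 * x with hg
  have e1 : affCount ⟨1, 25 * k + 6, 0, 9 * (4 * k + 1) ^ 2, 0⟩ p =
      Nat.card {q : ZMod p × ZMod p // q.2 ^ 2 = g q.1} := by
    unfold affCount
    refine Nat.card_congr
      { toFun := fun x => ⟨(x.1.1, 2 * x.1.2 + x.1.1), ?_⟩
        invFun := fun x => ⟨(x.1.1, (x.1.2 - x.1.1) / 2), ?_⟩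
        left_inv := ?_
        right_inv := ?_ }
    · have h := x.2
      rw [WeierstrassCurve.Affine.equation_iff] at h
      simp only [WeierstrassCurve.map, map_one, map_neg, map_zero, eq_intCast] at h
      simp only [hg, hM']
      push_cast at h
      linear_combination 4 * h
    · have h := x.2
      rw [WeierstrassCurve.Affine.equation_iff]
      simp only [WeierstrassCurve.map, map_one, map_neg, map_zero, eq_intCast]
      simp only [hg, hM'] at h
      push_cast
      have e2 : x.1.2 = 2 * ((x.1.2 - x.1.1) / 2) + x.1.1 := by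
        field_simp
        ring
      set v := (x.1.2 - x.1.1) / 2 with hv
      rw [e2] at h
      apply mul_left_cancel₀ n4
      linear_combination h
    · intro x
      ext
      · rfl
      · show (2 * x.1.2 + x.1.1 - x.1.1) / 2 = x.1.2
        field_simp
        ring
    · intro x
      ext
      · rfl
      · show 2 * ((x.1.2 - x.1.1) / 2) + x.1.1 = x.1.2
        field_simp
        ring
  rw [e1, Pool.Agent.H82R3.EK.card_points hchar g, ZMod.card]
  congr 1
  refine Fintype.sum_equiv (Equiv.mulLeft₀ (4 : ZMod p) n4) _ _ fun x => ?_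
  have h4 : quadraticChar (ZMod p) (g x) = quadraticChar (ZMod p) (4 ^ 2 * g x) := by
    rw [map_mul, quadraticChar_sq_one' n4, one_mul]
  rw [h4]
  congr 1
  simp only [Equiv.mulLeft₀_apply, hg]
  ring

/-- primes dividing the twisting factor -/
theorem ap_dvd {m : ℤ} (hm : m % 4 = 1) (p : ℕ) [Fact p.Prime] (hp : p ≠ 2) (h : (p : ℤ) ∣ m) :
    ap (WN m) p = 0 := by
  have hM0 : (m : ZMod p) = 0 := (ZMod.intCast_zmod_eq_zero_iff_dvd m p).2 h
  have hchar : ringChar (ZMod p) ≠ 2 := by rw [ZMod.ringChar_zmod_n]; exact hp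
  unfold ap
  rw [affCount_odd hm p hp, hM0]
  have : ∑ x : ZMod p, quadraticChar (ZMod p) (x ^ 3 + 25 * 0 * x ^ 2 + 144 * 0 ^ 2 * x) =
      ∑ x : ZMod p, quadraticChar (ZMod p) x := by
    refine Finset.sum_congr rfl fun x _ => ?_
    have e : x ^ 3 + 25 * 0 * x ^ 2 + 144 * 0 ^ 2 * x = x ^ 2 * x := by ring
    rw [e, map_mul]
    by_cases hx : x = 0
    · rw [hx]; simp
    · rw [quadraticChar_sq_one' hx, one_mul]
  rw [this, quadraticChar_sum_zero hchar]
  ring

theorem ap_ndvd {m : ℤ} (hm : m % 4 = 1) (p : ℕ) [Fact p.Prime] (hp : p ≠ 2) (h : ¬ (p : ℤ) ∣ m) :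
    ap (WN m) p = jacobiSym m p * ap (WN 1) p := by
  have hpp : p.Prime := Fact.out
  have hM0 : (m : ZMod p) ≠ 0 := by
    intro h1
    exact h ((ZMod.intCast_zmod_eq_zero_iff_dvd m p).1 h1)
  have h5 : quadraticChar (ZMod p) (m : ZMod p) = jacobiSym m p := by
    rw [← jacobiSym.legendreSym.to_jacobiSym]
    rfl
  unfold ap
  rw [affCount_odd hm p hp, affCount_odd (by norm_num) p hp, ← h5, sub_add_cancel_left,
    sub_add_cancel_left, mul_neg, Finset.mul_sum]
  congr 1
  symm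
  refine Fintype.sum_equiv (Equiv.mulLeft₀ (m : ZMod p) hM0) _ _ fun x => ?_
  have h4 : quadraticChar (ZMod p) (m : ZMod p) = quadraticChar (ZMod p) ((m : ZMod p) ^ 3) := by
    rw [pow_succ, map_mul, quadraticChar_sq_one' hM0, one_mul]
  rw [h4, ← map_mul, Equiv.mulLeft₀_apply]
  congr 1
  push_cast
  ring

theorem ap_two {m : ℤ} (hm : m % 4 = 1) : ap (WN m) 2 = if m % 8 = 1 then -1 else 1 := by
  obtain ⟨k, rfl⟩ : ∃ k, m = 4 * k + 1 := ⟨m / 4, by omega⟩
  rw [WN_k]
  unfold ap affCount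
  have b0 : ((9 * (4 * k + 1) ^ 2 : ℤ) : ZMod 2) = 1 := by
    have e : (9 * (4 * k + 1) ^ 2 : ℤ) = 2 * (72 * k ^ 2 + 36 * k + 4) + 1 := by ring
    rw [e]
    push_cast
    have : (2 : ZMod 2) = 0 := rfl
    rw [this]
    ring
  rcases (by omega : (4 * k + 1) % 8 = 1 ∨ (4 * k + 1) % 8 = 5) with h8 | h8
  · rw [if_pos h8]
    have a0 : ((25 * k + 6 : ℤ) : ZMod 2) = 0 :=
      (ZMod.intCast_zmod_eq_zero_iff_dvd _ 2).2 (by push_cast; omega)
    have e : Nat.card {P : ZMod 2 × ZMod 2 //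
        ((⟨1, 25 * k + 6, 0, 9 * (4 * k + 1) ^ 2, 0⟩ : WeierstrassCurve ℤ).map
          (Int.castRingHom (ZMod 2))).toAffine.Equation P.1 P.2} =
          Nat.card {P : ZMod 2 × ZMod 2 // P.2 ^ 2 + P.1 * P.2 = P.1 ^ 3 + P.1} := by
      refine Nat.card_congr (Equiv.subtypeEquivRight fun P => ?_)
      rw [WeierstrassCurve.Affine.equation_iff]
      simp only [WeierstrassCurve.map, map_one, map_zero, eq_intCast, a0, b0]
      ring_nf
    rw [e, Nat.card_eq_fintype_card]
    have e2 : Fintype.card {P : ZMod 2 × ZMod 2 // P.2 ^ 2 + P.1 * P.2 = P.1 ^ 3 + P.1} = 3 := by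
      decide
    simp only [e2]
    norm_num
  · rw [if_neg (by omega)]
    have a0 : ((25 * k + 6 : ℤ) : ZMod 2) = 1 := by
      have : (25 * k + 6 : ℤ) = 2 * ((25 * k + 6 - 1) / 2) + 1 := by omega
      rw [this]
      push_cast
      have : (2 : ZMod 2) = 0 := rfl
      rw [this]
      ring
    have e : Nat.card {P : ZMod 2 × ZMod 2 //
        ((⟨1, 25 * k + 6, 0, 9 * (4 * k + 1) ^ 2, 0⟩ : WeierstrassCurve ℤ).map
          (Int.castRingHom (ZMod 2))).toAffine.Equation P.1 P.2} =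
          Nat.card {P : ZMod 2 × ZMod 2 // P.2 ^ 2 + P.1 * P.2 = P.1 ^ 3 + P.1 ^ 2 + P.1} := by
      refine Nat.card_congr (Equiv.subtypeEquivRight fun P => ?_)
      rw [WeierstrassCurve.Affine.equation_iff]
      simp only [WeierstrassCurve.map, map_one, map_zero, eq_intCast, a0, b0]
      ring_nf
    rw [e, Nat.card_eq_fintype_card]
    have e2 : Fintype.card {P : ZMod 2 × ZMod 2 //
        P.2 ^ 2 + P.1 * P.2 = P.1 ^ 3 + P.1 ^ 2 + P.1} = 1 := by
      decide
    simp only [e2]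
    norm_num

/-- **The coefficients of the twist by `-n`, `n = 3 mod 4`.** -/
theorem ap_WN {n : ℕ} (h4 : n % 4 = 3) (p : ℕ) (hp : p.Prime) :
    ap (WN (-(n : ℤ))) p = ap E21 p * jacobiSym p n := by
  have : Fact p.Prime := ⟨hp⟩
  have hm : (-(n : ℤ)) % 4 = 1 := by omega
  rw [ap_E21]
  rcases hp.eq_two_or_odd' with h2 | h2
  · subst h2
    have hodd : Odd n := Nat.odd_iff.2 (by omega)
    have e2 : jacobiSym ((2 : ℕ) : ℤ) n = jacobiSym 2 n := by norm_num
    rw [ap_two hm, ap_two (by norm_num), e2, jacobiSym.at_two hodd, ZMod.χ₈_nat_eq_if_mod_eight]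
    have h3 : n % 2 = 1 := by omega
    rcases (by omega : n % 8 = 7 ∨ n % 8 = 3) with h8 | h8
    · rw [if_pos (by omega), if_pos (by norm_num), if_neg (by omega), if_pos (Or.inr h8)]
      norm_num
    · rw [if_neg (by omega), if_pos (by norm_num), if_neg (by omega), if_neg (by omega)]
      norm_num
  · have hp2 : p ≠ 2 := by rintro rfl; exact absurd h2 (by decide)
    by_cases hd : (p : ℤ) ∣ -(n : ℤ)
    · rw [ap_dvd hm p hp2 hd]
      have hd' : p ∣ n := by
        rw [dvd_neg] at hd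
        exact_mod_cast hd
      have : jacobiSym p n = 0 := by
        rw [jacobiSym.eq_zero_iff]
        refine ⟨by omega, ?_⟩
        intro h1
        have h3 : Nat.gcd p n = 1 := by
          have : Int.gcd ((p : ℕ) : ℤ) n = Nat.gcd p n := by simp
          rw [← this]; exact h1
        have h5 : p ∣ Nat.gcd p n := Nat.dvd_gcd dvd_rfl hd'
        rw [h3] at h5
        exact hp.one_lt.ne' (Nat.dvd_one.1 h5)
      rw [this, mul_zero]
    · rw [ap_ndvd hm p hp2 hd, recip hm h2, Int.natAbs_neg, Int.natAbs_natCast, mul_comm]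



/-! ### the coefficients of `E_m` -/

theorem affCount_Em (m : ℤ) (p : ℕ) [Fact p.Prime] (hp : p ≠ 2) :
    (affCount (Em m) p : ℤ) = p + ∑ x : ZMod p,
      quadraticChar (ZMod p) (x ^ 3 + 25 * (m : ZMod p) * x ^ 2 + 144 * (m : ZMod p) ^ 2 * x) := by
  have hchar : ringChar (ZMod p) ≠ 2 := by rw [ZMod.ringChar_zmod_n]; exact hp
  set g : ZMod p → ZMod p := fun x =>
    x ^ 3 + 25 * (m : ZMod p) * x ^ 2 + 144 * (m : ZMod p) ^ 2 * x with hg
  have e1 : affCount (Em m) p = Nat.card {q : ZMod p × ZMod p // q.2 ^ 2 = g q.1} := by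
    unfold affCount
    refine Nat.card_congr
      { toFun := fun x => ⟨(x.1.1 - 9 * (m : ZMod p), x.1.2), ?_⟩
        invFun := fun x => ⟨(x.1.1 + 9 * (m : ZMod p), x.1.2), ?_⟩
        left_inv := ?_
        right_inv := ?_ }
    · have h := x.2
      rw [WeierstrassCurve.Affine.equation_iff] at h
      simp only [Em, WeierstrassCurve.map, map_zero, eq_intCast] at h
      simp only [hg]
      push_cast at h
      linear_combination h
    · have h := x.2
      rw [WeierstrassCurve.Affine.equation_iff]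
      simp only [Em, WeierstrassCurve.map, map_zero, eq_intCast]
      simp only [hg] at h
      push_cast
      linear_combination h
    · intro x
      ext
      · show x.1.1 - 9 * (m : ZMod p) + 9 * (m : ZMod p) = x.1.1
        ring
      · rfl
    · intro x
      ext
      · show x.1.1 + 9 * (m : ZMod p) - 9 * (m : ZMod p) = x.1.1
        ring
      · rfl
  rw [e1, Pool.Agent.H82R3.EK.card_points hchar g, ZMod.card]

theorem ap_Em_one (p : ℕ) [Fact p.Prime] (hp : p ≠ 2) : ap (Em 1) p = ap E21 p := by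
  rw [ap_E21]
  unfold ap
  rw [affCount_Em 1 p hp, affCount_odd (by norm_num) p hp]

/-- primes dividing the twisting factor -/
theorem ap_Em_dvd {m : ℤ} (p : ℕ) [Fact p.Prime] (hp : p ≠ 2) (h : (p : ℤ) ∣ m) :
    ap (Em m) p = 0 := by
  have hM0 : (m : ZMod p) = 0 := (ZMod.intCast_zmod_eq_zero_iff_dvd m p).2 h
  have hchar : ringChar (ZMod p) ≠ 2 := by rw [ZMod.ringChar_zmod_n]; exact hp
  unfold ap
  rw [affCount_Em m p hp, hM0]
  have : ∑ x : ZMod p, quadraticChar (ZMod p) (x ^ 3 + 25 * 0 * x ^ 2 + 144 * 0 ^ 2 * x) =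
      ∑ x : ZMod p, quadraticChar (ZMod p) x := by
    refine Finset.sum_congr rfl fun x _ => ?_
    have e : x ^ 3 + 25 * 0 * x ^ 2 + 144 * 0 ^ 2 * x = x ^ 2 * x := by ring
    rw [e, map_mul]
    by_cases hx : x = 0
    · rw [hx]; simp
    · rw [quadraticChar_sq_one' hx, one_mul]
  rw [this, quadraticChar_sum_zero hchar]
  ring

theorem ap_Em_ndvd {m : ℤ} (p : ℕ) [Fact p.Prime] (hp : p ≠ 2) (h : ¬ (p : ℤ) ∣ m) :
    ap (Em m) p = jacobiSym m p * ap E21 p := by
  have hpp : p.Prime := Fact.out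
  have hM0 : (m : ZMod p) ≠ 0 := by
    intro h1
    exact h ((ZMod.intCast_zmod_eq_zero_iff_dvd m p).1 h1)
  have h5 : quadraticChar (ZMod p) (m : ZMod p) = jacobiSym m p := by
    rw [← jacobiSym.legendreSym.to_jacobiSym]
    rfl
  rw [← ap_Em_one p hp]
  unfold ap
  rw [affCount_Em m p hp, affCount_Em 1 p hp, ← h5, sub_add_cancel_left,
    sub_add_cancel_left, mul_neg, Finset.mul_sum]
  congr 1
  symm
  refine Fintype.sum_equiv (Equiv.mulLeft₀ (m : ZMod p) hM0) _ _ fun x => ?_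
  have h4 : quadraticChar (ZMod p) (m : ZMod p) = quadraticChar (ZMod p) ((m : ZMod p) ^ 3) := by
    rw [pow_succ, map_mul, quadraticChar_sq_one' hM0, one_mul]
  rw [h4, ← map_mul, Equiv.mulLeft₀_apply]
  congr 1
  push_cast
  ring

theorem ap_Em_two (m : ℤ) : ap (Em m) 2 = 0 := by
  unfold ap affCount
  rcases Int.emod_two_eq_zero_or_one m with h | h
  · have a0 : ((-63 * m ^ 2 : ℤ) : ZMod 2) = 0 := by
      refine (ZMod.intCast_zmod_eq_zero_iff_dvd _ 2).2 ?_
      obtain ⟨t, ht⟩ : ∃ t, m = 2 * t := ⟨m / 2, by omega⟩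
      exact ⟨-126 * t ^ 2, by rw [ht]; push_cast; ring⟩
    have b0 : ((-2 * m : ℤ) : ZMod 2) = 0 :=
      (ZMod.intCast_zmod_eq_zero_iff_dvd _ 2).2 (by push_cast; omega)
    have e : Nat.card {P : ZMod 2 × ZMod 2 //
        ((Em m).map (Int.castRingHom (ZMod 2))).toAffine.Equation P.1 P.2} =
          Nat.card {P : ZMod 2 × ZMod 2 // P.2 ^ 2 = P.1 ^ 3} := by
      refine Nat.card_congr (Equiv.subtypeEquivRight fun P => ?_)
      rw [WeierstrassCurve.Affine.equation_iff]
      simp only [Em, WeierstrassCurve.map, map_zero, eq_intCast, a0, b0]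
      ring_nf
    rw [e, Nat.card_eq_fintype_card]
    have e2 : Fintype.card {P : ZMod 2 × ZMod 2 // P.2 ^ 2 = P.1 ^ 3} = 2 := by
      decide
    simp only [e2]
    norm_num
  · have a0 : ((-63 * m ^ 2 : ℤ) : ZMod 2) = 1 := by
      obtain ⟨t, ht⟩ : ∃ t, m = 2 * t + 1 := ⟨m / 2, by omega⟩
      have : (-63 * m ^ 2 : ℤ) = 2 * (-126 * t ^ 2 - 126 * t - 32) + 1 := by rw [ht]; ring
      rw [this]
      push_cast
      have : (2 : ZMod 2) = 0 := rfl
      rw [this]
      ring
    have b0 : ((-2 * m : ℤ) : ZMod 2) = 0 :=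
      (ZMod.intCast_zmod_eq_zero_iff_dvd _ 2).2 (by push_cast; omega)
    have e : Nat.card {P : ZMod 2 × ZMod 2 //
        ((Em m).map (Int.castRingHom (ZMod 2))).toAffine.Equation P.1 P.2} =
          Nat.card {P : ZMod 2 × ZMod 2 // P.2 ^ 2 = P.1 ^ 3 + P.1} := by
      refine Nat.card_congr (Equiv.subtypeEquivRight fun P => ?_)
      rw [WeierstrassCurve.Affine.equation_iff]
      simp only [Em, WeierstrassCurve.map, map_zero, eq_intCast, a0, b0]
      ring_nf
    rw [e, Nat.card_eq_fintype_card]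
    have e2 : Fintype.card {P : ZMod 2 × ZMod 2 // P.2 ^ 2 = P.1 ^ 3 + P.1} = 2 := by
      decide
    simp only [e2]
    norm_num

end Pool.Agent.N637.P21
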