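import Pool.Agent.N637.P21.Main
import Pool.Agent.N875.X15.Short

/-!
# The short equation and the minimal equation of the twists of `21a1`
-/

set_option autoImplicit false

namespace Pool.Agent.N637.P21

open WeierstrassCurve
open Pool.Agent.TH841.SH.D (Sha)
open Pool.Agent.Y700 (VR)
open Pool.Agent.Z702 (S_TRN)
open Pool.Agent.N875.X15 (Fin2)
open Pool.Agent.N969.P15 (Ev Qe Qc)

/-- the short equation of the twist of `21a1` by `m` -/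
def WS (m : ℤ) : WeierstrassCurve ℚ :=
  ⟨0, 0, 0, ((-5211 * m ^ 2 : ℤ) : ℚ), ((-31050 * m ^ 3 : ℤ) : ℚ)⟩

theorem vrS (m : ℤ) : VR (WS m) (EQm m) 3 (-6 * m) 0 0 := by
  refine ⟨by norm_num, ?_, ?_, ?_, ?_, ?_⟩
  · show (3 : ℚ) * (((0 : ℤ)) : ℚ) = 0 + 2 * 0
    norm_num
  · show (3 : ℚ) ^ 2 * (((-2 * m : ℤ)) : ℚ) = 0 - 0 * 0 + 3 * (-6 * m) - 0 ^ 2
    push_cast
    ring
  · show (3 : ℚ) ^ 3 * (((0 : ℤ)) : ℚ) = 0 + (-6 * m) * 0 + 2 * 0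
    norm_num
  · show (3 : ℚ) ^ 4 * (((-63 * m ^ 2 : ℤ)) : ℚ) = ((-5211 * m ^ 2 : ℤ) : ℚ) - 0 * 0 +
      2 * (-6 * m) * 0 - (0 + -6 * m * 0) * 0 + 3 * (-6 * m) ^ 2 - 2 * 0 * 0
    push_cast
    ring
  · show (3 : ℚ) ^ 6 * (((0 : ℤ)) : ℚ) = ((-31050 * m ^ 3 : ℤ) : ℚ) +
      (-6 * m) * ((-5211 * m ^ 2 : ℤ) : ℚ) +
      (-6 * m) ^ 2 * 0 + (-6 * m) ^ 3 - 0 * 0 - 0 ^ 2 - (-6 * m) * 0 * 0
    push_cast
    ring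

/-- transport between the equations -/
theorem trnS {m : ℤ} (hm : m ≠ 0) :
    (Finite (WS m).toAffine.Point ↔ Finite (EQm m).toAffine.Point) ∧
    ((∀ x : Sha (WS m), x + x = 0 → x = 0) ↔ ∀ x : Sha (EQm m), x + x = 0 → x = 0) := by
  have hT : S_TRN := Pool.Agent.Z932.Z702.t_TRN
  obtain ⟨h1, h2, -⟩ := hT _ _ _ _ _ _ (vrS m) (EQm_Δ_ne hm)
  exact ⟨h1, h2⟩

theorem fin2_S {m : ℤ} (hm : m ≠ 0) : Fin2 (WS m) ↔ Fin2 (EQm m) :=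
  and_congr (trnS hm).1 (trnS hm).2

/-- **Odd discriminants**: the criterion for the short equation. -/
theorem crit_ao_S {n : ℕ} (h : Ao n) : Fin2 (WS (-(n : ℤ))) ↔ Qc n := by
  rw [fin2_S (cls_ao h).neg.ne]
  exact crit_ao h

/-- **Even discriminants**: the criterion for the short equation. -/
theorem crit_ae_S {n : ℕ} (h : Ae n) : Fin2 (WS (-((n / 4 : ℕ) : ℤ))) ↔ Qe n := by
  rw [fin2_S (cls_ae h).neg.ne]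
  exact crit_ae h

/-- the equation `y² = (x + D) (x - 8 D) (x + 8 D)` -/
def WD (m : ℤ) : WeierstrassCurve ℚ :=
  ⟨0, ((m : ℤ) : ℚ), 0, ((-64 * m ^ 2 : ℤ) : ℚ), ((-64 * m ^ 3 : ℤ) : ℚ)⟩

theorem vrD (m : ℤ) : VR (WD m) (EQm m) 1 (-m) 0 0 := by
  refine ⟨one_ne_zero, ?_, ?_, ?_, ?_, ?_⟩
  · show (1 : ℚ) * (((0 : ℤ)) : ℚ) = 0 + 2 * 0
    norm_num
  · show (1 : ℚ) ^ 2 * (((-2 * m : ℤ)) : ℚ) = ((m : ℤ) : ℚ) - 0 * 0 + 3 * (-m) - 0 ^ 2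
    push_cast
    ring
  · show (1 : ℚ) ^ 3 * (((0 : ℤ)) : ℚ) = 0 + (-m) * 0 + 2 * 0
    norm_num
  · show (1 : ℚ) ^ 4 * (((-63 * m ^ 2 : ℤ)) : ℚ) = ((-64 * m ^ 2 : ℤ) : ℚ) - 0 * 0 +
      2 * (-m) * ((m : ℤ) : ℚ) - (0 + -m * 0) * 0 + 3 * (-m) ^ 2 - 2 * 0 * 0
    push_cast
    ring
  · show (1 : ℚ) ^ 6 * (((0 : ℤ)) : ℚ) = ((-64 * m ^ 3 : ℤ) : ℚ) +
      (-m) * ((-64 * m ^ 2 : ℤ) : ℚ) +
      (-m) ^ 2 * ((m : ℤ) : ℚ) + (-m) ^ 3 - 0 * 0 - 0 ^ 2 - (-m) * 0 * 0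
    push_cast
    ring

theorem fin2_D {m : ℤ} (hm : m ≠ 0) : Fin2 (WD m) ↔ Fin2 (EQm m) := by
  have hT : S_TRN := Pool.Agent.Z932.Z702.t_TRN
  obtain ⟨h1, h2, -⟩ := hT _ _ _ _ _ _ (vrD m) (EQm_Δ_ne hm)
  exact and_congr h1 h2

/-- **Odd discriminants**: the criterion for `y² = (x + D) (x - 8 D) (x + 8 D)`. -/
theorem crit_ao_D {n : ℕ} (h : Ao n) : Fin2 (WD (-(n : ℤ))) ↔ Qc n := by
  rw [fin2_D (cls_ao h).neg.ne]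
  exact crit_ao h

/-- **Even discriminants**: the criterion for `y² = (x + D) (x - 8 D) (x + 8 D)`. -/
theorem crit_ae_D {n : ℕ} (h : Ae n) : Fin2 (WD (-((n / 4 : ℕ) : ℤ))) ↔ Qe n := by
  rw [fin2_D (cls_ae h).neg.ne]
  exact crit_ae h

end Pool.Agent.N637.P21
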