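import Pool.Agent.N637.P21.Tam
import Pool.Agent.N637.P21.Conv
import Pool.Agent.N875.X15.Tam2

/-!
# The Tamagawa number of `y² = x (x + 9 m) (x + 16 m)` at 2, `m ≢ 1 mod 4`

This is the curve `E_m : y² = x (x - 9 m) (x + 7 m)`, with `x` replaced by `x + 9 m`.
-/

set_option autoImplicit false
set_option linter.style.haveILetI false

namespace Pool.Agent.N637.P21.Tw

open WeierstrassCurve
open Pool.Agent.TH841.SH (IsR)
open Pool.Agent.Y700 (PtP SingRed E0 tam VR)
open Pool.Agent.Y809.BSD14 (index_of t_E0)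
open Pool.Agent.N875.X15 (isR_eqn add_T two_tor dbl_T val_ram normlt_iff normle_iff norm_add_lt
  norm_sub_lt norm_mul_lt norm_mul_lt' norm_int norm_two norm_sq_lt norm_lt_of_dvd not_norm_lt
  norm_le_iff norm_lt_iff norm_eq_iff val_zero val_one val_p val_mul_unit not_dvd_of_prime val_unr
  tam_VR index_of' unit_sub_one unit_add val2 add_same norm_half v16_2 v9_2 v25_2
  val_add_eq even_val val_neg unit_part unit_odd int_of_sq sq_of_mod8)

open scoped Classical

/-- the shifted equation `y² = x (x + 9 m) (x + 16 m)` -/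
def Em (m : ℤ) : WeierstrassCurve ℤ := ⟨0, 25 * m, 0, 144 * m ^ 2, 0⟩

section points

variable {p : ℕ} [hp : Fact p.Prime] {m : ℤ}

/-- the curve over `ℚ_p` -/
lemma isRp (p : ℕ) [Fact p.Prime] (m : ℤ) : IsR ((Em m).map (Int.castRingHom ℚ_[p]))
    (0 : ℚ_[p]) (-9 * m) (-16 * m) := by
  refine ⟨?_, ?_, ?_, ?_, ?_⟩ <;> simp [Em] <;> ring

lemma eqnp {x y : ℚ_[p]} (h : ((Em m).map (Int.castRingHom ℚ_[p])).toAffine.Nonsingular x y) :
    y ^ 2 = x * (x + 9 * m) * (x + 16 * m) := by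
  have := (isR_eqn (isRp p m)).1 h.1
  rw [this]
  ring

lemma nonsingp (hm : m ≠ 0) {x : ℚ_[p]} (hx : x = 0 ∨ x = -9 * m ∨ x = -16 * m) :
    ((Em m).map (Int.castRingHom ℚ_[p])).toAffine.Nonsingular x 0 := by
  have hm' : (m : ℚ_[p]) ≠ 0 := by exact_mod_cast hm
  rw [Affine.nonsingular_iff, Affine.equation_iff]
  simp only [Em, map_a₁, map_a₂, map_a₃, map_a₄, map_a₆, eq_intCast]
  push_cast
  have h3 : (m : ℚ_[p]) ^ 2 ≠ 0 := pow_ne_zero 2 hm'
  constructor
  · rcases hx with rfl | rfl | rfl <;> ring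
  · left
    intro h
    apply h3
    rcases hx with rfl | rfl | rfl
    · linear_combination (-1 / 144 : ℚ_[p]) * h
    · linear_combination (1 / 63 : ℚ_[p]) * h
    · linear_combination (-1 / 112 : ℚ_[p]) * h

/-- the points of order two -/
noncomputable def Tp (hm : m ≠ 0) {x : ℚ_[p]} (hx : x = 0 ∨ x = -9 * m ∨ x = -16 * m) :
    PtP (Em m) p := Affine.Point.some x 0 (nonsingp hm hx)

/-- the coset representatives -/
noncomputable def rp (hm : m ≠ 0) (i : Fin 4) : PtP (Em m) p :=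
  if i = 0 then 0 else if i = 1 then Tp hm (Or.inl rfl) else
    if i = 2 then Tp hm (Or.inr (Or.inl rfl)) else Tp hm (Or.inr (Or.inr rfl))

lemma rp_dbl (hm : m ≠ 0) (i : Fin 4) : rp (p := p) hm i + rp hm i = 0 := by
  unfold rp
  split_ifs
  · exact add_zero 0
  · exact dbl_T (isRp p m) _
  · exact dbl_T (isRp p m) _
  · exact dbl_T (isRp p m) _

lemma Tp_inj (hm : m ≠ 0) {x x' : ℚ_[p]} (hx : x = 0 ∨ x = -9 * m ∨ x = -16 * m)
    (hx' : x' = 0 ∨ x' = -9 * m ∨ x' = -16 * m) (h : Tp hm hx = Tp hm hx') : x = x' := by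
  unfold Tp at h
  injection h

lemma Tp_ne (hm : m ≠ 0) {x : ℚ_[p]} (hx : x = 0 ∨ x = -9 * m ∨ x = -16 * m) :
    Tp hm hx ≠ 0 := Affine.Point.some_ne_zero _

lemma rp_inj (hm : m ≠ 0) : Function.Injective (rp (p := p) hm) := by
  have hm' : (m : ℚ_[p]) ≠ 0 := by exact_mod_cast hm
  have q9 : (-9 * (m : ℚ_[p])) ≠ 0 := mul_ne_zero (by norm_num) hm'
  have q7 : (-16 * (m : ℚ_[p])) ≠ 0 := mul_ne_zero (by norm_num) hm'
  have q16 : (-9 * (m : ℚ_[p])) ≠ -16 * m := by
    intro h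
    apply hm'
    linear_combination (1 / 7 : ℚ_[p]) * h
  have r0 : rp (p := p) hm 0 = 0 := rfl
  have r1 : rp (p := p) hm 1 = Tp hm (Or.inl rfl) := rfl
  have r2 : rp (p := p) hm 2 = Tp hm (Or.inr (Or.inl rfl)) := rfl
  have r3 : rp (p := p) hm 3 = Tp hm (Or.inr (Or.inr rfl)) := rfl
  intro i j hij
  fin_cases i <;> fin_cases j <;> first | rfl | (exfalso; revert hij; simp only [Fin.zero_eta, Fin.mk_one, Fin.reduceFinMk, r0, r1, r2, r3]; intro hij)
  · exact Tp_ne hm _ hij.symm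
  · exact Tp_ne hm _ hij.symm
  · exact Tp_ne hm _ hij.symm
  · exact Tp_ne hm _ hij
  · exact q9 (Tp_inj hm _ _ hij).symm
  · exact q7 (Tp_inj hm _ _ hij).symm
  · exact Tp_ne hm _ hij
  · exact q9 (Tp_inj hm _ _ hij)
  · exact q16 (Tp_inj hm _ _ hij)
  · exact Tp_ne hm _ hij
  · exact q7 (Tp_inj hm _ _ hij)
  · exact q16 (Tp_inj hm _ _ hij).symm

end points

section two

variable {m : ℤ}

/-- the reduction at 2 -/
lemma sing_two {x y : ℚ_[2]}
    (h : ((Em m).map (Int.castRingHom ℚ_[2])).toAffine.Nonsingular x y) :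
    SingRed (Em m) 2 x y ↔ ‖x‖ < 1 := by
  have e := eqnp h
  have h2 : ‖(2 : ℚ_[2])‖ < 1 := by
    have : (2 : ℚ_[2]) = ((2 : ℕ) : ℚ_[2]) := by norm_num
    rw [this, Padic.norm_p]
    norm_num
  have hm1 : ‖(m : ℚ_[2])‖ ≤ 1 := norm_int m
  unfold SingRed
  simp only [Em]
  push_cast
  constructor
  · rintro ⟨h1, h2', h3, h4⟩
    have h5 : ‖x ^ 2‖ < 1 := by
      have e2 : x ^ 2 = (0 * y - (3 * x ^ 2 + 2 * (25 * (m : ℚ_[2])) * x + 144 * (m : ℚ_[2]) ^ 2)) +
          2 * (((2 : ℤ) : ℚ_[2]) * (x * x) + (((25 : ℤ) : ℚ_[2]) * (m * x) +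
            ((72 : ℤ) : ℚ_[2]) * (m * m))) := by
        push_cast; ring
      rw [e2]
      refine norm_add_lt h3 (norm_mul_lt h2 ?_)
      have k1 : ∀ (k : ℤ) (a b : ℚ_[2]), ‖a‖ ≤ 1 → ‖b‖ ≤ 1 → ‖(k : ℚ_[2]) * (a * b)‖ ≤ 1 := by
        intro k a b ha hb
        rw [norm_mul, norm_mul]
        exact mul_le_one₀ (norm_int k) (mul_nonneg (norm_nonneg _) (norm_nonneg _))
          (mul_le_one₀ ha (norm_nonneg _) hb)
      refine (Padic.nonarchimedean _ _).trans (max_le (k1 _ _ _ h1 h1) ?_)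
      exact (Padic.nonarchimedean _ _).trans (max_le (k1 _ _ _ hm1 h1) (k1 _ _ _ hm1 hm1))
    exact norm_sq_lt h5
  · intro hx
    have hy : ‖y‖ < 1 := by
      apply norm_sq_lt
      rw [e]
      refine norm_mul_lt (norm_mul_lt hx ?_) ?_
      · refine (Padic.nonarchimedean _ _).trans (max_le hx.le ?_)
        have := norm_int (p := 2) 9
        push_cast at this
        rw [norm_mul]
        exact mul_le_one₀ this (norm_nonneg _) hm1
      · refine (Padic.nonarchimedean _ _).trans (max_le hx.le ?_)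
        have := norm_int (p := 2) 16
        push_cast at this
        rw [norm_mul]
        exact mul_le_one₀ this (norm_nonneg _) hm1
    refine ⟨hx.le, hy.le, ?_, ?_⟩
    · have e1 : 0 * y - (3 * x ^ 2 + 2 * (25 * (m : ℚ_[2])) * x + 144 * (m : ℚ_[2]) ^ 2) =
          x * (((-3 : ℤ) : ℚ_[2]) * x + ((-50 : ℤ) : ℚ_[2]) * m) + 2 * (((-72 : ℤ) : ℚ_[2]) * (m * m)) := by
        push_cast; ring
      rw [e1]
      refine norm_add_lt (norm_mul_lt hx ?_) (norm_mul_lt h2 ?_)
      · refine (Padic.nonarchimedean _ _).trans (max_le ?_ ?_)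
        · rw [norm_mul]
          exact mul_le_one₀ (norm_int _) (norm_nonneg _) hx.le
        · rw [norm_mul]
          exact mul_le_one₀ (norm_int _) (norm_nonneg _) hm1
      · rw [norm_mul, norm_mul]
        exact mul_le_one₀ (norm_int _) (mul_nonneg (norm_nonneg _) (norm_nonneg _))
          (mul_le_one₀ hm1 (norm_nonneg _) hm1)
    · have e1 : (2 : ℚ_[2]) * y + 0 * x + 0 = 2 * y := by ring
      rw [e1]
      exact norm_mul_lt h2 hy.le

/-- membership in `E0` -/
lemma mem_E0 {x y : ℚ_[2]}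
    (h : ((Em m).map (Int.castRingHom ℚ_[2])).toAffine.Nonsingular x y) :
    (Affine.Point.some x y h : PtP (Em m) 2) ∈ E0 (Em m) 2 ↔ 1 ≤ ‖x‖ := by
  rw [t_E0, ← not_lt]
  constructor
  · intro h1 h2
    exact h1 x y h rfl ((sing_two h).2 h2)
  · intro h1 x' y' h' he hsing
    injection he with e1 e2
    subst e1
    subst e2
    exact h1 ((sing_two h').1 hsing)

/-- translation by a point of order two -/
lemma shift2 {a b c : ℚ_[2]}
    (h : IsR ((Em m).map (Int.castRingHom ℚ_[2])) a b c) (ha : ‖a‖ < 1) {x y : ℚ_[2]}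
    (hP : ((Em m).map (Int.castRingHom ℚ_[2])).toAffine.Nonsingular x y)
    (hT : ((Em m).map (Int.castRingHom ℚ_[2])).toAffine.Nonsingular a 0) (hx : x ≠ a)
    (hv : ‖x - a‖ ≤ ‖(a - b) * (a - c)‖) :
    (Affine.Point.some x y hP + Affine.Point.some a 0 hT : PtP (Em m) 2) ∈ E0 (Em m) 2 := by
  obtain ⟨X, Y, H, e, hX⟩ := add_T h hP hT hx
  rw [e, mem_E0, ← not_lt]
  intro hsing
  have h1 : 1 ≤ ‖X - a‖ := by
    rw [hX, norm_div, one_le_div (norm_pos_iff.2 (sub_ne_zero.2 hx))]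
    exact hv
  have h2 := norm_sub_lt hsing ha
  linarith

/-- **The Tamagawa number at 2**, `m` even. -/
theorem tam_two_even (hs : Squarefree m) (h2 : (2 : ℤ) ∣ m) : tam (Em m) 2 = 4 := by
  have hm0 : m ≠ 0 := hs.ne_zero
  have hm' : (m : ℚ_[2]) ≠ 0 := by exact_mod_cast hm0
  have hm1 : ‖(m : ℚ_[2])‖ < 1 := (Padic.norm_intCast_lt_one_iff).2 (by exact_mod_cast h2)
  have hR := isRp 2 m
  have vm : (m : ℚ_[2]).valuation = 1 := val_one (by exact_mod_cast h2) hs
  have v16 : (16 * (m : ℚ_[2])).valuation = 5 := by rw [v16_2 hm0, vm]; norm_num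
  have v9 : (9 * (m : ℚ_[2])).valuation = 1 := by rw [v9_2 hm0, vm]
  have v7 : (7 * (m : ℚ_[2])).valuation = 1 := by
    have := val_mul_unit (p := 2) (n := m) 7 (by norm_num) hm0
    push_cast at this
    rw [this, vm]
  have n9 : (9 * (m : ℚ_[2])) ≠ 0 := mul_ne_zero (by norm_num) hm'
  have n16 : (16 * (m : ℚ_[2])) ≠ 0 := mul_ne_zero (by norm_num) hm'
  have n7 : (7 * (m : ℚ_[2])) ≠ 0 := mul_ne_zero (by norm_num) hm'
  have r0 : rp (p := 2) hm0 0 = 0 := rfl
  have r1 : rp (p := 2) hm0 1 = Tp hm0 (Or.inl rfl) := rfl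
  have r2 : rp (p := 2) hm0 2 = Tp hm0 (Or.inr (Or.inl rfl)) := rfl
  have r3 : rp (p := 2) hm0 3 = Tp hm0 (Or.inr (Or.inr rfl)) := rfl
  have nrm : ∀ k : ℤ, ‖(k : ℚ_[2]) * m‖ < 1 := fun k => norm_mul_lt' (norm_int k) hm1
  refine index_of (E0 (Em m) 2) (rp (p := 2) hm0) (rp_dbl hm0) ?_ ?_
  · intro P
    rcases P with _ | ⟨x, y, h⟩
    · exact ⟨0, by rw [r0]; exact (E0 (Em m) 2).zero_mem⟩
    by_cases hx1 : ‖x‖ < 1
    swap
    · refine ⟨0, ?_⟩
      rw [r0, add_zero, mem_E0]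
      exact not_lt.1 hx1
    have hE := eqnp h
    by_cases hy : y = 0
    · subst hy
      have h3 : x = 0 ∨ x = -9 * m ∨ x = -16 * m := by
        have h4 : x * (x + 9 * m) * (x + 16 * m) = 0 := by rw [← hE]; ring
        rcases mul_eq_zero.1 h4 with h5 | h5
        · rcases mul_eq_zero.1 h5 with h6 | h6
          · exact Or.inl h6
          · exact Or.inr (Or.inl (by linear_combination h6))
        · exact Or.inr (Or.inr (by linear_combination h5))
      have hz : (Affine.Point.some x 0 h : PtP (Em m) 2) + Affine.Point.some x 0 h = 0 := dbl_T hR h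
      rcases h3 with rfl | rfl | rfl
      · exact ⟨1, by rw [r1]; unfold Tp; rw [hz]; exact (E0 (Em m) 2).zero_mem⟩
      · exact ⟨2, by rw [r2]; unfold Tp; rw [hz]; exact (E0 (Em m) 2).zero_mem⟩
      · exact ⟨3, by rw [r3]; unfold Tp; rw [hz]; exact (E0 (Em m) 2).zero_mem⟩
    · have h0 : x * (x + 9 * m) * (x + 16 * m) ≠ 0 := by
        rw [← hE]; exact pow_ne_zero 2 hy
      have hu : x ≠ 0 := left_ne_zero_of_mul (left_ne_zero_of_mul h0)
      have hv : x + 9 * m ≠ 0 := right_ne_zero_of_mul (left_ne_zero_of_mul h0)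
      have hw : x + 16 * m ≠ 0 := right_ne_zero_of_mul h0
      have hs : IsSquare (x * (x + 9 * m) * (x + 16 * m)) := ⟨y, by rw [← hE, pow_two]⟩
      have hvx : 0 < x.valuation := (normlt_iff hu).1 hx1
      have hsum : Even (x.valuation + (x + 9 * m).valuation + (x + 16 * m).valuation) := by
        have := even_val (mul_ne_zero (mul_ne_zero hu hv) hw) hs
        rwa [Padic.valuation_mul (mul_ne_zero hu hv) hw, Padic.valuation_mul hu hv] at this
      rcases lt_or_ge 5 x.valuation with c | c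
      · refine ⟨1, ?_⟩
        rw [r1]
        refine shift2 hR (by rw [norm_zero]; exact one_pos) h _ hu ?_
        have e : (0 - -9 * (m : ℚ_[2])) * (0 - -16 * m) = (9 * m) * (16 * m) := by ring
        rw [e, sub_zero, norm_le_iff hu (mul_ne_zero n9 n16),
          Padic.valuation_mul n9 n16, v16, v9]
        omega
      rcases eq_or_ne x.valuation 5 with c5 | c5
      · refine ⟨3, ?_⟩
        rw [r3]
        refine shift2 hR.rot.rot ?_ h _ ?_ ?_
        · have := nrm (-16)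
          push_cast at this
          exact this
        · intro hx
          apply hw
          rw [hx]; ring
        · have e : (-16 * (m : ℚ_[2]) - 0) * (-16 * m - -9 * m) = (16 * m) * (7 * m) := by ring
          have e' : x - -16 * (m : ℚ_[2]) = x + 16 * m := by ring
          rw [e, e', norm_le_iff hw (mul_ne_zero n16 n7), Padic.valuation_mul n16 n7, v16, v7]
          have := add_same hu n16 hw (by rw [v16, c5])
          omega
      rcases eq_or_ne x.valuation 1 with c1 | c1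
      · refine ⟨2, ?_⟩
        rw [r2]
        refine shift2 hR.rot ?_ h _ ?_ ?_
        · have := nrm (-9)
          push_cast at this
          exact this
        · intro hx
          apply hv
          rw [hx]; ring
        · have e : (-9 * (m : ℚ_[2]) - -16 * m) * (-9 * m - 0) = -((9 * m) * (7 * m)) := by ring
          have e' : x - -9 * (m : ℚ_[2]) = x + 9 * m := by ring
          rw [e, e', norm_neg, norm_le_iff hv (mul_ne_zero n9 n7), Padic.valuation_mul n9 n7, v9, v7]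
          have := add_same hu n9 hv (by rw [v9, c1])
          omega
      · exfalso
        have e1 := val_add_eq n9 hu (by rwa [add_comm]) (by rw [v9]; omega)
        rw [add_comm] at e1
        have e2 := val_add_eq hu n16 hw (by rw [v16]; omega)
        obtain ⟨r, hr⟩ := hsum
        omega
  · intro i j hij
    by_contra hne
    have h1 : rp (p := 2) hm0 i + rp hm0 j ≠ 0 := by
      intro h
      apply hne
      apply rp_inj (p := 2) hm0
      have h2 := rp_dbl (p := 2) hm0 j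
      have h3 : rp (p := 2) hm0 i = -rp hm0 j := eq_neg_of_add_eq_zero_left h
      have h4 : rp (p := 2) hm0 j = -rp hm0 j := eq_neg_of_add_eq_zero_left h2
      rw [h3, ← h4]
    have h2 : (rp (p := 2) hm0 i + rp hm0 j) + (rp hm0 i + rp hm0 j) = 0 := by
      have e1 := rp_dbl (p := 2) hm0 i
      have e2 := rp_dbl (p := 2) hm0 j
      have e : (rp (p := 2) hm0 i + rp hm0 j) + (rp hm0 i + rp hm0 j) =
        (rp hm0 i + rp hm0 i) + (rp hm0 j + rp hm0 j) := by abel
      rw [e, e1, e2, add_zero]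
    obtain ⟨x, hx, hP, hxx⟩ := two_tor hR two_ne_zero h2 h1
    rw [hP, mem_E0, ← not_lt] at hij
    apply hij
    rcases hxx with rfl | rfl | rfl
    · rw [norm_zero]; exact one_pos
    · have e := nrm (-9)
      push_cast at e
      exact e
    · have e := nrm (-16)
      push_cast at e
      exact e

/-! ### `m ≡ 3 mod 4` -/

/-- the sum of two points of the third coset -/
lemma sum_A (hmo : ¬ (2 : ℤ) ∣ m) {x1 y1 x2 y2 : ℚ_[2]}
    (h1 : ((Em m).map (Int.castRingHom ℚ_[2])).toAffine.Nonsingular x1 y1)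
    (h2 : ((Em m).map (Int.castRingHom ℚ_[2])).toAffine.Nonsingular x2 y2)
    (z1 : x1 ≠ 0) (z2 : x2 ≠ 0) (v1 : x1.valuation = 1) (v2 : x2.valuation = 1) :
    (Affine.Point.some x1 y1 h1 + Affine.Point.some x2 y2 h2 : PtP (Em m) 2) ∈ E0 (Em m) 2 := by
  have hm0 : m ≠ 0 := by rintro rfl; exact hmo (dvd_zero _)
  have hm1 : ‖(m : ℚ_[2])‖ = 1 := by
    refine le_antisymm (norm_int m) ?_
    rw [← not_lt, Padic.norm_intCast_lt_one_iff]
    exact_mod_cast hmo
  have n2 : ‖(2 : ℚ_[2])‖ = 1 / 2 := by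
    have : (2 : ℚ_[2]) = ((2 : ℕ) : ℚ_[2]) := by norm_num
    rw [this, Padic.norm_p]
    norm_num
  have n7 : ‖(25 * (m : ℚ_[2]))‖ = 1 := by
    rw [norm_mul, hm1, mul_one]
    have h7 : ‖((25 : ℤ) : ℚ_[2])‖ = 1 := by
      refine le_antisymm (norm_int 25) ?_
      rw [← not_lt, Padic.norm_intCast_lt_one_iff]
      norm_num
    exact_mod_cast h7
  have n144 : ‖(144 * (m : ℚ_[2]) ^ 2)‖ = 1 / 16 := by
    have h9 : ‖((9 : ℤ) : ℚ_[2])‖ = 1 := by
      refine le_antisymm (norm_int 9) ?_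
      rw [← not_lt, Padic.norm_intCast_lt_one_iff]
      norm_num
    have e : (144 * (m : ℚ_[2]) ^ 2) = 2 ^ 4 * (((9 : ℤ) : ℚ_[2]) * m ^ 2) := by push_cast; ring
    rw [e, norm_mul, norm_mul, norm_pow, norm_pow, n2, h9, hm1]
    norm_num
  have a1 := norm_half z1 v1
  have a2 := norm_half z2 v2
  have q1 := eqnp h1
  have q2 := eqnp h2
  -- the quotients `s = y / x`
  have sq : ∀ x y : ℚ_[2], x ≠ 0 → y ^ 2 = x * (x + 9 * m) * (x + 16 * m) →
      (y / x) ^ 2 = x + 25 * m + 144 * m ^ 2 / x := by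
    intro x y hx hy
    rw [div_pow, hy]
    field_simp
    ring
  have s1 := sq x1 y1 z1 q1
  have s2 := sq x2 y2 z2 q2
  have us : ∀ x y : ℚ_[2], ‖x‖ = 1 / 2 → (y / x) ^ 2 = x + 25 * m + 144 * m ^ 2 / x →
      ‖y / x‖ = 1 := by
    intro x y hx hs
    have e1 : ‖x + 144 * (m : ℚ_[2]) ^ 2 / x‖ < 1 := by
      refine norm_add_lt (by rw [hx]; norm_num) ?_
      rw [norm_div, n144, hx]
      norm_num
    have e2 : (y / x) ^ 2 = (x + 144 * m ^ 2 / x) + 25 * m := by rw [hs]; ring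
    have e3 : ‖(y / x) ^ 2‖ = 1 := by
      rw [e2]
      have := IsUltrametricDist.norm_add_eq_max_of_norm_ne_norm
        (x := x + 144 * (m : ℚ_[2]) ^ 2 / x) (y := 25 * (m : ℚ_[2])) (by
          rw [n7]; exact e1.ne)
      rw [this, n7]
      exact max_eq_right e1.le
    rw [norm_pow] at e3
    exact (pow_eq_one_iff_of_nonneg (norm_nonneg _) two_ne_zero).1 e3
  have u1 := us x1 y1 a1 s1
  have u2 := us x2 y2 a2 s2
  -- the quotient `κ`
  have hκ : ‖1 - 144 * (m : ℚ_[2]) ^ 2 / (x1 * x2)‖ = 1 := by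
    have e1 : ‖-(144 * (m : ℚ_[2]) ^ 2 / (x1 * x2))‖ < 1 := by
      rw [norm_neg, norm_div, n144, norm_mul, a1, a2]
      norm_num
    have := IsUltrametricDist.norm_add_eq_max_of_norm_ne_norm
        (x := (1 : ℚ_[2])) (y := -(144 * (m : ℚ_[2]) ^ 2 / (x1 * x2))) (by
          rw [norm_one]; exact e1.ne')
    rw [sub_eq_add_neg, this, norm_one]
    exact max_eq_left e1.le
  -- the final step, from the slope
  have fin : ∀ l : ℚ_[2], ‖l‖ ≠ 1 → 1 ≤ ‖l ^ 2 - 25 * m - x1 - x2‖ := by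
    intro l hl
    have e1 : ‖-(x1 + x2)‖ < 1 := by
      rw [norm_neg]
      exact norm_add_lt (by rw [a1]; norm_num) (by rw [a2]; norm_num)
    have n7' : ‖-(25 * (m : ℚ_[2]))‖ = 1 := by rw [norm_neg, n7]
    have e0 : l ^ 2 - 25 * (m : ℚ_[2]) - x1 - x2 = (l ^ 2 + -(25 * m)) + -(x1 + x2) := by ring
    rcases lt_or_gt_of_ne hl with h | h
    · have e2 : ‖l ^ 2‖ < 1 := by rw [norm_pow]; exact pow_lt_one₀ (norm_nonneg _) h two_ne_zero
      have e3 : ‖l ^ 2 + -(25 * (m : ℚ_[2]))‖ = 1 := by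
        rw [IsUltrametricDist.norm_add_eq_max_of_norm_ne_norm (by rw [n7']; exact e2.ne), n7']
        exact max_eq_right e2.le
      rw [e0, IsUltrametricDist.norm_add_eq_max_of_norm_ne_norm (by rw [e3]; exact e1.ne'), e3]
      exact le_max_left _ _
    · have e2 : 1 < ‖l ^ 2‖ := by rw [norm_pow]; exact one_lt_pow₀ h two_ne_zero
      have e3 : ‖l ^ 2 + -(25 * (m : ℚ_[2]))‖ = ‖l ^ 2‖ := by
        rw [IsUltrametricDist.norm_add_eq_max_of_norm_ne_norm (by rw [n7']; exact e2.ne'), n7']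
        exact max_eq_left e2.le
      rw [e0, IsUltrametricDist.norm_add_eq_max_of_norm_ne_norm (by
        rw [e3]; exact (e1.trans e2).ne'), e3]
      exact e2.le.trans (le_max_left _ _)
  -- the slope
  have slp : ∀ l s s' κ x : ℚ_[2], ‖s‖ = 1 → ‖s'‖ = 1 → ‖κ‖ = 1 → ‖x‖ = 1 / 2 → s + s' ≠ 0 →
      l = s' + x * κ / (s + s') → ‖l‖ ≠ 1 := by
    intro l s s' κ x hs hs' hk hx hne hl
    have e1 : ‖s + s'‖ < 1 := unit_add hs hs'
    have v0 := (normlt_iff hne).1 e1
    have e2 : ‖s + s'‖ = 1 / 2 ∨ ‖s + s'‖ < 1 / 2 := by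
      rcases eq_or_lt_of_le (show (1 : ℤ) ≤ (s + s').valuation by omega) with c | c
      · left
        exact norm_half hne c.symm
      · right
        rw [Padic.norm_eq_zpow_neg_valuation hne]
        have : ((2 : ℕ) : ℝ) ^ (-(s + s').valuation) < ((2 : ℕ) : ℝ) ^ (-1 : ℤ) :=
          zpow_lt_zpow_right₀ (by norm_num) (by omega)
        refine this.trans_le ?_
        norm_num
    have e3 : ‖x * κ / (s + s')‖ = 1 / 2 / ‖s + s'‖ := by
      rw [norm_div, norm_mul, hx, hk, mul_one]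
    rcases e2 with c | c
    · have e4 : ‖x * κ / (s + s')‖ = 1 := by rw [e3, c]; norm_num
      rw [hl]
      exact (unit_add hs' e4).ne
    · have hpos : 0 < ‖s + s'‖ := norm_pos_iff.2 hne
      have e4 : 1 < ‖x * κ / (s + s')‖ := by
        rw [e3, one_lt_div hpos]
        exact c
      rw [hl, IsUltrametricDist.norm_add_eq_max_of_norm_ne_norm (by rw [hs']; exact e4.ne), hs']
      exact (lt_max_of_lt_right e4).ne'
  by_cases hxx : x1 = x2
  · subst hxx
    by_cases hyy : y1 = ((Em m).map (Int.castRingHom ℚ_[2])).toAffine.negY x1 y2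
    · rw [Affine.Point.add_of_Y_eq rfl hyy]
      exact (E0 (Em m) 2).zero_mem
    · have hy12 : y1 = y2 := by
        have e1 : (y1 - y2) * (y1 + y2) = 0 := by
          have : (y1 - y2) * (y1 + y2) = y1 ^ 2 - y2 ^ 2 := by ring
          rw [this, q1, q2, sub_self]
        rcases mul_eq_zero.1 e1 with h | h
        · exact sub_eq_zero.1 h
        · exfalso
          apply hyy
          rw [Affine.negY, (isRp 2 m).h1, (isRp 2 m).h3]
          linear_combination h
      subst hy12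
      rw [Affine.Point.add_of_Y_ne hyy, mem_E0, Affine.addX, (isRp 2 m).h1, (isRp 2 m).h2]
      rw [Affine.slope_of_Y_ne rfl hyy, Affine.negY, (isRp 2 m).h1, (isRp 2 m).h2, (isRp 2 m).h3,
        (isRp 2 m).h4]
      have hy0 : y1 ≠ 0 := by
        rintro rfl
        rw [zero_div, norm_zero] at u1
        norm_num at u1
      set l := (3 * x1 ^ 2 + 2 * -(0 + -9 * (m : ℚ_[2]) + -16 * m) * x1 +
        (0 * (-9 * m) + 0 * (-16 * m) + -9 * m * (-16 * m)) - 0 * y1) /
          (y1 - (-y1 - 0 * x1 - 0)) with hl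
      have hl' : l = y1 / x1 + x1 * (1 - 144 * (m : ℚ_[2]) ^ 2 / (x1 * x1)) /
          (y1 / x1 + y1 / x1) := by
        rw [hl]
        have e : (y1 - (-y1 - 0 * x1 - 0)) = 2 * y1 := by ring
        rw [e]
        have h2' : (2 : ℚ_[2]) ≠ 0 := two_ne_zero
        field_simp
        linear_combination (-4) * q1
      have h3 := slp l (y1 / x1) (y1 / x1) _ x1 u1 u1 hκ a1 (by
        have e : y1 / x1 + y1 / x1 = 2 * y1 / x1 := by ring
        rw [e]
        exact div_ne_zero (mul_ne_zero two_ne_zero hy0) z1) hl'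
      have h4 := fin l h3
      have e5 : l ^ 2 + 0 * l - -(0 + -9 * (m : ℚ_[2]) + -16 * m) - x1 - x1 =
        l ^ 2 - 25 * m - x1 - x1 := by ring
      rw [e5]
      exact h4
  · rw [Affine.Point.add_of_X_ne hxx, mem_E0, Affine.addX, (isRp 2 m).h1, (isRp 2 m).h2,
      Affine.slope_of_X_ne hxx]
    have hx12 : x1 - x2 ≠ 0 := sub_ne_zero.2 hxx
    have hdiff : (y1 / x1 - y2 / x2) * (y1 / x1 + y2 / x2) =
        (x1 - x2) * (1 - 144 * (m : ℚ_[2]) ^ 2 / (x1 * x2)) := by
      have : (y1 / x1 - y2 / x2) * (y1 / x1 + y2 / x2) = (y1 / x1) ^ 2 - (y2 / x2) ^ 2 := by ring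
      rw [this, s1, s2]
      field_simp
      ring
    have hk0 : 1 - 144 * (m : ℚ_[2]) ^ 2 / (x1 * x2) ≠ 0 := by
      intro h
      rw [h, norm_zero] at hκ
      norm_num at hκ
    have hsum : y1 / x1 + y2 / x2 ≠ 0 := by
      intro h
      rw [h, mul_zero] at hdiff
      exact mul_ne_zero hx12 hk0 hdiff.symm
    set l := (y1 - y2) / (x1 - x2) with hl
    have hl' : l = y2 / x2 + x1 * (1 - 144 * (m : ℚ_[2]) ^ 2 / (x1 * x2)) /
        (y1 / x1 + y2 / x2) := by
      have e1 : (1 - 144 * (m : ℚ_[2]) ^ 2 / (x1 * x2)) / (y1 / x1 + y2 / x2) =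
          (y1 / x1 - y2 / x2) / (x1 - x2) := by
        rw [div_eq_div_iff hsum hx12]
        linear_combination -hdiff
      rw [mul_div_assoc, e1, hl]
      field_simp
      ring
    have h3 := slp l (y1 / x1) (y2 / x2) _ x1 u1 u2 hκ a1 hsum hl'
    have h4 := fin l h3
    have e5 : l ^ 2 + 0 * l - -(0 + -9 * (m : ℚ_[2]) + -16 * m) - x1 - x2 =
      l ^ 2 - 25 * m - x1 - x2 := by ring
    rw [e5]
    exact h4

/-- the possible valuations -/
lemma val_three (h4 : m % 4 = 3) {x : ℚ_[2]} (hx : x ≠ 0) (hs : IsSquare (x * (x + 9 * m) * (x + 16 * m))) :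
    x.valuation ≠ 2 := by
  intro h2
  obtain ⟨s, hs1, hs2⟩ := unit_part hx
  have hodd := unit_odd hs1
  obtain ⟨y, hy⟩ := hs
  rw [h2] at hs2
  have e4 : (2 : ℚ_[2]) ^ (2 : ℤ) = 4 := by norm_num
  rw [e4] at hs2
  have key : ∀ t : ℤ_[2], (∃ z : ℚ_[2], z ^ 2 = t) → PadicInt.toZModPow 3 t ≠ 3 ∧
      PadicInt.toZModPow 3 t ≠ 7 := by
    rintro t ⟨z, hz⟩
    obtain ⟨r, hr⟩ := int_of_sq hz
    rw [← hr, map_pow]
    have : ∀ t : ZMod (2 ^ 3), t ^ 2 ≠ 3 ∧ t ^ 2 ≠ 7 := by decide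
    exact this _
  have c4 : PadicInt.toZModPow (p := 2) 3 4 = 4 := map_ofNat (PadicInt.toZModPow (p := 2) 3) 4
  have c9 : PadicInt.toZModPow (p := 2) 3 9 = 9 := map_ofNat (PadicInt.toZModPow (p := 2) 3) 9
  have d4 : ((4 : ℤ_[2]) : ℚ_[2]) = 4 := rfl
  have d9 : ((9 : ℤ_[2]) : ℚ_[2]) = 9 := rfl
  have hmm : PadicInt.toZModPow (p := 2) 3 (m : ℤ_[2]) = 3 ∨
      PadicInt.toZModPow (p := 2) 3 (m : ℤ_[2]) = 7 := by
    rw [map_intCast]
    have h : m % 8 = 3 ∨ m % 8 = 7 := by omega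
    rcases h with h | h
    · left
      have : ((8 : ℕ) : ℤ) ∣ m - 3 := by push_cast; omega
      have h2 := (ZMod.intCast_zmod_eq_zero_iff_dvd (m - 3) 8).2 this
      push_cast at h2
      exact sub_eq_zero.1 h2
    · right
      have : ((8 : ℕ) : ℤ) ∣ m - 7 := by push_cast; omega
      have h2 := (ZMod.intCast_zmod_eq_zero_iff_dvd (m - 7) 8).2 this
      push_cast at h2
      exact sub_eq_zero.1 h2
  have h1 := key (s * (s + 4 * m) * (4 * s + 9 * m)) ⟨y / 4, by
    push_cast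
    rw [d4, d9, div_pow, pow_two, ← hy, hs2]
    ring⟩
  rw [map_mul, map_mul, map_add, map_add, map_mul, map_mul, map_mul, c4, c9] at h1
  have h2 : ∀ t μ : ZMod (2 ^ 3), (t = 1 ∨ t = 3 ∨ t = 5 ∨ t = 7) → (μ = 3 ∨ μ = 7) →
    ¬ (t * (t + 4 * μ) * (4 * t + 9 * μ) ≠ 3 ∧ t * (t + 4 * μ) * (4 * t + 9 * μ) ≠ 7) := by
    decide
  exact h2 _ _ (by simpa using hodd) hmm h1

/-- a point of the third coset -/
lemma exists_A (h4 : m % 4 = 3) : ∃ (x y : ℚ_[2])
    (_ : ((Em m).map (Int.castRingHom ℚ_[2])).toAffine.Nonsingular x y),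
      x ≠ 0 ∧ x.valuation = 1 := by
  obtain ⟨k, rfl⟩ : ∃ k, m = 4 * k + 3 := ⟨m / 4, by omega⟩
  have h8 : IsSquare (((-143 - 380 * k - 252 * k * k : ℤ)) : ℚ_[2]) := by
    have h1 : PadicInt.toZModPow (p := 2) 3 ((-143 - 380 * k - 252 * k * k : ℤ) : ℤ_[2]) = 1 := by
      rw [map_intCast]
      have h2 : ((8 : ℕ) : ℤ) ∣ (-143 - 380 * k - 252 * k * k) - 1 := by
        obtain ⟨t, ht⟩ := Int.even_mul_succ_self k
        refine ⟨-18 + t - 48 * k - 32 * k * k, ?_⟩
        push_cast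
        linear_combination 4 * ht
      have h3 := (ZMod.intCast_zmod_eq_zero_iff_dvd _ 8).2 h2
      push_cast at h3 ⊢
      exact sub_eq_zero.1 h3
    have h2 := sq_of_mod8 _ h1
    rwa [PadicInt.coe_intCast] at h2
  obtain ⟨r, hr⟩ := h8
  push_cast at hr
  have hx : (1 - 9 * ((4 * k + 3 : ℤ) : ℚ_[2])) = 2 * (((-(18 * k + 13) : ℤ)) : ℚ_[2]) := by
    push_cast; ring
  have hu0 : (((-(18 * k + 13) : ℤ)) : ℚ_[2]) ≠ 0 := by
    have : (-(18 * k + 13) : ℤ) ≠ 0 := by omega
    exact_mod_cast this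
  have hx0 : (1 - 9 * ((4 * k + 3 : ℤ) : ℚ_[2])) ≠ 0 := by
    rw [hx]
    exact mul_ne_zero two_ne_zero hu0
  have hr0 : r ≠ 0 := by
    rintro rfl
    rw [mul_zero] at hr
    have h1 : ((-143 - 380 * k - 252 * k * k : ℤ) : ℚ_[2]) = 0 := by push_cast; exact hr
    have h2 : (-143 - 380 * k - 252 * k * k : ℤ) = 0 := by exact_mod_cast h1
    have : (-143 - 380 * k - 252 * k * k) % 2 = 1 := by
      have e : -143 - 380 * k - 252 * k * k = 2 * (-72 - 190 * k - 126 * k * k) + 1 := by ring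
      omega
    omega
  refine ⟨1 - 9 * ((4 * k + 3 : ℤ) : ℚ_[2]), 2 * r, ?_, hx0, ?_⟩
  · rw [Affine.nonsingular_iff, isR_eqn (isRp 2 (4 * k + 3))]
    constructor
    · push_cast
      linear_combination (-4) * hr
    · right
      simp only [Em, map_a₁, map_a₃, eq_intCast]
      push_cast
      intro h
      apply hr0
      have : (4 : ℚ_[2]) * r = 0 := by linear_combination h
      exact (mul_eq_zero.1 this).resolve_left (by norm_num)
  · rw [hx, Padic.valuation_mul two_ne_zero hu0, val2, val_zero (by push_cast; omega)]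
    norm_num

/-- **The Tamagawa number at 2**, `m ≡ 3 mod 4`. -/
theorem tam_two_odd (h4 : m % 4 = 3) : tam (Em m) 2 = 4 := by
  have hm0 : m ≠ 0 := by omega
  have hmo : ¬ (2 : ℤ) ∣ m := by omega
  have hm' : (m : ℚ_[2]) ≠ 0 := by exact_mod_cast hm0
  have hR := isRp 2 m
  have vm : (m : ℚ_[2]).valuation = 0 := val_zero (by exact_mod_cast hmo)
  have v16 : (16 * (m : ℚ_[2])).valuation = 4 := by rw [v16_2 hm0, vm]; norm_num
  have v9 : (9 * (m : ℚ_[2])).valuation = 0 := by rw [v9_2 hm0, vm]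
  have n9 : (9 * (m : ℚ_[2])) ≠ 0 := mul_ne_zero (by norm_num) hm'
  have n16 : (16 * (m : ℚ_[2])) ≠ 0 := mul_ne_zero (by norm_num) hm'
  -- the point `T0`
  set H := E0 (Em m) 2 with hH
  set T0 : PtP (Em m) 2 := Tp hm0 (Or.inl rfl) with hT0
  have hT0' : T0 = Affine.Point.some 0 0 (nonsingp hm0 (Or.inl rfl)) := rfl
  have hTT : T0 + T0 = 0 := dbl_T hR _
  have hT0n : T0 ∉ H := by
    rw [hT0', hH, mem_E0, norm_zero]
    norm_num
  obtain ⟨a, b, hA, ha0, hav⟩ := exists_A h4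
  set A : PtP (Em m) 2 := Affine.Point.some a b hA with hAd
  have hAA : A + A ∈ H := sum_A hmo hA hA ha0 ha0 hav hav
  have hAn : A ∉ H := by
    rw [hAd, hH, mem_E0, norm_half ha0 hav]
    norm_num
  have prodT : (0 - -9 * (m : ℚ_[2])) * (0 - -16 * m) = (9 * m) * (16 * m) := by ring
  have vprod : ((0 - -9 * (m : ℚ_[2])) * (0 - -16 * m)).valuation = 4 := by
    rw [prodT, Padic.valuation_mul n9 n16, v9, v16]
    norm_num
  have prod0 : (0 - -9 * (m : ℚ_[2])) * (0 - -16 * m) ≠ 0 := by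
    rw [prodT]
    exact mul_ne_zero n9 n16
  -- translation by `T0`
  have tr : ∀ (x y : ℚ_[2]) (h : ((Em m).map (Int.castRingHom ℚ_[2])).toAffine.Nonsingular x y),
      x ≠ 0 → ∃ X Y H', (Affine.Point.some x y h : PtP (Em m) 2) + T0 = Affine.Point.some X Y H' ∧
        X ≠ 0 ∧ X.valuation = 4 - x.valuation := by
    intro x y h hx
    obtain ⟨X, Y, H', e, hX⟩ := add_T hR h (nonsingp hm0 (Or.inl rfl)) hx
    refine ⟨X, Y, H', e, ?_, ?_⟩
    · rintro rfl
      rw [sub_zero, sub_zero] at hX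
      exact div_ne_zero prod0 hx hX.symm
    · rw [sub_zero, sub_zero] at hX
      rw [hX, div_eq_mul_inv, Padic.valuation_mul prod0 (inv_ne_zero hx), Padic.valuation_inv,
        vprod]
      ring
  have hAT : A + T0 ∉ H := by
    obtain ⟨X, Y, H', e, hX0, hXv⟩ := tr a b hA ha0
    rw [hAd, e, hH, mem_E0, not_le, normlt_iff hX0, hXv, hav]
    norm_num
  -- the representatives
  let T : Fin 4 → PtP (Em m) 2 := fun i =>
    if i = 0 then 0 else if i = 1 then T0 else if i = 2 then A else A + T0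
  have t0 : T 0 = 0 := rfl
  have t1 : T 1 = T0 := rfl
  have t2 : T 2 = A := rfl
  have t3 : T 3 = A + T0 := rfl
  have hdbl : ∀ i, T i + T i ∈ H := by
    intro i
    fin_cases i
    · show T 0 + T 0 ∈ H
      rw [t0, add_zero]; exact H.zero_mem
    · show T 1 + T 1 ∈ H
      rw [t1, hTT]; exact H.zero_mem
    · show T 2 + T 2 ∈ H
      rw [t2]; exact hAA
    · show T 3 + T 3 ∈ H
      rw [t3]
      have e : A + T0 + (A + T0) = (A + A) + (T0 + T0) := by abel
      rw [e, hTT, add_zero]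
      exact hAA
  refine index_of' H T hdbl ?_ ?_
  · intro P
    rcases P with _ | ⟨x, y, h⟩
    · exact ⟨0, by rw [t0]; exact H.zero_mem⟩
    by_cases hx1 : ‖x‖ < 1
    swap
    · refine ⟨0, ?_⟩
      rw [t0, add_zero, hH, mem_E0]
      exact not_lt.1 hx1
    by_cases hx0 : x = 0
    · subst hx0
      have hE := eqnp h
      have hy : y = 0 := by
        have : y ^ 2 = 0 := by rw [hE]; ring
        exact pow_eq_zero_iff two_ne_zero |>.1 this
      subst hy
      refine ⟨1, ?_⟩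
      rw [t1]
      have : (Affine.Point.some 0 0 h : PtP (Em m) 2) + T0 = 0 := dbl_T hR h
      rw [this]
      exact H.zero_mem
    have hvx : 0 < x.valuation := (normlt_iff hx0).1 hx1
    rcases lt_or_ge 3 x.valuation with c | c
    · -- near `T0`
      refine ⟨1, ?_⟩
      rw [t1]
      refine shift2 hR (by rw [norm_zero]; exact one_pos) h _ hx0 ?_
      rw [sub_zero, norm_le_iff hx0 prod0, vprod]
      omega
    · have hE := eqnp h
      have hs : IsSquare (x * (x + 9 * m) * (x + 16 * m)) := ⟨y, by rw [← hE, pow_two]⟩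
      have h2 := val_three h4 hx0 hs
      rcases (by omega : x.valuation = 1 ∨ x.valuation = 3) with c1 | c1
      · refine ⟨2, ?_⟩
        rw [t2]
        exact sum_A hmo h hA hx0 ha0 c1 hav
      · refine ⟨3, ?_⟩
        rw [t3]
        obtain ⟨X, Y, H', e, hX0, hXv⟩ := tr x y h hx0
        have e2 : (Affine.Point.some x y h : PtP (Em m) 2) + (A + T0) =
            (Affine.Point.some x y h + T0) + A := by abel
        rw [e2, e]
        exact sum_A hmo H' hA hX0 ha0 (by rw [hXv, c1]; norm_num) hav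
  · -- independence
    have key : ∀ i j, i < j → T i + T j ∉ H := by
      intro i j hij hmem
      fin_cases i <;> fin_cases j <;> try (exact absurd hij (by decide))
      · have h1 : T 0 + T 1 ∈ H := hmem
        rw [t0, t1, zero_add] at h1
        exact hT0n h1
      · have h1 : T 0 + T 2 ∈ H := hmem
        rw [t0, t2, zero_add] at h1
        exact hAn h1
      · have h1 : T 0 + T 3 ∈ H := hmem
        rw [t0, t3, zero_add] at h1
        exact hAT h1
      · have h1 : T 1 + T 2 ∈ H := hmem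
        rw [t1, t2, add_comm] at h1
        exact hAT h1
      · have h1 : T 1 + T 3 ∈ H := hmem
        rw [t1, t3] at h1
        have e : T0 + (A + T0) = A + (T0 + T0) := by abel
        rw [e, hTT, add_zero] at h1
        exact hAn h1
      · have h1 : T 2 + T 3 ∈ H := hmem
        rw [t2, t3] at h1
        have e : T0 = (A + (A + T0)) - (A + A) := by abel
        apply hT0n
        rw [e]
        exact H.sub_mem h1 hAA
    intro i j hmem
    rcases lt_trichotomy i j with h | h | h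
    · exact absurd hmem (key i j h)
    · exact h
    · rw [add_comm] at hmem
      exact absurd hmem (key j i h)

/-- **The Tamagawa number at 2**, `m ≢ 1 mod 4`. -/
theorem tam_two (hs : Squarefree m) (h4 : m % 4 ≠ 1) : tam (Em m) 2 = 4 := by
  by_cases h2 : (2 : ℤ) ∣ m
  · exact tam_two_even hs h2
  · exact tam_two_odd (by omega)

end two



end Pool.Agent.N637.P21.Tw

namespace Pool.Agent.N637.P21

open WeierstrassCurve
open Pool.Agent.Y700 (tam VR)
open Pool.Agent.N875.X15 (tam_VR)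

/-- **The Tamagawa number of `y² = x (x - 9 m) (x + 7 m)` at 2**, `m ≢ 1 mod 4`. -/
theorem tam_two {m : ℤ} (hs : Squarefree m) (h4 : m % 4 ≠ 1) : tam (Em m) 2 = 4 := by
  have h : VR ((Tw.Em m).map (Int.castRingHom ℚ_[2])) ((Em m).map (Int.castRingHom ℚ_[2])) 1
      (-9 * (m : ℚ_[2])) 0 0 := by
    refine ⟨one_ne_zero, ?_, ?_, ?_, ?_, ?_⟩ <;> simp [Em, Tw.Em] <;> ring
  have hm' : (m : ℚ_[2]) ≠ 0 := by exact_mod_cast hs.ne_zero
  have hD : ((Em m).map (Int.castRingHom ℚ_[2])).Δ ≠ 0 := by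
    rw [WeierstrassCurve.map_Δ, Em_Δ]
    show ((2 ^ 12 * 3 ^ 4 * 7 ^ 2 * m ^ 6 : ℤ) : ℚ_[2]) ≠ 0
    have : (2 ^ 12 * 3 ^ 4 * 7 ^ 2 * m ^ 6 : ℤ) ≠ 0 :=
      mul_ne_zero (by norm_num) (pow_ne_zero 6 hs.ne_zero)
    exact_mod_cast this
  rw [← Tw.tam_two hs h4]
  refine (tam_VR h hD norm_one ?_ ?_ ?_).symm
  · have := Pool.Agent.N875.X15.norm_int (p := 2) (-9 * m)
    push_cast at this
    exact this
  · rw [norm_zero]; exact zero_le_one
  · rw [norm_zero]; exact zero_le_one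

end Pool.Agent.N637.P21
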