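import Pool.Agent.N637.P21.Bsd
import Pool.Agent.N637.P21.Tam2

/-!
# `E_m : y² = x (x - 9 m) (x + 7 m)` is minimal for `m ≢ 1 mod 4`, and the product of the Tamagawa
# numbers
-/

set_option autoImplicit false
set_option linter.style.haveILetI false

namespace Pool.Agent.N637.P21

open WeierstrassCurve
open Pool.Agent.Y700 (PtP SingRed E0 tam VR)
open Pool.Agent.W97.MT (IsGloballyMinimal)

open scoped Classical in
/-- the product of the Tamagawa numbers at the primes dividing the discriminant (this is `tamProd` of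
`Pool.Agent.Y700.Fin`) -/
noncomputable def tamP (W : WeierstrassCurve ℤ) : ℕ :=
  ∏ p ∈ W.Δ.natAbs.primeFactors, if h : p.Prime then (haveI := Fact.mk h; tam W p) else 1

theorem c4_Em (m : ℤ) : (Em m).c₄ = 16 * (193 * m ^ 2) := by
  simp only [Em, WeierstrassCurve.c₄, WeierstrassCurve.b₂, WeierstrassCurve.b₄]
  ring

theorem c6_Em (m : ℤ) : (Em m).c₆ = 64 * (575 * m ^ 3) := by
  simp only [Em, WeierstrassCurve.c₆, WeierstrassCurve.b₂, WeierstrassCurve.b₄,
    WeierstrassCurve.b₆]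
  ring

lemma odd_pow_mod {k : ℤ} (hk : k % 2 = 1) : k ^ 2 % 4 = 1 := by
  have h : k % 4 = 1 ∨ k % 4 = 3 := by omega
  rw [pow_two, Int.mul_emod]
  rcases h with h | h <;> rw [h] <;> norm_num

/-- no integral equation with these invariants -/
lemma no_eqn {m k : ℤ} (h4 : m % 4 ≠ 1) (hs : Squarefree m) (hk : k % 2 = 1)
    (W : WeierstrassCurve ℤ) (e4 : W.c₄ = k ^ 4 * (193 * m ^ 2))
    (e6 : W.c₆ = k ^ 6 * (575 * m ^ 3)) : False := by
  have hk2 := odd_pow_mod hk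
  have hk4 : k ^ 4 % 4 = 1 := by
    have : k ^ 4 = k ^ 2 * k ^ 2 := by ring
    rw [this, Int.mul_emod, hk2]; norm_num
  have hk6 : k ^ 6 % 4 = 1 := by
    have : k ^ 6 = k ^ 4 * k ^ 2 := by ring
    rw [this, Int.mul_emod, hk4, hk2]; norm_num
  simp only [WeierstrassCurve.c₄, WeierstrassCurve.c₆, WeierstrassCurve.b₂, WeierstrassCurve.b₄,
    WeierstrassCurve.b₆] at e4 e6
  rcases Int.emod_two_eq_zero_or_one m with hm | hm
  · -- `m` even
    obtain ⟨t, rfl⟩ : ∃ t, m = 2 * t := ⟨m / 2, by omega⟩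
    have ht : t % 2 = 1 := by
      by_contra hcon
      have h1 := hs 2 ⟨t / 2, by omega⟩
      rw [Int.isUnit_iff] at h1
      omega
    have ht2 := odd_pow_mod ht
    have r4 : k ^ 4 * (193 * (2 * t) ^ 2) = 4 * (193 * (k ^ 4 * t ^ 2)) := by ring
    have hkt : k ^ 4 * t ^ 2 % 4 = 1 := by rw [Int.mul_emod, hk4, ht2]; norm_num
    rw [r4] at e4
    rcases Int.emod_two_eq_zero_or_one W.a₁ with ha | ha
    · obtain ⟨s, hs'⟩ : ∃ s, W.a₁ = 2 * s := ⟨W.a₁ / 2, by omega⟩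
      rw [hs'] at e4
      have l4 : ((2 * s) ^ 2 + 4 * W.a₂) ^ 2 - 24 * (2 * W.a₄ + 2 * s * W.a₃) =
          16 * ((s ^ 2 + W.a₂) ^ 2 - 3 * (W.a₄ + s * W.a₃)) := by ring
      rw [l4] at e4
      omega
    · have h1 := odd_pow_mod ha
      have h2 : (W.a₁ ^ 2) ^ 2 % 4 = 1 := odd_pow_mod (by omega)
      have l4 : (W.a₁ ^ 2 + 4 * W.a₂) ^ 2 - 24 * (2 * W.a₄ + W.a₁ * W.a₃) =
          (W.a₁ ^ 2) ^ 2 + 4 * (2 * W.a₁ ^ 2 * W.a₂ + 4 * W.a₂ ^ 2 -
            6 * (2 * W.a₄ + W.a₁ * W.a₃)) := by ring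
      rw [l4] at e4
      omega
  · have hm4 : m % 4 = 3 := by omega
    have hm2 := odd_pow_mod hm
    have hm3 : m ^ 3 % 4 = 3 := by
      have : m ^ 3 = m ^ 2 * m := by ring
      rw [this, Int.mul_emod, hm2, hm4]; norm_num
    have h46 : k ^ 6 * (575 * m ^ 3) % 4 = 1 := by
      have e : k ^ 6 * (575 * m ^ 3) = 575 * (k ^ 6 * m ^ 3) := by ring
      have e' : k ^ 6 * m ^ 3 % 4 = 3 := by rw [Int.mul_emod, hk6, hm3]; norm_num
      rw [e]
      omega
    have h44 : k ^ 4 * (193 * m ^ 2) % 2 = 1 := by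
      have e : k ^ 4 * (193 * m ^ 2) = 193 * (k ^ 4 * m ^ 2) := by ring
      have e' : k ^ 4 * m ^ 2 % 4 = 1 := by rw [Int.mul_emod, hk4, hm2]; norm_num
      rw [e]
      omega
    rcases Int.emod_two_eq_zero_or_one W.a₁ with ha | ha
    · obtain ⟨s, hs'⟩ : ∃ s, W.a₁ = 2 * s := ⟨W.a₁ / 2, by omega⟩
      rw [hs'] at e4
      have l4 : ((2 * s) ^ 2 + 4 * W.a₂) ^ 2 - 24 * (2 * W.a₄ + 2 * s * W.a₃) =
          16 * ((s ^ 2 + W.a₂) ^ 2 - 3 * (W.a₄ + s * W.a₃)) := by ring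
      rw [l4] at e4
      omega
    · have h1 := odd_pow_mod ha
      have hb : (W.a₁ ^ 2 + 4 * W.a₂) % 4 = 1 := by omega
      have hb3 : (W.a₁ ^ 2 + 4 * W.a₂) ^ 3 % 4 = 1 := by
        have e : (W.a₁ ^ 2 + 4 * W.a₂) ^ 3 = (W.a₁ ^ 2 + 4 * W.a₂) ^ 2 * (W.a₁ ^ 2 + 4 * W.a₂) := by
          ring
        rw [e, Int.mul_emod, odd_pow_mod (by omega), hb]; norm_num
      have l6 : -(W.a₁ ^ 2 + 4 * W.a₂) ^ 3 + 36 * (W.a₁ ^ 2 + 4 * W.a₂) * (2 * W.a₄ + W.a₁ * W.a₃) -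
          216 * (W.a₃ ^ 2 + 4 * W.a₆) = -(W.a₁ ^ 2 + 4 * W.a₂) ^ 3 +
            4 * (9 * (W.a₁ ^ 2 + 4 * W.a₂) * (2 * W.a₄ + W.a₁ * W.a₃) -
              54 * (W.a₃ ^ 2 + 4 * W.a₆)) := by ring
      rw [l6] at e6
      omega

/-- **`E_m` is minimal**, `m ≢ 1 mod 4`. -/
theorem min_Em {m : ℤ} (h4 : m % 4 ≠ 1) (hs : Squarefree m) : IsGloballyMinimal (Em m) := by
  have hΔ := Em_Δ m
  have hM0 : m ≠ 0 := hs.ne_zero
  refine ⟨?_, ?_⟩
  · rw [hΔ]
    exact mul_ne_zero (by norm_num) (pow_ne_zero _ hM0)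
  · intro W' C h
    have h1 := congrArg WeierstrassCurve.Δ h
    rw [WeierstrassCurve.variableChange_Δ, WeierstrassCurve.map_Δ, WeierstrassCurve.map_Δ] at h1
    have h1c := congrArg WeierstrassCurve.c₄ h
    rw [WeierstrassCurve.variableChange_c₄, WeierstrassCurve.map_c₄, WeierstrassCurve.map_c₄] at h1c
    have h1d := congrArg WeierstrassCurve.c₆ h
    rw [WeierstrassCurve.variableChange_c₆, WeierstrassCurve.map_c₆, WeierstrassCurve.map_c₆] at h1d
    simp only [eq_intCast] at h1 h1c h1d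
    obtain ⟨q, hq⟩ : ∃ q : ℚ, q = ((C.u⁻¹ : ℚˣ) : ℚ) := ⟨_, rfl⟩
    rw [← hq] at h1 h1c h1d
    have hq0 : q ≠ 0 := by rw [hq]; exact Units.ne_zero _
    have hnd : q * q.den = q.num := Rat.mul_den_eq_num q
    have h2 : (q.num : ℚ) ^ 12 * ((Em m).Δ : ℚ) = (W'.Δ : ℚ) * (q.den : ℚ) ^ 12 := by
      rw [← h1, ← hnd]
      ring
    have h2c : (q.num : ℚ) ^ 4 * ((Em m).c₄ : ℚ) = (W'.c₄ : ℚ) * (q.den : ℚ) ^ 4 := by
      rw [← h1c, ← hnd]
      ring
    have h2d : (q.num : ℚ) ^ 6 * ((Em m).c₆ : ℚ) = (W'.c₆ : ℚ) * (q.den : ℚ) ^ 6 := by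
      rw [← h1d, ← hnd]
      ring
    have h3 : q.num ^ 12 * (Em m).Δ = W'.Δ * (q.den : ℤ) ^ 12 := by exact_mod_cast h2
    have h3c : q.num ^ 4 * (Em m).c₄ = W'.c₄ * (q.den : ℤ) ^ 4 := by exact_mod_cast h2c
    have h3d : q.num ^ 6 * (Em m).c₆ = W'.c₆ * (q.den : ℤ) ^ 6 := by exact_mod_cast h2d
    have hcop0 : IsCoprime ((q.den : ℤ)) (q.num) := by
      rw [Int.isCoprime_iff_gcd_eq_one, Int.gcd_comm]
      exact q.reduced
    have hcop : IsCoprime ((q.den : ℤ) ^ 12) (q.num ^ 12) := IsCoprime.pow hcop0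
    have h5 : (q.den : ℤ) ^ 12 ∣ (Em m).Δ :=
      hcop.dvd_of_dvd_mul_left ⟨W'.Δ, by rw [h3]; ring⟩
    have e12 : (2 : ℤ) ^ 12 * 3 ^ 4 * 7 ^ 2 * m ^ 6 = 2 ^ 12 * (3 ^ 4 * 7 ^ 2 * m ^ 6) := by ring
    rw [hΔ, e12] at h5
    -- odd prime factors
    have hodd : ∀ r : ℕ, r.Prime → r ≠ 2 → ¬ r ∣ q.den := by
      intro r hr hr2 hrd
      refine prime_pow_dvd hr hs ?_
      have h6 : ((r : ℤ)) ^ 12 ∣ 2 ^ 12 * (3 ^ 4 * 7 ^ 2 * m ^ 6) :=
        (pow_dvd_pow_of_dvd (by exact_mod_cast hrd) 12).trans h5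
      have h7 : IsCoprime ((r : ℤ) ^ 12) ((2 : ℤ) ^ 12) := by
        refine IsCoprime.pow ?_
        rw [show (2 : ℤ) = ((2 : ℕ) : ℤ) by norm_num, Nat.isCoprime_iff_coprime]
        exact (Nat.coprime_primes hr Nat.prime_two).2 hr2
      exact h7.dvd_of_dvd_mul_left h6
    have h4d : ¬ 4 ∣ q.den := by
      intro h
      refine prime_pow_dvd Nat.prime_two hs ?_
      have h6 : ((4 : ℤ)) ^ 12 ∣ 2 ^ 12 * (3 ^ 4 * 7 ^ 2 * m ^ 6) :=
        (pow_dvd_pow_of_dvd (by exact_mod_cast h) 12).trans h5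
      have e4 : (4 : ℤ) ^ 12 = 2 ^ 12 * 2 ^ 12 := by norm_num
      rw [e4] at h6
      have h7 := Int.dvd_of_mul_dvd_mul_left (by norm_num : (2 : ℤ) ^ 12 ≠ 0) h6
      exact_mod_cast h7
    have h8 : q.den = 1 := by
      by_contra hne
      have h2d' : 2 ∣ q.den := by
        obtain ⟨r, hr, hrd⟩ := Nat.exists_prime_and_dvd hne
        by_cases hr2 : r = 2
        · rwa [hr2] at hrd
        · exact absurd hrd (hodd r hr hr2)
      obtain ⟨e, he⟩ := h2d'
      have he1 : e = 1 := by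
        by_contra hne1
        obtain ⟨r, hr, hrd⟩ := Nat.exists_prime_and_dvd hne1
        by_cases hr2 : r = 2
        · apply h4d
          obtain ⟨f, hf⟩ := hrd
          exact ⟨f, by rw [he, hf, hr2]; ring⟩
        · exact hodd r hr hr2 (by rw [he]; exact hrd.mul_left 2)
      have hd2 : q.den = 2 := by rw [he, he1]
      have hno : q.num % 2 = 1 := by
        by_contra hcon
        have h9 : (2 : ℤ) ∣ q.num := by omega
        have h10 : (2 : ℤ) ∣ (q.den : ℤ) := by rw [hd2]; norm_num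
        have h11 := hcop0.isUnit_of_dvd' h10 h9
        rw [Int.isUnit_iff] at h11
        omega
      refine no_eqn h4 hs hno W' ?_ ?_
      · rw [hd2, c4_Em] at h3c
        push_cast at h3c
        linarith
      · rw [hd2, c6_Em] at h3d
        push_cast at h3d
        linarith
    rw [h8] at h3
    have h9 : W'.Δ = q.num ^ 12 * (Em m).Δ := by rw [h3]; simp
    rw [h9, abs_mul]
    have h10 : 1 ≤ |q.num ^ 12| := by
      apply Int.one_le_abs
      exact pow_ne_zero _ (Rat.num_ne_zero.2 hq0)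
    nlinarith [abs_nonneg (Em m).Δ]

/-! ### The product of the Tamagawa numbers -/

/-- the prime factors of the discriminant of the minimal equation, even discriminants -/
theorem pf_E {m : ℕ} (hm : m ≠ 0) :
    (Em (-(m : ℤ))).Δ.natAbs.primeFactors = insert 3 (insert 7 (4 * m).primeFactors) := by
  have e : (Em (-(m : ℤ))).Δ.natAbs = 3 ^ 4 * 7 ^ 2 * (2 ^ 12 * m ^ 6) := by
    rw [Em_Δ, Int.natAbs_mul, Int.natAbs_pow, Int.natAbs_neg, Int.natAbs_natCast]
    norm_num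
    ring
  have h4 : (4 : ℕ).primeFactors = {2} := by
    rw [show (4 : ℕ) = 2 ^ 2 by norm_num, Nat.primeFactors_pow _ (by norm_num),
      Nat.Prime.primeFactors Nat.prime_two]
  rw [e, Nat.primeFactors_mul (by norm_num) (mul_ne_zero (by norm_num) (pow_ne_zero _ hm)),
    Nat.primeFactors_mul (by norm_num) (by norm_num), Nat.primeFactors_pow _ (by norm_num),
    Nat.primeFactors_pow _ (by norm_num),
    Nat.primeFactors_mul (by norm_num) (pow_ne_zero _ hm), Nat.primeFactors_pow _ (by norm_num),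
    Nat.primeFactors_pow _ (by norm_num),
    Nat.Prime.primeFactors Nat.prime_three, Nat.Prime.primeFactors (by norm_num : Nat.Prime 7),
    Nat.Prime.primeFactors Nat.prime_two, Nat.primeFactors_mul (by norm_num) hm, h4,
    Finset.insert_eq, Finset.insert_eq, Finset.union_assoc]

/-- the contribution of a prime `p = 3, 7` not dividing `n` -/
def t2 (p n : ℕ) : ℕ := if p ∣ n then 1 else 2

/-- the product over the prime factors, from the local values -/
lemma prod_tam (n : ℕ) (hn : n ≠ 0) (f : ℕ → ℕ) (h4 : ∀ p ∈ n.primeFactors, f p = 4)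
    (h3 : ¬ 3 ∣ n → f 3 = 2) (h5 : ¬ 7 ∣ n → f 7 = 2) :
    ∏ p ∈ insert 3 (insert 7 n.primeFactors), f p = 4 ^ n.primeFactors.card * (t2 3 n * t2 7 n) := by
  have p7 : Nat.Prime 7 := by norm_num
  have m3 : 3 ∈ n.primeFactors ↔ 3 ∣ n := by
    rw [Nat.mem_primeFactors]
    exact ⟨fun h => h.2.1, fun h => ⟨Nat.prime_three, h, hn⟩⟩
  have m5 : 7 ∈ n.primeFactors ↔ 7 ∣ n := by
    rw [Nat.mem_primeFactors]
    exact ⟨fun h => h.2.1, fun h => ⟨p7, h, hn⟩⟩
  have hp : ∏ p ∈ n.primeFactors, f p = 4 ^ n.primeFactors.card := by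
    rw [Finset.prod_congr rfl h4, Finset.prod_const]
  have h5' : ∏ p ∈ insert 7 n.primeFactors, f p = 4 ^ n.primeFactors.card * t2 7 n := by
    unfold t2
    by_cases h : 7 ∣ n
    · rw [if_pos h, Finset.insert_eq_of_mem (m5.2 h), hp, mul_one]
    · rw [if_neg h, Finset.prod_insert (fun h' => h (m5.1 h')), hp, h5 h]
      ring
  by_cases h : 3 ∣ n
  · rw [Finset.insert_eq_of_mem (Finset.mem_insert_of_mem (m3.2 h)), h5']
    unfold t2
    rw [if_pos h]
    ring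
  · rw [Finset.prod_insert, h5', h3 h]
    · unfold t2
      rw [if_neg h]
      ring
    · intro h'
      rcases Finset.mem_insert.1 h' with h' | h'
      · norm_num at h'
      · exact h (m3.1 h')

/-- **The product of the Tamagawa numbers**, odd discriminants. -/
theorem tamP_N {n : ℕ} (h : Ao n) :
    tamP (WN (-(n : ℤ))) = 4 ^ n.primeFactors.card * (t2 3 n * t2 7 n) := by
  obtain ⟨hs, h4, h3, h5⟩ := h
  have m4 : (-(n : ℤ)) % 4 = 1 := by omega
  have hsm : Squarefree (-(n : ℤ)) := by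
    intro x hx
    rw [dvd_neg] at hx
    exact Int.squarefree_natCast.2 hs x hx
  have p7 : Nat.Prime 7 := by norm_num
  unfold tamP
  rw [pf_Δ h4]
  refine prod_tam n hs.ne_zero _ ?_ ?_ ?_
  · intro p hp
    obtain ⟨h1, h2, -⟩ := Nat.mem_primeFactors.1 hp
    rw [dif_pos h1]
    haveI := Fact.mk h1
    exact tam_WN_ram m4 hsm (by rw [dvd_neg]; exact_mod_cast h2)
  · intro h
    rw [dif_pos Nat.prime_three]
    exact tam_WN_three m4 (by omega)
  · intro h
    rw [dif_pos p7]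
    haveI := Fact.mk p7
    exact tam_WN_seven m4 (by omega)

/-- **The product of the Tamagawa numbers**, even discriminants. -/
theorem tamP_E {n : ℕ} (h : Ae n) :
    tamP (Em (-((n / 4 : ℕ) : ℤ))) = 4 ^ n.primeFactors.card * (t2 3 n * t2 7 n) := by
  have hcl := cls_ae h
  obtain ⟨⟨m, rfl, hs, h4⟩, h3, h5⟩ := h
  have e4 : 4 * m / 4 = m := by omega
  rw [e4] at hcl ⊢
  have hm0 := hs.ne_zero
  have m4 : (-(m : ℤ)) % 4 ≠ 1 := by omega
  have p7 : Nat.Prime 7 := by norm_num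
  unfold tamP
  rw [pf_E hm0]
  refine prod_tam (4 * m) (by omega) _ ?_ ?_ ?_
  · intro p hp
    obtain ⟨h1, h2, -⟩ := Nat.mem_primeFactors.1 hp
    rw [dif_pos h1]
    haveI := Fact.mk h1
    by_cases hp2 : p = 2
    · subst hp2
      exact tam_two hcl.sqf m4
    · refine tam_ram hp2 hcl.sqf ?_
      rw [dvd_neg]
      rcases h1.dvd_mul.1 h2 with h5 | h5
      · have h6 : p ∣ 2 ^ 2 := by simpa using h5
        exact absurd ((Nat.prime_dvd_prime_iff_eq h1 Nat.prime_two).1 (h1.dvd_of_dvd_pow h6)) hp2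
      · exact_mod_cast h5
  · intro h
    rw [dif_pos Nat.prime_three]
    exact tam_three (by omega)
  · intro h
    rw [dif_pos p7]
    haveI := Fact.mk p7
    exact tam_seven (by omega)

end Pool.Agent.N637.P21
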