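import Pool.Agent.N637.P21.Two

/-!
# The 2-Selmer group of `y² = x (x - 9 m) (x + 7 m)`: upper bound
-/

set_option autoImplicit false

namespace Pool.Agent.N637.P21

open Pool.Agent.TH841.SH (LocC SelG)
open Pool.Agent.N875.X15 (sq_cancel not_dvd_of_even Ram RC NC val_zero even_val sq_of_mod8)

/-- the sign -/
lemma loc_sign {m d1 d2 : ℤ} (hm : m < 0) (hd2 : d2 ≠ 0)
    (h : LocC ℝ 0 (9 * m) (-7 * m) d1 d2) : 0 < d2 := by
  obtain ⟨u, hu, hv, hw, hs, h1, h2⟩ := locC_iff h
  have hm' : (m : ℝ) < 0 := by exact_mod_cast hm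
  have k2 : 0 ≤ (u - 9 * m) * d2 := by
    obtain ⟨r, hr⟩ := h2
    rw [hr]
    exact mul_self_nonneg r
  have k3 : 0 < u * (u - 9 * m) * (u + 7 * m) := by
    obtain ⟨r, hr⟩ := hs
    refine lt_of_le_of_ne ?_ (mul_ne_zero (mul_ne_zero hu hv) hw).symm
    rw [hr]
    exact mul_self_nonneg r
  have c3 : 0 < u - 9 * m := by
    by_contra hcon
    have c4 : u - 9 * (m : ℝ) < 0 := lt_of_le_of_ne (not_lt.1 hcon) hv
    have c5 : u < 0 := by linarith
    have c6 : u + 7 * (m : ℝ) < 0 := by linarith
    have c7 : 0 < u * (u - 9 * m) := mul_pos_of_neg_of_neg c5 c4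
    have c8 : u * (u - 9 * m) * (u + 7 * m) < 0 := mul_neg_of_pos_of_neg c7 c6
    linarith
  by_contra hcon
  have h3 : (d2 : ℝ) < 0 := by
    have : d2 < 0 := by omega
    exact_mod_cast this
  have := mul_neg_of_pos_of_neg c3 h3
  linarith

/-- the squarefree part of `-7 d` -/
lemma sqf7 {d : ℤ} (hd : Squarefree d) : ∃ e s : ℤ, Squarefree e ∧ -7 * d = e * s ^ 2 ∧
    ((s = 7 ∧ (7 : ℤ) ∣ d ∧ ¬ (7 : ℤ) ∣ e) ∨ (s = 1 ∧ ¬ (7 : ℤ) ∣ d ∧ (7 : ℤ) ∣ e)) := by
  have hp7 : Prime (7 : ℤ) := by norm_num
  by_cases h7 : (7 : ℤ) ∣ d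
  · obtain ⟨k, hk⟩ := h7
    have sk : Squarefree (-k) := by
      intro x hx
      rw [dvd_neg] at hx
      exact hd x (by rw [hk]; exact hx.mul_left 7)
    refine ⟨-k, 7, sk, by rw [hk]; ring, Or.inl ⟨rfl, ⟨k, hk⟩, ?_⟩⟩
    rintro ⟨j, hj⟩
    have h1 := hd 7 ⟨-j, by rw [hk]; linarith⟩
    rw [Int.isUnit_iff] at h1
    omega
  · refine ⟨-7 * d, 1, ?_, by ring, Or.inr ⟨rfl, h7, ⟨-d, by ring⟩⟩⟩
    have h1 : Squarefree (7 * d) := by
      rw [squarefree_mul_iff]
      exact ⟨hp7.irreducible.isRelPrime_iff_not_dvd.2 h7, hp7.squarefree, hd⟩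
    intro x hx
    exact h1 x (by
      have e : -7 * d = -(7 * d) := by ring
      rwa [e, dvd_neg] at hx)

/-- the first coordinate of the fourth class -/
def c7 (m : ℤ) : ℤ := if (7 : ℤ) ∣ m then -(m / 7) else -7 * m

lemma sq8 {n : ℤ} (hn : n % 8 = 1) : IsSquare (n : ℚ_[2]) := by
  have h1 : PadicInt.toZModPow (p := 2) 3 (n : ℤ_[2]) = 1 := by
    rw [map_intCast]
    have h2 : ((8 : ℕ) : ℤ) ∣ n - 1 := by push_cast; omega
    have h3 := (ZMod.intCast_zmod_eq_zero_iff_dvd (n - 1) 8).2 h2
    push_cast at h3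
    exact sub_eq_zero.1 h3
  have h2 := sq_of_mod8 _ h1
  simpa using h2

lemma sq_neg7 : IsSquare ((-7 : ℤ) : ℚ_[2]) := sq8 (by norm_num)

/-- **The 2-Selmer group.** -/
theorem sel_sub {m : ℤ} (hm : Cls m) (hR : RC m) (hN : NC m) {d1 d2 : ℤ}
    (h : (d1, d2) ∈ SelG 0 (9 * m) (-7 * m)) :
    (d1, d2) ∈ ({(1, 1), (m, 1), (-7, -m), (c7 m, -m)} : Set (ℤ × ℤ)) := by
  obtain ⟨s1, s2, hR', hp⟩ := h
  simp only at s1 s2 hR' hp
  have hm0 : m ≠ 0 := hm.neg.ne
  have hsg := loc_sign hm.neg s2.ne_zero hR'
  -- the support of the coordinates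
  have supp : ∀ p : ℕ, p.Prime → p ≠ 7 →
      ((p : ℤ) ∣ d1 → Ram m p) ∧ ((p : ℤ) ∣ d2 → Ram m p) := by
    intro p hpp hp7
    have : Fact p.Prime := ⟨hpp⟩
    by_cases hpm : (p : ℤ) ∣ m
    · exact ⟨fun _ => Or.inl hpm, fun _ => Or.inl hpm⟩
    by_cases hp2 : p = 2
    · subst hp2
      by_cases hm4 : m % 4 = 1
      · obtain ⟨h1, h2⟩ := loc_two_odd hm hm4 s1 s2 (hp 2)
        constructor
        · intro h3
          have : (2 : ℤ) ∣ d1 := by exact_mod_cast h3
          omega
        · intro h3
          exact absurd (by exact_mod_cast h3) h2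
      · exact ⟨fun _ => Or.inr ⟨rfl, hm4⟩, fun _ => Or.inr ⟨rfl, hm4⟩⟩
    · obtain ⟨h1, h2⟩ := loc_ndvd hp2 hp7 hm hpm s1 s2 (hp p)
      exact ⟨fun h => absurd h h1, fun h => absurd h h2⟩
  have supp7 : ¬ (7 : ℤ) ∣ m → ¬ (7 : ℤ) ∣ d2 ∧
      ((d2 % 7 = 1 ∨ d2 % 7 = 2 ∨ d2 % 7 = 4) ∧ ¬ (7 : ℤ) ∣ d1 ∨
      (d2 % 7 = 3 ∨ d2 % 7 = 5 ∨ d2 % 7 = 6) ∧ (7 : ℤ) ∣ d1) := fun h =>
    loc_seven' (by have := hm.m7; omega) s1 s2 (hp 7)
  have at2 : Ram m 2 → IsSquare (d1 : ℚ_[2]) ∨ IsSquare ((d1 : ℚ_[2]) * m) := by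
    intro hram
    rcases loc_two hm s1 (hp 2) with h1 | h1
    · exact h1
    · exfalso
      rcases hram with h2 | ⟨-, h2⟩
      · have : (2 : ℤ) ∣ m := by exact_mod_cast h2
        omega
      · omega
  have hnm : ∀ (p : ℕ) [Fact p.Prime], (p : ℤ) ∣ m → ¬ IsSquare (((-m : ℤ)) : ℚ_[p]) := by
    intro p hpp hpm hsq
    have h1 : IsSquare ((1 : ℚ_[p]) * ((-m : ℤ))) := by rwa [one_mul]
    exact not_dvd_of_even one_ne_zero (by rw [Padic.valuation_one]; exact Even.zero)
      (fun x hx => hm.sqf x (by rwa [dvd_neg] at hx)) h1 (by rwa [dvd_neg])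
  -- the second coordinate
  have hd2 : d2 = 1 ∨ d2 = -m := by
    refine hN d2 hsg s2 (fun p hpp hpd => ?_) ?_
    · by_cases hp7 : p = 7
      · subst hp7
        left
        by_contra h7
        exact (supp7 (by exact_mod_cast h7)).1 (by exact_mod_cast hpd)
      · exact (supp p hpp hp7).2 hpd
    · intro p hpp hp2 hpm
      rcases loc_dvd hp2 hm.sqf hpm (hp p) with h | h | h | h
      · exact Or.inl h.2
      · exact Or.inr h.2
      · exact Or.inl h.2
      · exact Or.inr h.2
  rcases hd2 with rfl | rfl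
  · -- `d2 = 1`
    have h1 : d1 = 1 ∨ d1 = m := by
      refine hR d1 s1 (fun p hpp hpd => ?_) (fun h4 => (loc_two_odd hm h4 s1 s2 (hp 2)).1) ?_
      · by_cases hp7 : p = 7
        · subst hp7
          left
          by_contra h7
          rcases (supp7 (by exact_mod_cast h7)).2 with h8 | h8
          · exact h8.2 (by exact_mod_cast hpd)
          · have := h8.1
            omega
        · exact (supp p hpp hp7).1 hpd
      · intro p hpp hram
        by_cases hp2 : p = 2
        · subst hp2
          exact at2 hram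
        · have hpm : (p : ℤ) ∣ m := by
            rcases hram with h | h
            · exact h
            · exact absurd h.1 hp2
          have e1 : ((1 : ℤ) : ℚ_[p]) * (-m) = ((-m : ℤ) : ℚ_[p]) := by push_cast; ring
          have h9 := hnm p hpm
          rcases loc_dvd hp2 hm.sqf hpm (hp p) with h | h | h | h
          · exact Or.inl h.1
          · rw [e1] at h
            exact absurd h.2 h9
          · exact Or.inr h.1
          · rw [e1] at h
            exact absurd h.2 h9
    rcases h1 with rfl | rfl <;> simp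
  · -- `d2 = -m`
    obtain ⟨e, s, se, hes, hs7⟩ := sqf7 s1
    have hs0 : s ≠ 0 := by
      rcases hs7 with h | h
      · rw [h.1]; norm_num
      · rw [h.1]; norm_num
    have h1 : e = 1 ∨ e = m := by
      refine hR e se (fun p hpp hpd => ?_) (fun h4 => ?_) ?_
      · by_cases hp7 : p = 7
        · subst hp7
          left
          by_contra h7
          have h7' : ¬ (7 : ℤ) ∣ m := by exact_mod_cast h7
          rcases hs7 with h8 | h8
          · exact h8.2.2 (by exact_mod_cast hpd)
          · rcases (supp7 h7').2 with h9 | h9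
            · have := h9.1
              have := hm.m7
              omega
            · exact h8.2.1 h9.2
        · have hpr : Prime (p : ℤ) := Nat.prime_iff_prime_int.1 hpp
          have h8 : (p : ℤ) ∣ -7 * d1 := by rw [hes]; exact hpd.mul_right _
          rcases hpr.dvd_or_dvd h8 with h9 | h9
          · exfalso
            rw [dvd_neg] at h9
            have h10 : p ∣ 7 := by exact_mod_cast h9
            exact hp7 ((Nat.prime_dvd_prime_iff_eq hpp (by norm_num)).1 h10)
          · exact (supp p hpp hp7).1 h9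
      · have h5 := (loc_two_odd hm h4 s1 s2 (hp 2)).1
        rcases hs7 with h | h
        · rw [h.1] at hes
          omega
        · rw [h.1] at hes
          omega
      · intro p hpp hram
        have hsp : (s : ℚ_[p]) ≠ 0 := by exact_mod_cast hs0
        have hes' : -7 * (d1 : ℚ_[p]) = e * (s * s) := by
          have := congrArg (Int.cast : ℤ → ℚ_[p]) hes
          push_cast at this
          rw [this]
          ring
        have fin1 : IsSquare (-7 * (d1 : ℚ_[p])) → IsSquare (e : ℚ_[p]) := by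
          intro h
          rw [hes', mul_comm] at h
          exact sq_cancel (mul_ne_zero hsp hsp) (IsSquare.mul_self _) h
        have fin2 : IsSquare (-7 * (d1 : ℚ_[p]) * m) → IsSquare ((e : ℚ_[p]) * m) := by
          intro h
          have e' : -7 * (d1 : ℚ_[p]) * m = (s * s) * (e * m) := by rw [hes']; ring
          rw [e'] at h
          exact sq_cancel (mul_ne_zero hsp hsp) (IsSquare.mul_self _) h
        by_cases hp2 : p = 2
        · subst hp2
          have h7 := sq_neg7
          push_cast at h7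
          rcases at2 hram with h | h
          · left
            exact fin1 (h7.mul h)
          · right
            refine fin2 ?_
            rw [mul_assoc]
            exact h7.mul h
        · have hpm : (p : ℤ) ∣ m := by
            rcases hram with h | h
            · exact h
            · exact absurd h.1 hp2
          have h9 := hnm p hpm
          rcases loc_dvd hp2 hm.sqf hpm (hp p) with h | h | h | h
          · exact absurd h.2 h9
          · left
            refine fin1 ?_
            rw [mul_comm]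
            exact h.1
          · exact absurd h.2 h9
          · right
            refine fin2 ?_
            have e' : -7 * (d1 : ℚ_[p]) * m = d1 * (-7 * m) := by ring
            rw [e']
            exact h.1
    rcases h1 with h1 | h1
    · rcases hs7 with h | h
      · have : d1 = -7 := by
          rw [h1, h.1] at hes
          omega
        rw [this]
        simp
      · exfalso
        rw [h1, h.1] at hes
        omega
    · rcases hs7 with h | h
      · have h8 : ¬ (7 : ℤ) ∣ m := by rw [← h1]; exact h.2.2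
        have : d1 = c7 m := by
          unfold c7
          rw [if_neg h8]
          rw [h1, h.1] at hes
          omega
        rw [this]
        simp
      · have h8 : (7 : ℤ) ∣ m := by rw [← h1]; exact h.2.2
        have : d1 = c7 m := by
          unfold c7
          rw [if_pos h8]
          rw [h1, h.1] at hes
          omega
        rw [this]
        simp

theorem sel_finite {m : ℤ} (hm : Cls m) (hR : RC m) (hN : NC m) :
    (SelG 0 (9 * m) (-7 * m)).Finite ∧ (SelG 0 (9 * m) (-7 * m)).ncard ≤ 4 := by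
  have hsub : SelG 0 (9 * m) (-7 * m) ⊆
      ((({(1, 1), (m, 1), (-7, -m), (c7 m, -m)} : Finset (ℤ × ℤ))) : Set (ℤ × ℤ)) := by
    rintro ⟨d1, d2⟩ h
    have := sel_sub hm hR hN h
    simpa using this
  refine ⟨(Finset.finite_toSet _).subset hsub, ?_⟩
  refine (Set.ncard_le_ncard hsub (Finset.finite_toSet _)).trans ?_
  rw [Set.ncard_coe_finset]
  exact Finset.card_le_four

end Pool.Agent.N637.P21
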