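import Pool.Agent.N637.P21.Loc
import Pool.Agent.N875.X15.Sel

/-!
# Local conditions at the prime 2 for the curves `y² = x (x - 9 m) (x + 7 m)`

In terms of the coordinate `v = x - 9 m` the equation is `y² = v (v + 9 m) (v + 16 m)`.
-/

set_option autoImplicit false

namespace Pool.Agent.N637.P21

open Pool.Agent.TH841.SH (LocC SelG)
open Pool.Agent.Y667.RP (mod_of_sq)
open Pool.Agent.N875.X15 (norm_lt_iff norm_le_iff norm_eq_iff close closeV val_add_ge even_val
  sq_cancel sq_trans loc_ram loc_unr close2 sq_of_mod8 unit_part unit_odd int_of_sq val_add_eq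
  val_zero val_p val_one not_dvd_of_even val_mul_unit not_dvd_of_prime sq_mod3 drop to_coord
  mod8_int odd_of_sq)

lemma v2 : ((2 : ℚ_[2])).valuation = 1 := by
  have : (2 : ℚ_[2]) = ((2 : ℕ) : ℚ_[2]) := by norm_num
  rw [this, Padic.valuation_p]

lemma v16two {m : ℤ} (hm : m ≠ 0) :
    (16 * (m : ℚ_[2])).valuation = 4 + (m : ℚ_[2]).valuation := by
  have hm' : (m : ℚ_[2]) ≠ 0 := by exact_mod_cast hm
  rw [Padic.valuation_mul (by norm_num) hm']
  congr 1
  have : (16 : ℚ_[2]) = 2 ^ 4 := by norm_num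
  rw [this, Padic.valuation_pow, v2]
  norm_num

/-- **The isolated coordinate at 2.** -/
theorem two_iso {m : ℤ} (hm : m ≠ 0) {v : ℚ_[2]} (hv : v ≠ 0)
    (hu : v + 9 * m ≠ 0) (hw : v + 16 * m ≠ 0)
    (hs : IsSquare (v * (v + 9 * m) * (v + 16 * m))) :
    IsSquare (v + 9 * m) ∨ IsSquare ((v + 9 * m) * m) ∨
      (IsSquare ((v + 9 * m) * (5 * m)) ∧ IsSquare (m : ℚ_[2])) := by
  have hm' : (m : ℚ_[2]) ≠ 0 := by exact_mod_cast hm
  have v16 := v16two hm
  have v9 : (9 * (m : ℚ_[2])).valuation = (m : ℚ_[2]).valuation := val9 (by norm_num) hm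
  rcases le_or_gt (v.valuation + 3) (4 + (m : ℚ_[2]).valuation) with c1 | c1
  · left
    have h1 := (close2 hw hv (by
      rw [add_sub_cancel_left]
      exact mul_ne_zero (by norm_num) hm') (by
      rw [add_sub_cancel_left, v16]
      exact c1)).1
    have e : v * (v + 9 * m) * (v + 16 * m) = ((v + 16 * m) * v) * (v + 9 * m) := by ring
    rw [e] at hs
    exact sq_cancel (mul_ne_zero hw hv) h1 hs
  · rcases le_or_gt ((m : ℚ_[2]).valuation + 3) v.valuation with c2 | c2
    · right; left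
      have h9 : (9 * (m : ℚ_[2])) ≠ 0 := mul_ne_zero (by norm_num) hm'
      have h1 := (close2 hu h9 (by
        rw [add_sub_cancel_right]
        exact hv) (by
        rw [add_sub_cancel_right, v9]
        exact c2)).1
      obtain ⟨r, hr⟩ := h1
      refine ⟨r / 3, ?_⟩
      have : r / 3 * (r / 3) = r * r / 9 := by ring
      rw [this, ← hr]
      ring
    · right; right
      have c3 : v.valuation = (m : ℚ_[2]).valuation + 2 := by omega
      have h4 : (v / (4 * m)).valuation = 0 := by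
        rw [div_eq_mul_inv, Padic.valuation_mul hv (inv_ne_zero (mul_ne_zero (by norm_num) hm')),
          Padic.valuation_inv, Padic.valuation_mul (by norm_num) hm', c3]
        have : (4 : ℚ_[2]) = 2 ^ 2 := by norm_num
        rw [this, Padic.valuation_pow, v2]
        push_cast
        ring
      obtain ⟨s, hs1, hs2⟩ := unit_part (div_ne_zero hv (mul_ne_zero (by norm_num : (4 : ℚ_[2]) ≠ 0)
        hm'))
      rw [h4, zpow_zero, one_mul] at hs2
      have hv' : v = 4 * m * s := by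
        rw [← hs2]
        field_simp
      have hodd := unit_odd hs1
      have e4 : PadicInt.toZModPow (p := 2) 3 4 = 4 := map_ofNat (PadicInt.toZModPow (p := 2) 3) 4
      have e9 : PadicInt.toZModPow (p := 2) 3 9 = 9 := map_ofNat (PadicInt.toZModPow (p := 2) 3) 9
      have e5 : PadicInt.toZModPow (p := 2) 3 5 = 5 := map_ofNat (PadicInt.toZModPow (p := 2) 3) 5
      have k1 : PadicInt.toZModPow 3 (s * (4 * s + 9) * (s + 4)) = 1 := by
        rw [map_mul, map_mul, map_add, map_mul, map_add, e4, e9]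
        have : ∀ t : ZMod (2 ^ 3), t = 1 ∨ t = 3 ∨ t = 5 ∨ t = 7 →
          t * (4 * t + 9) * (t + 4) = 1 := by decide
        apply this
        simpa using hodd
      have k2 : PadicInt.toZModPow 3 (5 * (4 * s + 9)) = 1 := by
        rw [map_mul, map_add, map_mul, e4, e9, e5]
        have : ∀ t : ZMod (2 ^ 3), t = 1 ∨ t = 3 ∨ t = 5 ∨ t = 7 →
          5 * (4 * t + 9) = 1 := by decide
        apply this
        simpa using hodd
      have q1 := sq_of_mod8 _ k1
      have q2 := sq_of_mod8 _ k2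
      have c4 : ((4 : ℤ_[2]) : ℚ_[2]) = 4 := rfl
      have c9 : ((9 : ℤ_[2]) : ℚ_[2]) = 9 := rfl
      have c5 : ((5 : ℤ_[2]) : ℚ_[2]) = 5 := rfl
      push_cast at q1 q2
      rw [c4, c9] at q1
      rw [c4, c9, c5] at q2
      constructor
      · have e : (v + 9 * m) * (5 * m) = (m * m) * (5 * (4 * (s : ℚ_[2]) + 9)) := by
          rw [hv']
          ring
        rw [e]
        exact (IsSquare.mul_self _).mul q2
      · have e : v * (v + 9 * m) * (v + 16 * m) = ((4 * m * (4 * m)) *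
            ((s : ℚ_[2]) * (4 * (s : ℚ_[2]) + 9) * ((s : ℚ_[2]) + 4))) * m := by
          rw [hv']
          ring
        rw [e] at hs
        refine sq_cancel ?_ ((IsSquare.mul_self _).mul q1) hs
        intro h0
        have : v * (v + 9 * m) * (v + 16 * m) = 0 := by rw [e, h0, zero_mul]
        exact mul_ne_zero (mul_ne_zero hv hu) hw this

/-- **A coordinate of the close pair at 2**, `m ≡ 1 mod 4`. -/
theorem two_even {m : ℤ} (hm4 : m % 4 = 1) {v : ℚ_[2]} (hv : v ≠ 0)
    (hu : v + 9 * m ≠ 0) (hw : v + 16 * m ≠ 0)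
    (hs : IsSquare (v * (v + 9 * m) * (v + 16 * m))) : Even v.valuation := by
  have hm : m ≠ 0 := by rintro rfl; simp at hm4
  have hm' : (m : ℚ_[2]) ≠ 0 := by exact_mod_cast hm
  have vm : (m : ℚ_[2]).valuation = 0 := val_zero (by push_cast; omega)
  have v9 : (9 * (m : ℚ_[2])).valuation = 0 := by rw [val9 (by norm_num) hm, vm]
  have v16 : (16 * (m : ℚ_[2])).valuation = 4 := by rw [v16two hm, vm]; norm_num
  have h9 : (9 * (m : ℚ_[2])) ≠ 0 := mul_ne_zero (by norm_num) hm'
  have h16 : (16 * (m : ℚ_[2])) ≠ 0 := mul_ne_zero (by norm_num) hm'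
  have hsum : Even (v.valuation + (v + 9 * m).valuation + (v + 16 * m).valuation) := by
    have := even_val (mul_ne_zero (mul_ne_zero hv hu) hw) hs
    rwa [Padic.valuation_mul (mul_ne_zero hv hu) hw, Padic.valuation_mul hv hu] at this
  by_contra hodd
  rw [Int.not_even_iff_odd] at hodd
  obtain ⟨k, hk⟩ := hodd
  obtain ⟨r, hr⟩ := hsum
  obtain ⟨s, hs1, hs2⟩ := unit_part hv
  have hodd := unit_odd hs1
  obtain ⟨y, hy⟩ := hs
  have key : ∀ t : ℤ_[2], (∃ z : ℚ_[2], z ^ 2 = t) → PadicInt.toZModPow 3 t ≠ 3 ∧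
      PadicInt.toZModPow 3 t ≠ 7 := by
    rintro t ⟨z, hz⟩
    obtain ⟨r, hr⟩ := int_of_sq hz
    rw [← hr, map_pow]
    have : ∀ t : ZMod (2 ^ 3), t ^ 2 ≠ 3 ∧ t ^ 2 ≠ 7 := by decide
    exact this _
  have c8 : PadicInt.toZModPow (p := 2) 3 8 = 8 := map_ofNat (PadicInt.toZModPow (p := 2) 3) 8
  have c9 : PadicInt.toZModPow (p := 2) 3 9 = 9 := map_ofNat (PadicInt.toZModPow (p := 2) 3) 9
  have c2 : PadicInt.toZModPow (p := 2) 3 2 = 2 := map_ofNat (PadicInt.toZModPow (p := 2) 3) 2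
  have d8 : ((8 : ℤ_[2]) : ℚ_[2]) = 8 := rfl
  have d9 : ((9 : ℤ_[2]) : ℚ_[2]) = 9 := rfl
  have d2 : ((2 : ℤ_[2]) : ℚ_[2]) = 2 := rfl
  have hmm := mod8_int hm4
  rcases lt_or_ge v.valuation 0 with c | c
  · have e1 := val_add_eq hv h9 hu (by rw [v9]; exact c)
    have e2 := val_add_eq hv h16 hw (by rw [v16]; omega)
    omega
  · rcases le_or_gt v.valuation 3 with c' | c'
    · have c'' : v.valuation = 1 ∨ v.valuation = 3 := by omega
      rcases c'' with c'' | c''
      · rw [c'', zpow_one] at hs2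
        have h1 := key (s * (s + 8 * m) * (2 * s + 9 * m)) ⟨y / 2, by
          push_cast
          rw [d8, d9, d2, div_pow, pow_two, ← hy, hs2]
          ring⟩
        rw [map_mul, map_mul, map_add, map_add, map_mul, map_mul, map_mul, c8, c9, c2] at h1
        have h2 : ∀ t μ : ZMod (2 ^ 3), (t = 1 ∨ t = 3 ∨ t = 5 ∨ t = 7) → (μ = 1 ∨ μ = 5) →
          ¬ (t * (t + 8 * μ) * (2 * t + 9 * μ) ≠ 3 ∧ t * (t + 8 * μ) * (2 * t + 9 * μ) ≠ 7) := by
          decide
        exact h2 _ _ (by simpa using hodd) hmm h1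
      · have e3 : (2 : ℚ_[2]) ^ (3 : ℤ) = 8 := by norm_num
        rw [c'', e3] at hs2
        have h1 := key (s * (s + 2 * m) * (8 * s + 9 * m)) ⟨y / 8, by
          push_cast
          rw [d8, d9, d2, div_pow, pow_two, ← hy, hs2]
          ring⟩
        rw [map_mul, map_mul, map_add, map_add, map_mul, map_mul, map_mul, c8, c9, c2] at h1
        have h2 : ∀ t μ : ZMod (2 ^ 3), (t = 1 ∨ t = 3 ∨ t = 5 ∨ t = 7) → (μ = 1 ∨ μ = 5) →
          ¬ (t * (t + 2 * μ) * (8 * t + 9 * μ) ≠ 3 ∧ t * (t + 2 * μ) * (8 * t + 9 * μ) ≠ 7) := by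
          decide
        exact h2 _ _ (by simpa using hodd) hmm h1
    · have e1 := val_add_eq h9 hv (by rwa [add_comm]) (by rw [v9]; omega)
      have e2 := val_add_eq h16 hv (by rwa [add_comm]) (by rw [v16]; omega)
      rw [add_comm] at e1
      rw [add_comm] at e2
      omega

/-- the first coordinate is a local decomposition of the second kind at 2 -/
lemma loc_two {m d1 d2 : ℤ} (hm : Cls m) (hd1 : Squarefree d1)
    (h : LocC ℚ_[2] 0 (9 * m) (-7 * m) d1 d2) :
    (IsSquare (d1 : ℚ_[2]) ∨ IsSquare ((d1 : ℚ_[2]) * m)) ∨ (m % 8 = 1 ∧ d1 % 4 = 1) := by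
  obtain ⟨u, hu, hv, hw, hs, h1, h2⟩ := locC_iff h
  have hm0 : m ≠ 0 := hm.neg.ne
  have e1 : u - 9 * (m : ℚ_[2]) + 9 * m = u := by ring
  have e2 : u - 9 * (m : ℚ_[2]) + 16 * m = u + 7 * m := by ring
  have e3 : (u - 9 * (m : ℚ_[2])) * u * (u + 7 * m) = u * (u - 9 * m) * (u + 7 * m) := by ring
  have := two_iso hm0 hv (by rw [e1]; exact hu) (by rw [e2]; exact hw)
    (by rw [e1, e2, e3]; exact hs)
  rw [e1] at this
  rcases this with h3 | h3 | ⟨h3, h4⟩
  · left; left
    exact sq_cancel hu h3 h1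
  · left; right
    exact to_coord hu h3 h1
  · right
    have h5 := odd_of_sq hm.sqf h4
    refine ⟨h5, ?_⟩
    have h6 : IsSquare ((d1 : ℚ_[2]) * (5 * m)) := to_coord hu h3 h1
    have h7 : IsSquare ((m : ℚ_[2]) * (5 * d1)) := by
      have e : (m : ℚ_[2]) * (5 * d1) = (d1 : ℚ_[2]) * (5 * m) := by ring
      rwa [e]
    have hm' : (m : ℚ_[2]) ≠ 0 := by exact_mod_cast hm0
    have h8 : IsSquare (((5 * d1 : ℤ)) : ℚ_[2]) := by
      push_cast
      exact sq_cancel hm' h4 h7
    have h9 : ¬ ((2 : ℕ) : ℤ) ∣ d1 := by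
      have h10 : IsSquare ((5 : ℚ_[2]) * d1) := by exact_mod_cast h8
      refine not_dvd_of_even (by norm_num) ?_ hd1 h10
      have : ((5 : ℤ) : ℚ_[2]).valuation = 0 := val_zero (by norm_num)
      have h5' : (5 : ℚ_[2]).valuation = 0 := by exact_mod_cast this
      rw [h5']
      exact Even.zero
    have h11 := mod_of_sq (d := 5 * d1) (by push_cast at h9; omega) h8
    omega

lemma loc_two_odd {m d1 d2 : ℤ} (hm : Cls m) (hm4 : m % 4 = 1) (hd1 : Squarefree d1)
    (hd2 : Squarefree d2)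
    (h : LocC ℚ_[2] 0 (9 * m) (-7 * m) d1 d2) : d1 % 4 = 1 ∧ ¬ (2 : ℤ) ∣ d2 := by
  constructor
  · rcases loc_two hm hd1 h with (h1 | h1) | h1
    · have := odd_of_sq hd1 h1
      omega
    · have hmm : ¬ (2 : ℤ) ∣ m := by omega
      have h9 : ¬ ((2 : ℕ) : ℤ) ∣ d1 := by
        have h10 : IsSquare ((m : ℚ_[2]) * d1) := by rwa [mul_comm]
        have hm' : (m : ℚ_[2]) ≠ 0 := by exact_mod_cast hm.neg.ne
        refine not_dvd_of_even hm' ?_ hd1 h10
        rw [val_zero (by exact_mod_cast hmm)]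
        exact Even.zero
      have h11 := mod_of_sq (d := d1 * m) (by
        intro h12
        rcases Int.prime_two.dvd_or_dvd h12 with h13 | h13
        · exact h9 (by exact_mod_cast h13)
        · exact hmm h13) (by push_cast; exact h1)
      have h14 : d1 % 4 * (m % 4) % 4 = 1 := by
        rw [← Int.mul_emod]
        omega
      rw [hm4] at h14
      omega
    · exact h1.2
  · obtain ⟨u, hu, hv, hw, hs, h1, h2⟩ := locC_iff h
    have e1 : u - 9 * (m : ℚ_[2]) + 9 * m = u := by ring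
    have e2 : u - 9 * (m : ℚ_[2]) + 16 * m = u + 7 * m := by ring
    have e3 : (u - 9 * (m : ℚ_[2])) * u * (u + 7 * m) = u * (u - 9 * m) * (u + 7 * m) := by ring
    have := two_even hm4 hv (by rw [e1]; exact hu) (by rw [e2]; exact hw)
      (by rw [e1, e2, e3]; exact hs)
    exact_mod_cast not_dvd_of_even hv this hd2 h2

end Pool.Agent.N637.P21
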