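import Pool.Agent.N875.X15.Glob

/-!
# Local conditions for the curves `y² = x (x - 9 m) (x + 7 m)`: odd primes

These are the quadratic twists by `m` of the curve `21a1`; `m < 0` squarefree, `m ≢ 1 mod 3` and `m` a
square modulo `7`.
-/

set_option autoImplicit false

namespace Pool.Agent.N637.P21

open Pool.Agent.TH841.SH (LocC SelG)
open Pool.Agent.Y667.RP (mod_of_sq)
open Pool.Agent.N875.X15 (norm_lt_iff norm_le_iff norm_eq_iff close closeV val_add_ge even_val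
  sq_cancel sq_trans loc_ram loc_unr close2 sq_of_mod8 unit_part unit_odd int_of_sq val_add_eq
  val_zero val_p val_one not_dvd_of_even val_mul_unit not_dvd_of_prime sq_mod3 drop to_coord)

/-- the class of `m` -/
structure Cls (m : ℤ) : Prop where
  neg : m < 0
  sqf : Squarefree m
  m3 : m % 3 ≠ 1
  m7 : m % 7 = 0 ∨ m % 7 = 1 ∨ m % 7 = 2 ∨ m % 7 = 4

/-- the local condition in terms of `u = x` -/
lemma locC_iff {K : Type} [Field K] [CharZero K] {m d1 d2 : ℤ}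
    (h : LocC K 0 (9 * m) (-7 * m) d1 d2) :
    ∃ u : K, u ≠ 0 ∧ u - 9 * m ≠ 0 ∧ u + 7 * m ≠ 0 ∧
      IsSquare (u * (u - 9 * m) * (u + 7 * m)) ∧ IsSquare (u * d1) ∧
      IsSquare ((u - 9 * m) * d2) := by
  obtain ⟨x, y, hy, hxy, h1, h2⟩ := h
  push_cast at hxy h1 h2
  have e1 : x - 0 = x := sub_zero x
  have e2 : x - -7 * (m : K) = x + 7 * m := by ring
  rw [e1, e2] at hxy
  rw [e1] at h1
  have h0 : x * (x - 9 * m) * (x + 7 * m) ≠ 0 := by rw [← hxy]; exact pow_ne_zero 2 hy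
  exact ⟨x, left_ne_zero_of_mul (left_ne_zero_of_mul h0), right_ne_zero_of_mul
    (left_ne_zero_of_mul h0), right_ne_zero_of_mul h0, ⟨y, by rw [← hxy, pow_two]⟩, h1, h2⟩

lemma val_neg {p : ℕ} [hp : Fact p.Prime] (x : ℚ_[p]) : (-x).valuation = x.valuation := by
  by_cases hx : x = 0
  · rw [hx, neg_zero]
  exact (norm_eq_iff (neg_ne_zero.2 hx) hx).1 (norm_neg x)

section odd

variable {p : ℕ} [hp : Fact p.Prime]

lemma q9 : IsSquare (9 : ℚ_[p]) := ⟨3, by norm_num⟩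

lemma q16 : IsSquare (16 : ℚ_[p]) := ⟨4, by norm_num⟩

/-- a power of a prime has valuation zero at the other primes -/
lemma val_ppow (q k : ℕ) (hq : q.Prime) (hpq : p ≠ q) {m : ℤ} (hm : m ≠ 0) :
    ((((q : ℤ) ^ k : ℤ) : ℚ_[p]) * m).valuation = (m : ℚ_[p]).valuation := by
  have hpr : Prime (p : ℤ) := Nat.prime_iff_prime_int.1 hp.out
  exact val_mul_unit (p := p) (n := m) ((q : ℤ) ^ k)
    (fun h => not_dvd_of_prime hq hpq (hpr.dvd_of_dvd_pow h)) hm

lemma val16 (hp2 : p ≠ 2) {m : ℤ} (hm : m ≠ 0) :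
    (16 * (m : ℚ_[p])).valuation = (m : ℚ_[p]).valuation := by
  have := val_ppow 2 4 Nat.prime_two hp2 hm
  have e : ((((2 : ℕ) : ℤ) ^ 4 : ℤ) : ℚ_[p]) = 16 := by norm_num
  rwa [e] at this

lemma val9 (hp3 : p ≠ 3) {m : ℤ} (hm : m ≠ 0) :
    (9 * (m : ℚ_[p])).valuation = (m : ℚ_[p]).valuation := by
  have := val_ppow 3 2 Nat.prime_three hp3 hm
  have e : ((((3 : ℕ) : ℤ) ^ 2 : ℤ) : ℚ_[p]) = 9 := by norm_num
  rwa [e] at this

lemma val7 (hp7 : p ≠ 7) {m : ℤ} (hm : m ≠ 0) :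
    (7 * (m : ℚ_[p])).valuation = (m : ℚ_[p]).valuation := by
  have := val_ppow 7 1 (by norm_num) hp7 hm
  have e : ((((7 : ℕ) : ℤ) ^ 1 : ℤ) : ℚ_[p]) = 7 := by norm_num
  rwa [e] at this

lemma val9' {m : ℤ} (hm : m ≠ 0) : (9 * (m : ℚ_[3])).valuation = (m : ℚ_[3]).valuation + 2 := by
  have hm' : (m : ℚ_[3]) ≠ 0 := by exact_mod_cast hm
  have e : (9 : ℚ_[3]) = ((3 : ℕ) : ℚ_[3]) ^ 2 := by norm_num
  rw [Padic.valuation_mul (by norm_num) hm', e, Padic.valuation_pow, val_p]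
  push_cast
  ring

lemma val7' {m : ℤ} [Fact (Nat.Prime 7)] (hm : m ≠ 0) :
    (7 * (m : ℚ_[7])).valuation = (m : ℚ_[7]).valuation + 1 := by
  have hm' : (m : ℚ_[7]) ≠ 0 := by exact_mod_cast hm
  have e : (7 : ℚ_[7]) = ((7 : ℕ) : ℚ_[7]) := by norm_num
  rw [Padic.valuation_mul (by norm_num) hm', e, val_p]
  ring

/-- **The local condition at the odd primes dividing `m`.** -/
theorem loc_dvd (hp2 : p ≠ 2) {m d1 d2 : ℤ} (hm : Squarefree m) (hpm : (p : ℤ) ∣ m)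
    (h : LocC ℚ_[p] 0 (9 * m) (-7 * m) d1 d2) :
    (IsSquare (d1 : ℚ_[p]) ∧ IsSquare (d2 : ℚ_[p])) ∨
    (IsSquare ((d1 : ℚ_[p]) * (-7)) ∧ IsSquare ((d2 : ℚ_[p]) * (-m))) ∨
    (IsSquare ((d1 : ℚ_[p]) * m) ∧ IsSquare (d2 : ℚ_[p])) ∨
    (IsSquare ((d1 : ℚ_[p]) * (-7 * m)) ∧ IsSquare ((d2 : ℚ_[p]) * (-m))) := by
  obtain ⟨u, hu, hv, hw, hs, h1, h2⟩ := locC_iff h
  have hm0 : m ≠ 0 := hm.ne_zero
  have hm' : (m : ℚ_[p]) ≠ 0 := by exact_mod_cast hm0
  have vm := val_one hpm hm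
  have E1 : u - 9 * (m : ℚ_[p]) - u = -(9 * m) := by ring
  have E2 : u + 7 * (m : ℚ_[p]) - u = 7 * m := by ring
  have E3 : u + 7 * (m : ℚ_[p]) - (u - 9 * m) = 16 * m := by ring
  have E1' : u - (u - 9 * (m : ℚ_[p])) = 9 * m := by ring
  have E2' : u - (u + 7 * (m : ℚ_[p])) = -7 * m := by ring
  have E3' : u - 9 * (m : ℚ_[p]) - (u + 7 * m) = 16 * (-m) := by ring
  have E4 : -(9 * (m : ℚ_[p])) = 9 * (-m) := by ring
  have n9 : (9 * (m : ℚ_[p])) ≠ 0 := mul_ne_zero (by norm_num) hm'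
  have n7 : (7 * (m : ℚ_[p])) ≠ 0 := mul_ne_zero (by norm_num) hm'
  have n16 : (16 * (m : ℚ_[p])) ≠ 0 := mul_ne_zero (by norm_num) hm'
  have c9 : (9 : ℚ_[p]) ≠ 0 := by norm_num
  have c16 : (16 : ℚ_[p]) ≠ 0 := by norm_num
  have v16 : (16 * (m : ℚ_[p])).valuation = 1 := by rw [val16 hp2 hm0, vm]
  -- the four possibilities in terms of `u`, `v`, `w`
  have main : (IsSquare u ∧ IsSquare (u - 9 * (m : ℚ_[p]))) ∨
      (IsSquare ((u - 9 * (m : ℚ_[p])) * (-m)) ∧ IsSquare ((u + 7 * m) * (7 * m))) ∨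
      (IsSquare (u * m) ∧ IsSquare ((u + 7 * m) * (m : ℚ_[p]))) ∨
      (IsSquare (u * (-7 * m)) ∧ IsSquare ((u - 9 * m) * (-(m : ℚ_[p])))) := by
    by_cases h7 : p = 7
    · subst h7
      have v9 : (9 * (m : ℚ_[7])).valuation = 1 := by rw [val9 (by norm_num) hm0, vm]
      have v7 : (7 * (m : ℚ_[7])).valuation = 2 := by rw [val7' hm0, vm]; norm_num
      have hs' : IsSquare (u * (u + 7 * (m : ℚ_[7])) * (u - 9 * m)) := by
        have e : u * (u + 7 * (m : ℚ_[7])) * (u - 9 * m) = u * (u - 9 * m) * (u + 7 * m) := by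
          ring
        rwa [e]
      have := loc_ram hp2 (u := u) (v := u + 7 * (m : ℚ_[7])) (w := u - 9 * m) hu hw hv hs'
        (by rw [E2]; exact n7) (by rw [E1]; exact neg_ne_zero.2 n9)
        (by rw [E3', mul_neg]; exact neg_ne_zero.2 n16) (l := 2) (k := 1) (by rw [E2, v7])
        (by rw [E1, val_neg, v9]) (by rw [E3', mul_neg, val_neg, v16]) (by norm_num) (by decide)
      rw [E1', E2', E3, E3', E2, E1, E4] at this
      rcases this with ⟨a, b⟩ | ⟨a, b⟩ | ⟨a, b⟩ | ⟨a, b⟩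
      · left
        refine ⟨a, ?_⟩
        exact sq_cancel (mul_ne_zero hu hw) (a.mul b) hs'
      · right; left
        exact ⟨drop q9 c9 b, a⟩
      · right; right; right
        exact ⟨a, drop q16 c16 b⟩
      · right; right; left
        exact ⟨drop q9 c9 a, drop q16 c16 b⟩
    · have v7 : (7 * (m : ℚ_[p])).valuation = 1 := by rw [val7 h7 hm0, vm]
      have v9 : ∃ l : ℤ, (9 * (m : ℚ_[p])).valuation = l ∧ 1 ≤ l := by
        by_cases h3 : p = 3
        · subst h3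
          exact ⟨3, by rw [val9' hm0, vm]; norm_num, by norm_num⟩
        · exact ⟨1, by rw [val9 h3 hm0, vm], le_refl _⟩
      obtain ⟨l, v9, hl⟩ := v9
      have := loc_ram hp2 (u := u) (v := u - 9 * (m : ℚ_[p])) (w := u + 7 * m) hu hv hw hs
        (by rw [E1]; exact neg_ne_zero.2 n9) (by rw [E2]; exact n7)
        (by rw [E3]; exact n16) (l := l) (k := 1) (by rw [E1, val_neg, v9])
        (by rw [E2, v7]) (by rw [E3, v16]) hl (by decide)
      rw [E1', E2', E3, E3', E2, E1, E4] at this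
      rcases this with ⟨a, b⟩ | ⟨a, b⟩ | ⟨a, b⟩ | ⟨a, b⟩
      · left
        exact ⟨a, b⟩
      · right; left
        exact ⟨drop q9 c9 a, b⟩
      · right; right; left
        exact ⟨drop q9 c9 a, drop q16 c16 b⟩
      · right; right; right
        exact ⟨a, drop q16 c16 b⟩
  have hone : ∀ {x : ℚ_[p]}, IsSquare x → IsSquare (x * 1) := fun h => by rwa [mul_one]
  rcases main with ⟨a, b⟩ | ⟨a, b⟩ | ⟨a, b⟩ | ⟨a, b⟩
  · left
    have c1 := to_coord hu (hone a) h1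
    have c2 := to_coord hv (hone b) h2
    rw [mul_one] at c1 c2
    exact ⟨c1, c2⟩
  · right; left
    refine ⟨?_, to_coord hv a h2⟩
    have c : IsSquare (u * (-7)) := by
      have c1 := hs.mul (a.mul b)
      have e : u * (u - 9 * (m : ℚ_[p])) * (u + 7 * m) * ((u - 9 * (m : ℚ_[p])) * (-m) *
          ((u + 7 * m) * (7 * m))) =
        (((u - 9 * (m : ℚ_[p])) * (u + 7 * m) * m) * ((u - 9 * (m : ℚ_[p])) * (u + 7 * m) * m)) *
          (u * (-7)) := by ring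
      rw [e] at c1
      have h0 : (u - 9 * (m : ℚ_[p])) * (u + 7 * m) * m ≠ 0 := mul_ne_zero (mul_ne_zero hv hw) hm'
      exact sq_cancel (mul_ne_zero h0 h0) (IsSquare.mul_self _) c1
    exact to_coord hu c h1
  · right; right; left
    refine ⟨to_coord hu a h1, ?_⟩
    have c : IsSquare ((u - 9 * (m : ℚ_[p])) * 1) := by
      have c1 := hs.mul (a.mul b)
      have e : u * (u - 9 * (m : ℚ_[p])) * (u + 7 * m) * (u * m * ((u + 7 * m) * m)) =
        ((u * (u + 7 * m) * m) * (u * (u + 7 * m) * m)) * ((u - 9 * (m : ℚ_[p])) * 1) := by ring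
      rw [e] at c1
      have h0 : u * (u + 7 * (m : ℚ_[p])) * m ≠ 0 := mul_ne_zero (mul_ne_zero hu hw) hm'
      exact sq_cancel (mul_ne_zero h0 h0) (IsSquare.mul_self _) c1
    have := to_coord hv c h2
    rwa [mul_one] at this
  · right; right; right
    exact ⟨to_coord hu a h1, to_coord hv b h2⟩

end odd

/-- non squares modulo `p` -/
lemma zmod_sq {p : ℕ} [hp : Fact p.Prime] {n : ℤ} (h : IsSquare (n : ℚ_[p])) :
    IsSquare ((n : ℤ) : ZMod p) := by
  obtain ⟨r, hr⟩ := h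
  have h1 : ‖r‖ ≤ 1 := by
    by_contra hcon
    push Not at hcon
    have h2 : ‖(n : ℚ_[p])‖ ≤ 1 := Padic.norm_int_le_one n
    rw [hr, norm_mul] at h2
    nlinarith
  obtain ⟨v, hv⟩ : ∃ v : ℤ_[p], (v : ℚ_[p]) = r := ⟨⟨r, h1⟩, rfl⟩
  have h2 : ((n : ℤ) : ℤ_[p]) = v * v := by
    apply Subtype.ext
    rw [PadicInt.coe_mul, hv]
    push_cast
    exact hr
  have h3 := congrArg (PadicInt.toZMod (p := p)) h2
  rw [map_mul, map_intCast] at h3
  exact ⟨_, h3⟩

lemma sq_mod7 (t : ZMod 7) (h : IsSquare t) : t = 0 ∨ t = 1 ∨ t = 2 ∨ t = 4 := by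
  revert t
  decide

lemma zmod_eq {n : ℕ} {a b : ℤ} (h : ((a : ℤ) : ZMod n) = (b : ZMod n)) : (n : ℤ) ∣ a - b := by
  apply (ZMod.intCast_zmod_eq_zero_iff_dvd (a - b) n).1
  push_cast
  rw [h, sub_self]

/-- squares in `ℚ_[3]` -/
lemma mod3_of_sq {n : ℤ} (hn : ¬ (3 : ℤ) ∣ n) (h : IsSquare (n : ℚ_[3])) : n % 3 = 1 := by
  rcases sq_mod3 _ (zmod_sq (p := 3) h) with h1 | h1
  · have := zmod_eq (n := 3) (a := n) (b := 0) (by simpa using h1)
    omega
  · have := zmod_eq (n := 3) (a := n) (b := 1) (by simpa using h1)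
    omega

instance fact7 : Fact (Nat.Prime 7) := ⟨by norm_num⟩

/-- squares in `ℚ_[7]` -/
lemma mod7_of_sq {n : ℤ} (hn : ¬ (7 : ℤ) ∣ n) (h : IsSquare (n : ℚ_[7])) :
    n % 7 = 1 ∨ n % 7 = 2 ∨ n % 7 = 4 := by
  rcases sq_mod7 _ (zmod_sq (p := 7) h) with h1 | h1 | h1 | h1
  · have := zmod_eq (n := 7) (a := n) (b := 0) (by simpa using h1)
    omega
  · have := zmod_eq (n := 7) (a := n) (b := 1) (by simpa using h1)
    omega
  · have := zmod_eq (n := 7) (a := n) (b := 2) (by simpa using h1)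
    omega
  · have := zmod_eq (n := 7) (a := n) (b := 4) (by simpa using h1)
    omega

/-- **The local condition at the odd primes different from `7` not dividing `m`.** -/
theorem loc_ndvd {p : ℕ} [hp : Fact p.Prime] (hp2 : p ≠ 2) (hp7 : p ≠ 7) {m d1 d2 : ℤ}
    (hm : Cls m) (hpm : ¬ (p : ℤ) ∣ m) (hd1 : Squarefree d1) (hd2 : Squarefree d2)
    (h : LocC ℚ_[p] 0 (9 * m) (-7 * m) d1 d2) : ¬ (p : ℤ) ∣ d1 ∧ ¬ (p : ℤ) ∣ d2 := by
  obtain ⟨u, hu, hv, hw, hs, h1, h2⟩ := locC_iff h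
  have hm0 : m ≠ 0 := hm.neg.ne
  have hm' : (m : ℚ_[p]) ≠ 0 := by exact_mod_cast hm0
  have vm := val_zero hpm
  have E1 : u - 9 * (m : ℚ_[p]) - u = -(9 * m) := by ring
  have E2 : u + 7 * (m : ℚ_[p]) - u = 7 * m := by ring
  have E3 : u + 7 * (m : ℚ_[p]) - (u - 9 * m) = 16 * m := by ring
  have n9 : (9 * (m : ℚ_[p])) ≠ 0 := mul_ne_zero (by norm_num) hm'
  have n7 : (7 * (m : ℚ_[p])) ≠ 0 := mul_ne_zero (by norm_num) hm'
  have n16 : (16 * (m : ℚ_[p])) ≠ 0 := mul_ne_zero (by norm_num) hm'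
  have v16 : (16 * (m : ℚ_[p])).valuation = 0 := by rw [val16 hp2 hm0, vm]
  have v7 : (7 * (m : ℚ_[p])).valuation = 0 := by rw [val7 hp7 hm0, vm]
  have main : Even u.valuation ∧ Even (u - 9 * (m : ℚ_[p])).valuation := by
    by_cases h3 : p = 3
    · subst h3
      have v9 : (9 * (m : ℚ_[3])).valuation = 2 := by rw [val9' hm0, vm]; norm_num
      have := loc_unr hp2 (u := u) (v := u - 9 * (m : ℚ_[3])) (w := u + 7 * m) hu hv hw hs
        (by rw [E1]; exact neg_ne_zero.2 n9) (by rw [E2]; exact n7)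
        (by rw [E3]; exact n16) (l := 2) (k := 0) (by rw [E1, val_neg, v9])
        (by rw [E2, v7]) (by rw [E3, v16]) (by norm_num) (by decide) (by decide)
        (fun _ hsq => by
          rw [E2] at hsq
          have hsq' : IsSquare (((7 * m : ℤ)) : ℚ_[3]) := by
            push_cast
            exact hsq
          have h12 : m % 3 ≠ 0 := fun h => hpm (Int.dvd_of_emod_eq_zero h)
          have := mod3_of_sq (n := 7 * m) (by omega) hsq'
          have := hm.m3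
          omega)
      exact ⟨this.1, this.2.1⟩
    · have v9 : (9 * (m : ℚ_[p])).valuation = 0 := by rw [val9 h3 hm0, vm]
      have := loc_unr hp2 (u := u) (v := u - 9 * (m : ℚ_[p])) (w := u + 7 * m) hu hv hw hs
        (by rw [E1]; exact neg_ne_zero.2 n9) (by rw [E2]; exact n7)
        (by rw [E3]; exact n16) (l := 0) (k := 0) (by rw [E1, val_neg, v9])
        (by rw [E2, v7]) (by rw [E3, v16]) (by norm_num) (by decide) (by decide)
        (fun h => absurd h (by norm_num))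
      exact ⟨this.1, this.2.1⟩
  exact ⟨not_dvd_of_even hu main.1 hd1 h1, not_dvd_of_even hv main.2 hd2 h2⟩

/-- **The local condition at `7`.** -/
theorem loc_seven {m : ℤ} (hm7 : ¬ (7 : ℤ) ∣ m) {u : ℚ_[7]} (hu : u ≠ 0)
    (hv : u - 9 * m ≠ 0) (hw : u + 7 * m ≠ 0) (hs : IsSquare (u * (u - 9 * m) * (u + 7 * m))) :
    Even (u - 9 * m).valuation ∧ (IsSquare (u - 9 * m) ∧ Even u.valuation ∨
      IsSquare ((u - 9 * m) * (-m)) ∧ Odd u.valuation) := by
  have hp2 : (7 : ℕ) ≠ 2 := by norm_num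
  have hm0 : m ≠ 0 := by rintro rfl; simp at hm7
  have hm' : (m : ℚ_[7]) ≠ 0 := by exact_mod_cast hm0
  have vm : (m : ℚ_[7]).valuation = 0 := val_zero (by exact_mod_cast hm7)
  have v7 : (7 * (m : ℚ_[7])).valuation = 1 := by rw [val7' hm0, vm]; norm_num
  have v9 : (9 * (m : ℚ_[7])).valuation = 0 := by rw [val9 (by norm_num) hm0, vm]
  have n7 : (7 * (m : ℚ_[7])) ≠ 0 := mul_ne_zero (by norm_num) hm'
  have n9 : (9 * (m : ℚ_[7])) ≠ 0 := mul_ne_zero (by norm_num) hm'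
  have n9' : (-(9 * (m : ℚ_[7]))) ≠ 0 := neg_ne_zero.2 n9
  have E1 : u - 9 * (m : ℚ_[7]) - u = -(9 * m) := by ring
  have E2 : u + 7 * (m : ℚ_[7]) - u = 7 * m := by ring
  have E3 : u - 9 * (m : ℚ_[7]) - -(9 * m) = u := by ring
  have hsum : Even (u.valuation + (u - 9 * m).valuation + (u + 7 * m).valuation) := by
    have := even_val (mul_ne_zero (mul_ne_zero hu hv) hw) hs
    rwa [Padic.valuation_mul (mul_ne_zero hu hv) hw, Padic.valuation_mul hu hv] at this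
  obtain ⟨k, hk⟩ := hsum
  rcases le_or_gt u.valuation 0 with c | c
  · -- `w ~ u`
    obtain ⟨a1, a2⟩ := closeV hp2 hw hu (by rw [E2]; exact n7) (by rw [E2, v7]; omega)
    have b1 : IsSquare (u - 9 * m) := by
      have e : u * (u - 9 * m) * (u + 7 * m) = ((u + 7 * m) * u) * (u - 9 * m) := by ring
      rw [e] at hs
      exact sq_cancel (mul_ne_zero hw hu) a1 hs
    have b2 := even_val hv b1
    refine ⟨b2, Or.inl ⟨b1, ?_⟩⟩
    rcases lt_or_eq_of_le c with c' | c'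
    · obtain ⟨-, a3⟩ := closeV hp2 hv hu (by rw [E1]; exact n9')
        (by rw [E1, val_neg, v9]; exact c')
      rw [← a3]
      exact b2
    · rw [c']
      exact Even.zero
  · -- `v ~ -9 m`
    obtain ⟨a1, a2⟩ := closeV hp2 hv n9' (by rw [E3]; exact hu) (by rw [E3, val_neg, v9]; exact c)
    rw [val_neg, v9] at a2
    have a1' : IsSquare ((u - 9 * (m : ℚ_[7])) * (-m)) := by
      have e : -(9 * (m : ℚ_[7])) = 9 * (-m) := by ring
      rw [e] at a1
      exact drop q9 (by norm_num) a1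
    refine ⟨by rw [a2]; exact Even.zero, Or.inr ⟨a1', ?_⟩⟩
    rcases lt_or_eq_of_le (show (1 : ℤ) ≤ u.valuation from c) with c' | c'
    · obtain ⟨-, a3⟩ := closeV hp2 hw n7 (by rw [add_sub_cancel_right]; exact hu) (by
        rw [add_sub_cancel_right, v7]; exact c')
      rw [a3, a2, v7] at hk
      exact ⟨k - 1, by omega⟩
    · rw [← c']
      exact odd_one

/-- a squarefree integer in the local condition at `7` -/
lemma loc_seven' {m d1 d2 : ℤ} (hm7 : m % 7 = 1 ∨ m % 7 = 2 ∨ m % 7 = 4) (hd1 : Squarefree d1)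
    (hd2 : Squarefree d2) (h : LocC ℚ_[7] 0 (9 * m) (-7 * m) d1 d2) :
    ¬ (7 : ℤ) ∣ d2 ∧ ((d2 % 7 = 1 ∨ d2 % 7 = 2 ∨ d2 % 7 = 4) ∧ ¬ (7 : ℤ) ∣ d1 ∨
      (d2 % 7 = 3 ∨ d2 % 7 = 5 ∨ d2 % 7 = 6) ∧ (7 : ℤ) ∣ d1) := by
  obtain ⟨u, hu, hv, hw, hs, h1, h2⟩ := locC_iff h
  obtain ⟨a, b⟩ := loc_seven (by omega) hu hv hw hs
  have hm0 : m ≠ 0 := by rintro rfl; simp at hm7
  have k2 : ¬ (7 : ℤ) ∣ d2 := by exact_mod_cast not_dvd_of_even hv a hd2 h2
  refine ⟨k2, ?_⟩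
  rcases b with ⟨b1, b2⟩ | ⟨b1, b2⟩
  · left
    refine ⟨mod7_of_sq k2 (sq_cancel hv b1 h2), ?_⟩
    exact_mod_cast not_dvd_of_even hu b2 hd1 h1
  · right
    constructor
    · have h3 : IsSquare (((d2 * -m : ℤ)) : ℚ_[7]) := by
        push_cast
        exact to_coord hv b1 h2
      have hp7 : Prime (7 : ℤ) := by norm_num
      have h4 := mod7_of_sq (n := d2 * -m) (by
        intro h5
        rcases hp7.dvd_or_dvd h5 with h6 | h6
        · exact k2 h6
        · omega) h3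
      have h5 : (d2 * -m) % 7 = ((d2 % 7) * ((-m) % 7)) % 7 := Int.mul_emod _ _ _
      generalize d2 * -m = z at h4 h5
      have h6 : (-m) % 7 = 6 ∨ (-m) % 7 = 5 ∨ (-m) % 7 = 3 := by omega
      have h7 : d2 % 7 = 1 ∨ d2 % 7 = 2 ∨ d2 % 7 = 3 ∨ d2 % 7 = 4 ∨ d2 % 7 = 5 ∨ d2 % 7 = 6 := by
        omega
      rcases h6 with h6 | h6 | h6 <;> rcases h7 with h7 | h7 | h7 | h7 | h7 | h7 <;>
        rw [h6, h7] at h5 <;> norm_num at h5 <;> omega
    · by_contra hcon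
      have h3 := even_val (mul_ne_zero hu (by exact_mod_cast hd1.ne_zero)) h1
      rw [Padic.valuation_mul hu (by exact_mod_cast hd1.ne_zero), val_zero (p := 7) (n := d1)
        (by exact_mod_cast hcon), add_zero] at h3
      exact (Int.not_even_iff_odd.2 b2) h3

end Pool.Agent.N637.P21
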