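import Pool.Agent.N637.P21.Asm
import Pool.Agent.N975.S21.All

/-!
# The 2-part of the strong formula for the twists of `21a1`: the relation for all classes
-/

set_option autoImplicit false

open Finset

namespace Pool.Agent.N637.P21

open Pool.Agent.N969.P15 (un chE Ev Qe Qc)
open Pool.Agent.N877.P21 (cc Cls0 Cls0e Cl7 Cl7e Cl21 Cl21e Cl3 Cl3e Sp7)
open Pool.Agent.N974.Gen (Symb21)
open Pool.Agent.N975.S21 (Sy eq0 eq0E eq7 eq7E eq21 eq21E eq3 eq3E)
open Pool.Agent.N975.S21.All (s_DIAG s_DIAGE s_DIAG7 s_DIAG7E s_DIAG21 s_DIAG21E s_DIAG3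
  s_DIAG3E s_PAR s_PARE s_PARA3 s_PARA3E)

/-- the symbol is odd at `1 / 3` -/
theorem s13_odd {s : ℚ → ℤ} {a : ℕ → ℤ} (g : Symb21 s a) : Odd (s (1 / 3)) := by
  have hd : ((1 / 3 : ℚ)).den = 3 := by norm_num
  refine g.odd3 (1 / 3) ?_ ?_
  · rw [hd]; norm_num
  · rw [hd]; norm_num

theorem sy_of {s : ℚ → ℤ} {a : ℕ → ℤ} (g : Symb21 s a) : Sy s := ⟨g.per, g.neg, g.aff, g.aff_inf⟩

/-- the relation from the value of the sum -/
theorem rel_of {n : ℕ} {w : ℕ → ℤ} {Q : Prop} {k : ℕ}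
    (hP : ∃ y : ℤ, cc n = 2 ^ k * y ∧ (Odd y ↔ Q)) (a b : ℤ) (ha : a ≠ 0)
    (hr : b * 4 ^ k = a * ((4 ^ n.primeFactors.card * (t2 3 n * t2 7 n) : ℕ) : ℤ))
    (h : ∀ (s : ℚ → ℤ) (f : ℕ → ℤ), Symb21 s f →
      a * (36 * ∑ u ∈ un n, w u * s ((u : ℚ) / n)) = b * (s (1 / 3) * cc n ^ 2)) : Rel n w Q := by
  obtain ⟨y, hy, hQ⟩ := hP
  refine ⟨y, 9, by decide, hQ, fun s f g => ⟨s (1 / 3), s13_odd g, ?_⟩⟩
  have h1 := h s f g
  rw [hy, pow4] at h1
  refine mul_left_cancel₀ ha ?_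
  linear_combination h1 + s (1 / 3) * y ^ 2 * hr

lemma t2_one {p n : ℕ} (h : p ∣ n) : t2 p n = 1 := if_pos h

lemma t2_two {p n : ℕ} (h : ¬ p ∣ n) : t2 p n = 2 := if_neg h

lemma sp7_ndvd {n : ℕ} (h : Sp7 n) : ¬ 7 ∣ n := by
  unfold Sp7 at h
  omega

/-- **all odd discriminants of the class** -/
theorem rel_odd {n : ℕ} (h : Ao n) : Rel n (fun u => jacobiSym u n) (Qc n) := by
  rcases ao_cases h with h' | h' | h' | h'
  · obtain ⟨h1, h2, h3, h4⟩ := id h'
    refine rel_of (s_PAR n (Or.inl h')) 1 1 one_ne_zero ?_ fun s a g => ?_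
    · rw [t2_two (by omega : ¬ 3 ∣ n), t2_two (sp7_ndvd h4)]
      push_cast
      ring
    · have e := eq0 s_DIAG (sy_of g) h'
      simp only [Int.cast_id] at e
      linear_combination e
  · obtain ⟨h1, h2, h3, h4⟩ := id h'
    refine rel_of (s_PAR n (Or.inr h')) 2 1 two_ne_zero ?_ fun s a g => ?_
    · rw [t2_two (by omega : ¬ 3 ∣ n), t2_one h3]
      push_cast
      ring
    · have e := eq7 s_DIAG7 (sy_of g) h'
      simp only [Int.cast_id] at e
      linear_combination e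
  · obtain ⟨h1, h2, h3, h4⟩ := id h'
    refine rel_of (s_PARA3 n (Or.inl h')) 1 1 one_ne_zero ?_ fun s a g => ?_
    · rw [t2_one h4, t2_one h3]
      push_cast
      ring
    · have e := eq21 s_DIAG21 (sy_of g) h'
      simp only [Int.cast_id] at e
      linear_combination e
  · obtain ⟨h1, h2, h3, h4⟩ := id h'
    refine rel_of (s_PARA3 n (Or.inr h')) 1 2 one_ne_zero ?_ fun s a g => ?_
    · rw [t2_one h4, t2_two (sp7_ndvd h3)]
      push_cast
      ring
    · have e := eq3 s_DIAG3 (sy_of g) h'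
      simp only [Int.cast_id] at e
      linear_combination 2 * e

/-- **all even discriminants of the class** -/
theorem rel_even {n : ℕ} (h : Ae n) : Rel n (fun u => chE n u) (Qe n) := by
  rcases ae_cases h with h' | h' | h' | h'
  · obtain ⟨h1, h3, h4⟩ := id h'
    refine rel_of (s_PARE n (Or.inl h')) 1 1 one_ne_zero ?_ fun s a g => ?_
    · rw [t2_two (by omega : ¬ 3 ∣ n), t2_two (sp7_ndvd h4)]
      push_cast
      ring
    · have e := eq0E s_DIAGE (sy_of g) h'
      simp only [Int.cast_id] at e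
      linear_combination e
  · obtain ⟨h1, h3, h4⟩ := id h'
    refine rel_of (s_PARE n (Or.inr h')) 2 1 two_ne_zero ?_ fun s a g => ?_
    · rw [t2_two (by omega : ¬ 3 ∣ n), t2_one h3]
      push_cast
      ring
    · have e := eq7E s_DIAG7E (sy_of g) h'
      simp only [Int.cast_id] at e
      linear_combination e
  · obtain ⟨h1, h3, h4⟩ := id h'
    refine rel_of (s_PARA3E n (Or.inl h')) 1 1 one_ne_zero ?_ fun s a g => ?_
    · rw [t2_one h4, t2_one h3]
      push_cast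
      ring
    · have e := eq21E s_DIAG21E (sy_of g) h'
      simp only [Int.cast_id] at e
      linear_combination e
  · obtain ⟨h1, h3, h4⟩ := id h'
    refine rel_of (s_PARA3E n (Or.inr h')) 1 2 one_ne_zero ?_ fun s a g => ?_
    · rw [t2_one h4, t2_two (sp7_ndvd h3)]
      push_cast
      ring
    · have e := eq3E s_DIAG3E (sy_of g) h'
      simp only [Int.cast_id] at e
      linear_combination 2 * e

end Pool.Agent.N637.P21
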