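import Pool.Agent.N875.X15.RcNc

/-!
# No nontrivial decomposition of the second kind implies no nontrivial ramified norm

The converse of `Pool.Agent.N875.X15.rc_of_nc`, for all squarefree `m < -1`.
-/

set_option autoImplicit false

namespace Pool.Agent.N637.P21

open Finset
open Pool.Agent.N875.X15 (ker_transpose sg sg_add sg_inj sg_sum ra ch Gd ps sgp PR mem_PR RC NC Ram
  gd_ps gd_nat gd_prod gd_mul ch_iff ch_mul ch_odd sum_ra sg_sum_ra prod_PR prod_ps ps_odd ps_two d2
  d2_spec two_mem_PR gd_two recip_ch not_sq sq_of_zmod sq_cancel even_val val_zero val_one sgp_abs)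

section lin

variable {ι : Type} [Fintype ι] [DecidableEq ι] (R : ι → ι → ZMod 2)

/-- the transposition in terms of sets, reversed; the conditions at one index may be omitted -/
theorem transB (q0 : ι) (s0 : Finset ι) (hs0 : s0.Nonempty)
    (k1 : ∀ q, q ≠ q0 → q ∉ s0 → ∑ p ∈ s0, R q p = 0)
    (k2 : ∀ q, q ≠ q0 → q ∈ s0 → ∑ p ∈ univ.erase q, R p q + ∑ p ∈ s0.erase q, R q p = 0)
    (h : ∀ s : Finset ι, (∀ q, q ∉ s → ∑ p ∈ s, R p q = 0) →
      (∀ q ∈ s, ∑ p ∈ sᶜ, R p q = 0) → s = ∅ ∨ s = univ)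
    (s : Finset ι) (h1 : ∀ q, q ≠ q0 → q ∉ s → ∑ p ∈ s, R q p = 0)
    (h2 : ∀ q, q ≠ q0 → q ∈ s → ∑ p ∈ univ.erase q, R p q + ∑ p ∈ s.erase q, R q p = 0) :
    s = ∅ ∨ s = s0 := by
  have h01 : ∀ c : ZMod 2, c = 0 ∨ c = 1 := by decide
  have hcc : ∀ c : ZMod 2, c + c = 0 := by decide
  let M : Matrix ι ι (ZMod 2) := Matrix.of fun q p =>
    if q = p then ∑ r ∈ univ.erase q, R r q else R p q
  let v : Finset ι → ι → ZMod 2 := fun s p => if p ∈ s then 1 else 0
  have vinj : ∀ s s' : Finset ι, v s = v s' → s = s' := by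
    intro s s' he
    ext p
    have := congrFun he p
    by_cases c1 : p ∈ s <;> by_cases c2 : p ∈ s' <;> simp [v, c1, c2] at this ⊢
  have vsur : ∀ y : ι → ZMod 2, ∃ s, v s = y := by
    intro y
    refine ⟨univ.filter fun p => y p = 1, ?_⟩
    funext p
    show (if p ∈ univ.filter (fun p => y p = 1) then (1 : ZMod 2) else 0) = y p
    rcases h01 (y p) with c | c
    · rw [c, if_neg (by simp [c])]
    · rw [c, if_pos (by simp [c])]
  have hM : ∀ (s : Finset ι) (q : ι), M.mulVec (v s) q =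
      (∑ r ∈ univ.erase q, R r q) * v s q + ∑ p ∈ s.erase q, R p q := by
    intro s q
    rw [Matrix.mulVec, dotProduct, ← Finset.add_sum_erase _ _ (Finset.mem_univ q)]
    congr 1
    · show (if q = q then _ else _) * _ = _
      rw [if_pos rfl]
    · have e1 : ∑ x ∈ univ.erase q, M q x * v s x = ∑ x ∈ univ.erase q, if x ∈ s then R x q else 0 := by
        refine Finset.sum_congr rfl fun p hp => ?_
        show (if q = p then _ else _) * (if p ∈ s then _ else _) = _
        rw [if_neg (Finset.ne_of_mem_erase hp).symm]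
        split_ifs
        · rw [mul_one]
        · rw [mul_zero]
      rw [e1, ← Finset.sum_filter]
      congr 1
      ext p
      simp only [mem_filter, mem_erase, mem_univ, and_true]
  have hMT : ∀ (s : Finset ι) (q : ι), M.transpose.mulVec (v s) q =
      (∑ r ∈ univ.erase q, R r q) * v s q + ∑ p ∈ s.erase q, R q p := by
    intro s q
    rw [Matrix.mulVec, dotProduct, ← Finset.add_sum_erase _ _ (Finset.mem_univ q)]
    congr 1
    · show (if q = q then _ else _) * _ = _
      rw [if_pos rfl]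
    · have e1 : ∑ x ∈ univ.erase q, M.transpose q x * v s x =
          ∑ x ∈ univ.erase q, if x ∈ s then R q x else 0 := by
        refine Finset.sum_congr rfl fun p hp => ?_
        show (if p = q then _ else _) * (if p ∈ s then _ else _) = _
        rw [if_neg (Finset.ne_of_mem_erase hp)]
        split_ifs
        · rw [mul_one]
        · rw [mul_zero]
      rw [e1, ← Finset.sum_filter]
      congr 1
      ext p
      simp only [mem_filter, mem_erase, mem_univ, and_true]
  -- the rows have sum zero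
  have rows : ∀ p : ι, ∑ q, M p q = 0 := by
    intro p
    rw [← Finset.add_sum_erase _ _ (Finset.mem_univ p)]
    have e1 : M p p = ∑ r ∈ univ.erase p, R r p := if_pos rfl
    have e2 : ∑ x ∈ univ.erase p, M p x = ∑ r ∈ univ.erase p, R r p := by
      refine Finset.sum_congr rfl fun r hr => ?_
      exact if_neg (Finset.ne_of_mem_erase hr).symm
    rw [e1, e2]
    exact hcc _
  have tot : ∀ x : ι → ZMod 2, ∑ q, M.transpose.mulVec x q = 0 := by
    intro x
    have e1 : ∀ q, M.transpose.mulVec x q = ∑ p, M p q * x p := fun q => rfl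
    rw [Finset.sum_congr rfl fun q _ => e1 q, Finset.sum_comm]
    refine Finset.sum_eq_zero fun p _ => ?_
    rw [← Finset.sum_mul, rows, zero_mul]
  -- the vectors in the kernel of the transposed matrix
  have ker : ∀ s : Finset ι, (∀ q, q ≠ q0 → q ∉ s → ∑ p ∈ s, R q p = 0) →
      (∀ q, q ≠ q0 → q ∈ s → ∑ p ∈ univ.erase q, R p q + ∑ p ∈ s.erase q, R q p = 0) →
      M.transpose.mulVec (v s) = 0 := by
    intro s c1 c2
    have key : ∀ q, q ≠ q0 → M.transpose.mulVec (v s) q = 0 := by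
      intro q hq
      rw [hMT]
      by_cases hqs : q ∈ s
      · have h4 : v s q = 1 := by simp [v, hqs]
        rw [h4, mul_one]
        exact c2 q hq hqs
      · have h4 : v s q = 0 := by simp [v, hqs]
        rw [h4, mul_zero, zero_add, Finset.erase_eq_of_notMem hqs]
        exact c1 q hq hqs
    funext q
    by_cases hq : q = q0
    · have h3 := tot (v s)
      rw [← Finset.add_sum_erase _ _ (Finset.mem_univ q0), Finset.sum_eq_zero fun r hr =>
        key r (Finset.ne_of_mem_erase hr), add_zero] at h3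
      rw [hq]
      exact h3
    · exact key q hq
  have e0 : v ∅ = 0 := by
    funext p
    simp [v]
  have hT : ∀ x : ι → ZMod 2, M.transpose.transpose.mulVec x = 0 → x = 0 ∨ x = v univ := by
    intro x hx
    rw [Matrix.transpose_transpose] at hx
    obtain ⟨s, rfl⟩ := vsur x
    rw [← e0]
    rcases h s (fun q hq => by
        have h3 := congrFun hx q
        rw [hM, Finset.erase_eq_of_notMem hq] at h3
        have h4 : v s q = 0 := by simp [v, hq]
        rw [h4, mul_zero, zero_add] at h3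
        exact h3) (fun q hq => by
        have h3 := congrFun hx q
        rw [hM] at h3
        have h4 : v s q = 1 := by simp [v, hq]
        rw [h4, mul_one] at h3
        have h5 : ∑ r ∈ univ.erase q, R r q = ∑ p ∈ s.erase q, R p q + ∑ p ∈ sᶜ, R p q := by
          rw [← Finset.sum_union]
          · congr 1
            ext p
            simp only [mem_erase, mem_univ, and_true, mem_union, mem_compl]
            constructor
            · intro hp
              by_cases c : p ∈ s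
              · exact Or.inl ⟨hp, c⟩
              · exact Or.inr c
            · rintro (⟨hp, -⟩ | hp)
              · exact hp
              · rintro rfl
                exact hp hq
          · rw [Finset.disjoint_left]
            intro p hp hp'
            rw [mem_compl] at hp'
            exact hp' (mem_erase.1 hp).2
        rw [h5] at h3
        have h6 : ∀ a b : ZMod 2, a + b + a = 0 → b = 0 := by decide
        exact h6 _ _ h3) with h5 | h5
    · left; rw [h5]
    · right; rw [h5]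
  have hne : v s0 ≠ 0 := by
    obtain ⟨p, hp⟩ := hs0
    intro h3
    have h4 := congrFun h3 p
    have h5 : v s0 p = 1 := by simp [v, hp]
    rw [h5] at h4
    exact one_ne_zero (α := ZMod 2) h4
  rcases ker_transpose M.transpose (v univ) hT (v s0) hne (ker s0 k1 k2) (v s) (ker s h1 h2)
    with h3 | h3
  · left
    apply vinj
    rw [h3, e0]
  · right
    exact vinj _ _ h3

end lin

/-- the transposition for sets of natural numbers, reversed -/
theorem transNB (P : Finset ℕ) (q0 : ℕ) (hq0 : q0 ∈ P) (R : ℕ → ℕ → ZMod 2) (S0 : Finset ℕ)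
    (hS0 : S0 ⊆ P) (hne : S0.Nonempty)
    (k1 : ∀ q ∈ P, q ≠ q0 → q ∉ S0 → ∑ p ∈ S0, R q p = 0)
    (k2 : ∀ q ∈ P, q ≠ q0 → q ∈ S0 → ∑ p ∈ P.erase q, R p q + ∑ p ∈ S0.erase q, R q p = 0)
    (h : ∀ S : Finset ℕ, S ⊆ P → (∀ q ∈ P, q ∉ S → ∑ p ∈ S, R p q = 0) →
      (∀ q ∈ S, ∑ p ∈ P \ S, R p q = 0) → S = ∅ ∨ S = P)
    (S : Finset ℕ) (hS : S ⊆ P) (h1 : ∀ q ∈ P, q ≠ q0 → q ∉ S → ∑ p ∈ S, R q p = 0)
    (h2 : ∀ q ∈ P, q ≠ q0 → q ∈ S → ∑ p ∈ P.erase q, R p q + ∑ p ∈ S.erase q, R q p = 0) :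
    S = ∅ ∨ S = S0 := by
  classical
  set em : {p // p ∈ P} ↪ ℕ := Function.Embedding.subtype _ with hem
  have emv : ∀ p : {p // p ∈ P}, em p = p.1 := fun p => rfl
  have mem : ∀ (s : Finset {p // p ∈ P}) (q : {p // p ∈ P}), q.1 ∈ s.map em ↔ q ∈ s := by
    intro s q
    rw [← emv, Finset.mem_map' em]
  have sub : ∀ s : Finset {p // p ∈ P}, s.map em ⊆ P := by
    intro s p hp
    obtain ⟨q, -, rfl⟩ := Finset.mem_map.1 hp
    exact q.2
  have huniv : (univ : Finset {p // p ∈ P}).map em = P := by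
    ext p
    rw [Finset.mem_map]
    constructor
    · rintro ⟨q, -, rfl⟩
      exact q.2
    · intro hp
      exact ⟨⟨p, hp⟩, Finset.mem_univ _, rfl⟩
  have hsum : ∀ (s : Finset {p // p ∈ P}) (f : ℕ → ZMod 2), ∑ p ∈ s, f p.1 = ∑ p ∈ s.map em, f p := by
    intro s f
    rw [Finset.sum_map]
    rfl
  have hSm : ∀ T : Finset ℕ, T ⊆ P → (T.subtype (· ∈ P)).map em = T := by
    intro T hT
    ext p
    rw [Finset.mem_map]
    constructor
    · rintro ⟨q, hq, rfl⟩
      exact Finset.mem_subtype.1 hq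
    · intro hp
      exact ⟨⟨p, hT hp⟩, Finset.mem_subtype.2 hp, rfl⟩
  -- the conditions
  have c1 : ∀ T : Finset ℕ, T ⊆ P → (∀ q ∈ P, q ≠ q0 → q ∉ T → ∑ p ∈ T, R q p = 0) →
      ∀ q : {p // p ∈ P}, q ≠ ⟨q0, hq0⟩ → q ∉ T.subtype (· ∈ P) →
        ∑ p ∈ T.subtype (· ∈ P), R q.1 p.1 = 0 := by
    intro T hT hc q hq hqT
    rw [hsum _ (fun p => R q.1 p), hSm T hT]
    exact hc q.1 q.2 (fun h3 => hq (Subtype.ext h3)) (fun h3 => hqT (Finset.mem_subtype.2 h3))
  have c2 : ∀ T : Finset ℕ, T ⊆ P → (∀ q ∈ P, q ≠ q0 → q ∈ T →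
      ∑ p ∈ P.erase q, R p q + ∑ p ∈ T.erase q, R q p = 0) →
      ∀ q : {p // p ∈ P}, q ≠ ⟨q0, hq0⟩ → q ∈ T.subtype (· ∈ P) →
        ∑ p ∈ univ.erase q, R p.1 q.1 + ∑ p ∈ (T.subtype (· ∈ P)).erase q, R q.1 p.1 = 0 := by
    intro T hT hc q hq hqT
    rw [hsum (univ.erase q) (fun p => R p q.1), hsum ((T.subtype (· ∈ P)).erase q)
      (fun p => R q.1 p), Finset.map_erase, Finset.map_erase, huniv, hSm T hT]
    exact hc q.1 q.2 (fun h3 => hq (Subtype.ext h3)) (Finset.mem_subtype.1 hqT)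
  have key := transB (fun p q : {p // p ∈ P} => R p.1 q.1) ⟨q0, hq0⟩ (S0.subtype (· ∈ P)) (by
      obtain ⟨p, hp⟩ := hne
      exact ⟨⟨p, hS0 hp⟩, Finset.mem_subtype.2 hp⟩) (c1 S0 hS0 k1) (c2 S0 hS0 k2)
    (fun s d1 d2 => by
      rcases h (s.map em) (sub s) (fun q hq hqs => by
          have h3 := d1 ⟨q, hq⟩ (fun h4 => hqs ((mem s ⟨q, hq⟩).2 h4))
          rw [hsum s (fun p => R p q)] at h3
          exact h3) (fun q hq => by
          obtain ⟨q', hq', rfl⟩ := Finset.mem_map.1 hq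
          have h3 := d2 q' hq'
          rw [hsum sᶜ (fun p => R p q'.1), Finset.compl_eq_univ_sdiff, Finset.map_sdiff,
            huniv] at h3
          exact h3) with h3 | h3
      · left
        exact Finset.map_eq_empty.1 h3
      · right
        exact Finset.map_injective em (h3.trans huniv.symm)) (S.subtype (· ∈ P)) (c1 S hS h1) (c2 S hS h2)
  rcases key with h3 | h3
  · left
    rw [← hSm S hS, h3, Finset.map_empty]
  · right
    rw [← hSm S hS, h3, hSm S0 hS0]

/-- the conditions in terms of sums -/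
theorem cond_of_loc {m d : ℤ} (hs : Squarefree m) (hd : 0 < d) (hds : Squarefree d)
    (hsup : ∀ p : ℕ, p.Prime → (p : ℤ) ∣ d → Ram m p)
    (hloc : ∀ (p : ℕ) [Fact p.Prime], p ≠ 2 → (p : ℤ) ∣ m →
      IsSquare (d : ℚ_[p]) ∨ IsSquare ((d : ℚ_[p]) * (-m))) (q : ℕ) (hqP : q ∈ PR m)
    (hq2 : q ≠ 2) :
    (q ∉ d.natAbs.primeFactors → ∑ p ∈ d.natAbs.primeFactors, ra p (ps m q) = 0) ∧
    (q ∈ d.natAbs.primeFactors → ∑ p ∈ (PR m).erase q, ra q (ps m p) +
      ∑ p ∈ d.natAbs.primeFactors.erase q, ra p (ps m q) = 0) := by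
  have hm0 := hs.ne_zero
  have hd0 := hds.ne_zero
  have hpr : ∀ p ∈ PR m, p.Prime := fun p hp => ((mem_PR hm0).1 hp).1
  set S := d.natAbs.primeFactors with hSdef
  have hmemS : ∀ p : ℕ, p ∈ S ↔ p.Prime ∧ (p : ℤ) ∣ d := by
    intro p
    rw [hSdef, Nat.mem_primeFactors, Int.natCast_dvd]
    have := Int.natAbs_ne_zero.2 hd0
    tauto
  have hS : S ⊆ PR m := fun p hp => (mem_PR hm0).2
    ⟨((hmemS p).1 hp).1, hsup p ((hmemS p).1 hp).1 ((hmemS p).1 hp).2⟩
  have hdprod : ∏ p ∈ S, ((p : ℕ) : ℤ) = d := by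
    have h1 := Nat.prod_primeFactors_of_squarefree (Int.squarefree_natAbs.2 hds)
    have h2 : ((∏ p ∈ S, p : ℕ) : ℤ) = ((d.natAbs : ℕ) : ℤ) := congrArg (Nat.cast : ℕ → ℤ) h1
    rw [Int.natAbs_of_nonneg hd.le] at h2
    rw [← h2]
    push_cast
    rfl
  have hq : q.Prime := hpr q hqP
  have hqf : Fact q.Prime := ⟨hq⟩
  have hrec : ∀ T : Finset ℕ, T ⊆ PR m →
      ∑ p ∈ T, ra p (ps m q) = ∑ p ∈ T, ra q ((p : ℕ) : ℤ) := by
    intro T hT
    refine Finset.sum_congr rfl fun p hp => ?_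
    unfold ra
    rw [ps_odd hq2, recip_ch (hpr p (hT hp)) hq hq2, ch_odd hq2]
  have hqm : (q : ℤ) ∣ m := by
    rcases ((mem_PR hm0).1 hqP).2 with h | h
    · exact h
    · exact absurd h.1 hq2
  constructor
  · intro hqS
    have g2 : ∀ p ∈ S, Gd q ((p : ℕ) : ℤ) := fun p hp =>
      gd_nat (hpr p (hS hp)) hq hq2 (fun h => hqS (h ▸ hp))
    rw [hrec S hS, sum_ra hq _ _ g2, ch_iff (gd_prod hq _ _ g2), hdprod]
    have hqd : ¬ (q : ℤ) ∣ d := fun h => hqS ((hmemS q).2 ⟨hq, h⟩)
    refine (hloc q hq2 hqm).resolve_right fun h3 => ?_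
    have hd0' : (d : ℚ_[q]) ≠ 0 := by exact_mod_cast hd0
    have hm0' : (((-m : ℤ)) : ℚ_[q]) ≠ 0 := by exact_mod_cast neg_ne_zero.2 hm0
    have h4 : IsSquare ((d : ℚ_[q]) * (((-m : ℤ)) : ℚ_[q])) := by
      push_cast
      exact h3
    have h5 := even_val (mul_ne_zero hd0' hm0') h4
    have hsm : Squarefree (-m) := fun x hx => hs x (by rwa [dvd_neg] at hx)
    rw [Padic.valuation_mul hd0' hm0', val_zero hqd, val_one ((dvd_neg).2 hqm) hsm] at h5
    exact absurd h5 (by decide)
  · intro hqS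
    have g1 : ∀ p ∈ (PR m).erase q, Gd q (ps m p) := fun p hp =>
      gd_ps hs (hpr p (Finset.mem_of_mem_erase hp)) hq (Finset.ne_of_mem_erase hp)
    have g2 : ∀ p ∈ S.erase q, Gd q ((p : ℕ) : ℤ) := fun p hp =>
      gd_nat (hpr p (hS (Finset.mem_of_mem_erase hp))) hq hq2 (Finset.ne_of_mem_erase hp)
    rw [hrec (S.erase q) ((Finset.erase_subset _ _).trans hS), ← sg_inj, sg_add,
      sg_sum_ra hq _ _ g1, sg_sum_ra hq _ _ g2,
      ← ch_mul (gd_prod hq _ _ g1) (gd_prod hq _ _ g2),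
      ch_iff (gd_mul hq (gd_prod hq _ _ g1) (gd_prod hq _ _ g2))]
    have e1 : ps m q * ∏ p ∈ (PR m).erase q, ps m p = m := by
      rw [Finset.mul_prod_erase _ _ hqP, prod_PR hs]
    have e2 : ((q : ℕ) : ℤ) * ∏ p ∈ S.erase q, ((p : ℕ) : ℤ) = d := by
      rw [Finset.mul_prod_erase _ (fun p : ℕ => ((p : ℕ) : ℤ)) hqS, hdprod]
    have hneg : IsSquare (((-(sgp q * q) : ℤ)) : ℚ_[q]) := by
      unfold sgp
      split_ifs with h6
      · have h7 : IsSquare ((-1 : ℤ) : ℚ_[q]) := by
          refine sq_of_zmod hq2 ?_ ?_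
          · intro h8
            have h9 : q ∣ 1 := by
              rw [dvd_neg] at h8
              exact_mod_cast h8
            exact hq.one_lt.ne' (Nat.dvd_one.1 h9)
          · push_cast
            rw [ZMod.exists_sq_eq_neg_one_iff]
            omega
        have e3 : (((-((q : ℤ) * q) : ℤ)) : ℚ_[q]) = ((-1 : ℤ) : ℚ_[q]) * (q * q) := by
          push_cast
          ring
        rw [e3]
        exact h7.mul (IsSquare.mul_self _)
      · have e3 : (((-(-(q : ℤ) * q) : ℤ)) : ℚ_[q]) = (q : ℚ_[q]) * q := by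
          push_cast
          ring
        rw [e3]
        exact IsSquare.mul_self _
    have e4 : ((d : ℤ) : ℚ_[q]) * (-(m : ℚ_[q])) = (((-(sgp q * q) : ℤ)) : ℚ_[q]) *
        ((((∏ p ∈ (PR m).erase q, ps m p) * ∏ p ∈ S.erase q, ((p : ℕ) : ℤ) : ℤ)) : ℚ_[q]) := by
      rw [← ps_odd (m := m) hq2]
      have : d * (-m) = (-(ps m q * q)) * ((∏ p ∈ (PR m).erase q, ps m p) *
        ∏ p ∈ S.erase q, ((p : ℕ) : ℤ)) := by
        rw [← e2]
        conv_lhs => rw [← e1]
        ring
      exact_mod_cast this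
    have hqd : (q : ℤ) ∣ d := ((hmemS q).1 hqS).2
    have h3 := (hloc q hq2 hqm).resolve_left (not_sq hds hqd)
    rw [e4] at h3
    refine sq_cancel ?_ hneg h3
    have h5 : (-(sgp q * q) : ℤ) ≠ 0 := by
      have h6 : sgp q ≠ 0 := by
        intro h7
        have := sgp_abs q
        rw [h7] at this
        exact hq.ne_zero this.symm
      have h7 : (q : ℤ) ≠ 0 := by exact_mod_cast hq.ne_zero
      exact neg_ne_zero.2 (mul_ne_zero h6 h7)
    exact_mod_cast h5

/-- a product of generators equal to one is empty -/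
lemma prod_one {m : ℤ} (hs : Squarefree m) {S : Finset ℕ} (hS : S ⊆ PR m)
    (h : ∏ p ∈ S, ps m p = 1) : S = ∅ := by
  have hm0 := hs.ne_zero
  rw [Finset.eq_empty_iff_forall_notMem]
  have hodd : ∀ p ∈ S, p = 2 := by
    intro p hp
    by_contra hp2
    have h1 : ps m p ∣ 1 := by
      rw [← h]
      exact Finset.dvd_prod_of_mem _ hp
    rw [ps_odd hp2] at h1
    have h2 := Int.natAbs_dvd_natAbs.2 h1
    rw [sgp_abs] at h2
    have h3 := ((mem_PR hm0).1 (hS hp)).1
    exact h3.one_lt.ne' (Nat.dvd_one.1 h2)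
  intro p hp
  have hp2 := hodd p hp
  subst hp2
  have hS2 : S = {2} := by
    ext q
    rw [Finset.mem_singleton]
    constructor
    · exact hodd q
    · rintro rfl
      exact hp
  rw [hS2, Finset.prod_singleton, ps_two] at h
  have h4 := (two_mem_PR hm0).1 (hS hp)
  obtain ⟨e1, e2⟩ := d2_spec hs
  have h5 := Pool.Agent.N875.X15.oe_mod m
  rw [h, one_mul] at e1
  omega

/-- **No nontrivial decomposition of the second kind implies no nontrivial ramified norm.** -/
theorem nc_of_rc {m : ℤ} (hm : m < -1) (hs : Squarefree m) (hR : RC m) : NC m := by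
  classical
  have hm0 := hs.ne_zero
  have hpr : ∀ p ∈ PR m, p.Prime := fun p hp => ((mem_PR hm0).1 hp).1
  have hsm : Squarefree (-m) := fun x hx => hs x (by rwa [dvd_neg] at hx)
  -- an index
  obtain ⟨q0, hq0, hq0'⟩ : ∃ q0 ∈ PR m, ∀ q ∈ PR m, q ≠ q0 → q ≠ 2 := by
    by_cases h2 : 2 ∈ PR m
    · exact ⟨2, h2, fun q _ h => h⟩
    · obtain ⟨q, hq⟩ := Pool.Agent.N875.X15.PR_ne (m := m) (by omega)
      exact ⟨q, hq, fun r hr _ h3 => h2 (h3 ▸ hr)⟩
  have hS0P : (-m).natAbs.primeFactors ⊆ PR m := by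
    intro p hp
    rw [Nat.mem_primeFactors, Int.natAbs_neg] at hp
    exact (mem_PR hm0).2 ⟨hp.1, Or.inl (Int.natCast_dvd.2 hp.2.1)⟩
  have hS0 := cond_of_loc hs (d := -m) (by omega) hsm (fun p _ hp => Or.inl ((dvd_neg).1 hp))
    (fun p _ _ _ => by
      right
      push_cast
      exact IsSquare.mul_self _)
  have hne : (-m).natAbs.primeFactors.Nonempty := by
    rw [Nat.nonempty_primeFactors]
    omega
  -- the hypothesis in terms of sets
  have hRC : ∀ S : Finset ℕ, S ⊆ PR m → (∀ q ∈ PR m, q ∉ S → ∑ p ∈ S, ra q (ps m p) = 0) →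
      (∀ q ∈ S, ∑ p ∈ PR m \ S, ra q (ps m p) = 0) → S = ∅ ∨ S = PR m := by
    intro S hS h1 h2
    set e : ℤ := ∏ p ∈ S, ps m p with he
    set f : ℤ := ∏ p ∈ PR m \ S, ps m p with hf
    have hef : e * f = m := by
      rw [he, hf, mul_comm, Finset.prod_sdiff hS, prod_PR hs]
    have hem : e ∣ m := ⟨f, hef.symm⟩
    have hes : Squarefree e := hs.squarefree_of_dvd hem
    have hgS : ∀ q ∈ PR m, q ∉ S → ∀ p ∈ S, Gd q (ps m p) := fun q hq hqS p hp =>
      gd_ps hs (hpr p (hS hp)) (hpr q hq) (fun h => hqS (h ▸ hp))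
    rcases hR e hes (fun p _ hpe => Or.inl (hpe.trans hem)) (fun h4 => by
        have h2P : 2 ∉ PR m := fun h => (two_mem_PR hm0).1 h h4
        rw [← gd_two]
        refine gd_prod Nat.prime_two _ _ fun p hp => ?_
        exact gd_ps hs (hpr p (hS hp)) Nat.prime_two (fun h => h2P (h ▸ hS hp)))
      (fun q hqf hram => by
        have hq := hqf.out
        have hqP : q ∈ PR m := (mem_PR hm0).2 ⟨hq, hram⟩
        by_cases hqS : q ∈ S
        · right
          have g : ∀ p ∈ PR m \ S, Gd q (ps m p) := fun p hp =>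
            gd_ps hs (hpr p (Finset.mem_sdiff.1 hp).1) hq
              (fun h => (Finset.mem_sdiff.1 hp).2 (h ▸ hqS))
          have h3 := h2 q hqS
          rw [sum_ra hq _ _ g, ch_iff (gd_prod hq _ _ g)] at h3
          have e5 : (e : ℚ_[q]) * m = (e * e) * (f : ℚ_[q]) := by
            have : (m : ℚ_[q]) = e * f := by
              rw [← hef]
              push_cast
              rfl
            rw [this]
            ring
          rw [e5]
          exact (IsSquare.mul_self _).mul h3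
        · left
          have g := hgS q hqP hqS
          have h3 := h1 q hqP hqS
          rw [sum_ra hq _ _ g, ch_iff (gd_prod hq _ _ g)] at h3
          exact h3) with h3 | h3
    · left
      exact prod_one hs hS h3
    · right
      have h4 : f = 1 := by
        have h5 : m * f = m * 1 := by
          rw [mul_one]
          nth_rewrite 1 [← h3]
          exact hef
        exact mul_left_cancel₀ hm0 h5
      have h5 := prod_one hs (Finset.sdiff_subset) h4
      exact Finset.Subset.antisymm hS (Finset.sdiff_eq_empty_iff_subset.1 h5)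
  intro d hd hds hsup hloc
  have hd0 := hds.ne_zero
  have hc := cond_of_loc hs hd hds hsup hloc
  have hSP : d.natAbs.primeFactors ⊆ PR m := by
    intro p hp
    rw [Nat.mem_primeFactors] at hp
    exact (mem_PR hm0).2 ⟨hp.1, hsup p hp.1 (Int.natCast_dvd.2 hp.2.1)⟩
  rcases transNB (PR m) q0 hq0 (fun p q => ra q (ps m p)) (-m).natAbs.primeFactors hS0P hne
    (fun q hq hqq h => (hS0 q hq (hq0' q hq hqq)).1 h)
    (fun q hq hqq h => (hS0 q hq (hq0' q hq hqq)).2 h) hRC d.natAbs.primeFactors hSP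
    (fun q hq hqq h => (hc q hq (hq0' q hq hqq)).1 h)
    (fun q hq hqq h => (hc q hq (hq0' q hq hqq)).2 h) with h | h
  · left
    rw [Nat.primeFactors_eq_empty] at h
    omega
  · right
    have h1 := Nat.prod_primeFactors_of_squarefree (Int.squarefree_natAbs.2 hds)
    have h2 := Nat.prod_primeFactors_of_squarefree (Int.squarefree_natAbs.2 hsm)
    rw [h, h2] at h1
    omega

end Pool.Agent.N637.P21
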