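import Pool.Agent.N637.P21.Conv
import Pool.Agent.N637.P21.RcN
import Pool.Agent.N875.X15.Main
import Pool.Agent.N875.X15.Even
import Pool.Agent.N877.P21.Defs
import Pool.Agent.N373.P24.Main

/-!
# The algebraic side: `E_m(ℚ)` finite and `Ш[2] = 0` if and only if the elementary condition holds

`E_m : y² = x (x - 9 m) (x + 7 m)` is the twist by `m` of the curve `21a1`; `m = -n` for the odd
fundamental discriminants `-n` and `m = -n / 4` for the even ones.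
-/

set_option autoImplicit false

namespace Pool.Agent.N637.P21

open WeierstrassCurve
open Pool.Agent.TH841.SH.D (Sha)
open Pool.Agent.H437R2.Man.MW (crv pt_fg)
open Pool.Agent.N875.X15 (RC NC fin_of_rank nc_of rc_of rc_of_nc nc_iff_Qe qc_P15 Fin2 fin2_pow)
open Pool.Agent.N969.P15 (Ev Qe Qc)
open Pool.Agent.N877.P21 (Sp7 Cls0 Cls0e Cl7 Cl7e Cl21 Cl21e Cl3 Cl3e)

open scoped Classical in
lemma fg_E {m : ℤ} (hm : m ≠ 0) : AddGroup.FG (EQm m).toAffine.Point := by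
  have h := isR m
  have hm' : (m : ℚ) ≠ 0 := by exact_mod_cast hm
  have hW : EQm m = crv (-(((0 : ℤ)) : ℚ)) (-((9 * m : ℤ) : ℚ)) (-((-7 * m : ℤ) : ℚ)) := by
    apply WeierstrassCurve.ext
    · rw [h.h1]
      rfl
    · rw [h.h2]
      show _ = -(((0 : ℤ)) : ℚ) + -((9 * m : ℤ) : ℚ) + -((-7 * m : ℤ) : ℚ)
      ring
    · rw [h.h3]
      rfl
    · rw [h.h4]
      show _ = -(((0 : ℤ)) : ℚ) * -((9 * m : ℤ) : ℚ) + -(((0 : ℤ)) : ℚ) * -((-7 * m : ℤ) : ℚ) +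
        -((9 * m : ℤ) : ℚ) * -((-7 * m : ℤ) : ℚ)
      ring
    · rw [h.h6]
      show _ = -(((0 : ℤ)) : ℚ) * -((9 * m : ℤ) : ℚ) * -((-7 * m : ℤ) : ℚ)
      ring
  rw [hW]
  refine pt_fg ?_ ?_ ?_
  · intro h1
    apply hm'
    push_cast at h1
    linear_combination (1 / 9 : ℚ) * h1
  · intro h1
    apply hm'
    push_cast at h1
    linear_combination (-1 / 7 : ℚ) * h1
  · intro h1
    apply hm'
    push_cast at h1
    linear_combination (-1 / 16 : ℚ) * h1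

theorem finite_of_crit {m : ℤ} (hm : Cls m) (hR : RC m) (hN : NC m) :
    Finite (EQm m).toAffine.Point ∧
    ∀ (k : ℕ) (x : Sha (EQm m)), (2 ^ k : ℕ) • x = 0 → x = 0 := by
  obtain ⟨h1, h2⟩ := rank_sha hm hR hN
  exact ⟨fin_of_rank (fg_E hm.neg.ne) h1, h2⟩

/-- `NC m` implies that the rank is zero and that `Ш[2^∞] = 0`. -/
theorem rank_sha_of_nc {m : ℤ} (hm : Cls m) (hN : NC m) : Finite (EQm m).toAffine.Point ∧
    ∀ (k : ℕ) (x : Sha (EQm m)), (2 ^ k : ℕ) • x = 0 → x = 0 :=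
  finite_of_crit hm (rc_of_nc hm.neg hm.sqf hN) hN

lemma Cls.lt {m : ℤ} (hm : Cls m) : m < -1 := by
  have h1 := hm.neg
  have h2 := hm.m7
  omega

/-- **The criterion.** -/
theorem fin2_iff_nc {m : ℤ} (hm : Cls m) : Fin2 (EQm m) ↔ NC m := by
  constructor
  · rintro ⟨h1, h2⟩
    exact nc_of_rc hm.lt hm.sqf (rc_of_fin hm h1 h2)
  · intro h
    obtain ⟨h1, h2⟩ := finite_of_crit hm (rc_of_nc hm.neg hm.sqf h) h
    refine ⟨h1, fun x hx => h2 1 x ?_⟩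
    rw [pow_one, two_nsmul]
    exact hx

/-- odd discriminants of the class -/
def Ao (n : ℕ) : Prop := Squarefree n ∧ n % 4 = 3 ∧ n % 3 ≠ 2 ∧
  (n % 7 = 0 ∨ n % 7 = 3 ∨ n % 7 = 5 ∨ n % 7 = 6)

/-- even discriminants of the class -/
def Ae (n : ℕ) : Prop := Ev n ∧ n % 3 ≠ 2 ∧ (n % 7 = 0 ∨ n % 7 = 3 ∨ n % 7 = 5 ∨ n % 7 = 6)

lemma ao_of0 {n : ℕ} (h : Cls0 n) : Ao n := by
  obtain ⟨h1, h2, h3, h4⟩ := h
  exact ⟨h1, h2, by omega, Or.inr h4⟩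

lemma ao_of7 {n : ℕ} (h : Cl7 n) : Ao n := by
  obtain ⟨h1, h2, h3, h4⟩ := h
  exact ⟨h1, h2, by omega, by omega⟩

lemma ao_of21 {n : ℕ} (h : Cl21 n) : Ao n := by
  obtain ⟨h1, h2, h3, h4⟩ := h
  exact ⟨h1, h2, by omega, by omega⟩

lemma ao_of3 {n : ℕ} (h : Cl3 n) : Ao n := by
  obtain ⟨h1, h2, h3, h4⟩ := h
  exact ⟨h1, h2, by omega, Or.inr h3⟩

lemma ao_cases {n : ℕ} (h : Ao n) : Cls0 n ∨ Cl7 n ∨ Cl21 n ∨ Cl3 n := by
  obtain ⟨h1, h2, h3, h4⟩ := h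
  rcases (by omega : n % 3 = 0 ∨ n % 3 = 1) with h5 | h5
  · rcases h4 with h4 | h4
    · exact Or.inr (Or.inr (Or.inl ⟨h1, h2, Nat.dvd_of_mod_eq_zero h4, Nat.dvd_of_mod_eq_zero h5⟩))
    · exact Or.inr (Or.inr (Or.inr ⟨h1, h2, h4, Nat.dvd_of_mod_eq_zero h5⟩))
  · rcases h4 with h4 | h4
    · exact Or.inr (Or.inl ⟨h1, h2, Nat.dvd_of_mod_eq_zero h4, h5⟩)
    · exact Or.inl ⟨h1, h2, h5, h4⟩

lemma ae_of0 {n : ℕ} (h : Cls0e n) : Ae n := by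
  obtain ⟨h1, h2, h3⟩ := h
  exact ⟨h1, by omega, Or.inr h3⟩

lemma ae_of7 {n : ℕ} (h : Cl7e n) : Ae n := by
  obtain ⟨h1, h2, h3⟩ := h
  exact ⟨h1, by omega, by omega⟩

lemma ae_of21 {n : ℕ} (h : Cl21e n) : Ae n := by
  obtain ⟨h1, h2, h3⟩ := h
  exact ⟨h1, by omega, by omega⟩

lemma ae_of3 {n : ℕ} (h : Cl3e n) : Ae n := by
  obtain ⟨h1, h2, h3⟩ := h
  exact ⟨h1, by omega, Or.inr h2⟩

lemma ae_cases {n : ℕ} (h : Ae n) : Cls0e n ∨ Cl7e n ∨ Cl21e n ∨ Cl3e n := by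
  obtain ⟨h1, h3, h4⟩ := h
  rcases (by omega : n % 3 = 0 ∨ n % 3 = 1) with h5 | h5
  · rcases h4 with h4 | h4
    · exact Or.inr (Or.inr (Or.inl ⟨h1, Nat.dvd_of_mod_eq_zero h4, Nat.dvd_of_mod_eq_zero h5⟩))
    · exact Or.inr (Or.inr (Or.inr ⟨h1, h4, Nat.dvd_of_mod_eq_zero h5⟩))
  · rcases h4 with h4 | h4
    · exact Or.inr (Or.inl ⟨h1, Nat.dvd_of_mod_eq_zero h4, h5⟩)
    · exact Or.inl ⟨h1, h5, h4⟩

lemma cls_ao {n : ℕ} (h : Ao n) : Cls (-(n : ℤ)) := by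
  obtain ⟨h1, h2, h3, h4⟩ := h
  refine ⟨?_, ?_, by omega, by omega⟩
  · have := h1.ne_zero
    omega
  · intro x hx
    rw [dvd_neg] at hx
    exact Int.squarefree_natCast.2 h1 x hx

lemma cls_ae {n : ℕ} (h : Ae n) : Cls (-((n / 4 : ℕ) : ℤ)) := by
  obtain ⟨⟨m, rfl, hs, h4⟩, h3, h5⟩ := h
  have e4 : 4 * m / 4 = m := by omega
  rw [e4]
  refine ⟨?_, ?_, by omega, by omega⟩
  · have := hs.ne_zero
    omega
  · intro x hx
    rw [dvd_neg] at hx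
    exact Int.squarefree_natCast.2 hs x hx

/-- the condition for odd discriminants -/
theorem nc_iff_Qc {n : ℕ} (hn : Squarefree n) (h4 : n % 4 = 3) : NC (-(n : ℤ)) ↔ Qc n := by
  rw [qc_P15 hn.ne_zero]
  exact ⟨Pool.Agent.N875.X15.qc_of_nc hn h4, nc_of hn h4⟩

/-- **Odd discriminants**: the criterion. -/
theorem crit_ao {n : ℕ} (h : Ao n) : Fin2 (EQm (-(n : ℤ))) ↔ Qc n := by
  rw [fin2_iff_nc (cls_ao h), nc_iff_Qc h.1 h.2.1]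

/-- **Even discriminants**: the criterion. -/
theorem crit_ae {n : ℕ} (h : Ae n) : Fin2 (EQm (-((n / 4 : ℕ) : ℤ))) ↔ Qe n := by
  rw [fin2_iff_nc (cls_ae h), nc_iff_Qe h.1]

/-- **Odd discriminants**: `Ш[2^∞] = 0`. -/
theorem sha_ao {n : ℕ} (h : Ao n) (hQ : Qc n) (k : ℕ) (x : Sha (EQm (-(n : ℤ))))
    (hx : (2 ^ k : ℕ) • x = 0) : x = 0 := fin2_pow ((crit_ao h).2 hQ) k x hx

/-- **Even discriminants**: `Ш[2^∞] = 0`. -/
theorem sha_ae {n : ℕ} (h : Ae n) (hQ : Qe n) (k : ℕ) (x : Sha (EQm (-((n / 4 : ℕ) : ℤ))))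
    (hx : (2 ^ k : ℕ) • x = 0) : x = 0 := fin2_pow ((crit_ae h).2 hQ) k x hx

end Pool.Agent.N637.P21
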