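import Pool.Agent.N637.P21.Ap
import Pool.Agent.N637.P21.MinE
import Pool.Agent.N975.ChE2
import Pool.Agent.N875.X15.Conv3

/-!
# The coefficients `a_p` of the twists of `21a1` by all negative discriminants
-/

set_option autoImplicit false

open scoped Classical

namespace Pool.Agent.N637.P21

open Pool.Agent.W97.MT (affCount ap)
open Pool.Agent.N969.P15 (Ev chE un)

open Pool.Agent.N975.ChE in
/-- **The coefficients of the twist by `-n`, `n = 4 m`.** -/
theorem ap_E {n : ℕ} (hE : Ev n) (p : ℕ) (hp : p.Prime) :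
    ap (Em (-((n / 4 : ℕ) : ℤ))) p = ap E21 p * chE n p := by
  have : Fact p.Prime := ⟨hp⟩
  have hn := ev_mod hE
  by_cases hp2 : p = 2
  · subst hp2
    rw [ap_Em_two, chE_zero hn (by
      intro h
      have h2 : 2 ∣ n := by omega
      have := Nat.eq_one_of_dvd_coprimes h dvd_rfl h2
      norm_num at this), mul_zero]
  · by_cases hd : (p : ℤ) ∣ -((n / 4 : ℕ) : ℤ)
    · rw [ap_Em_dvd p hp2 hd]
      have hd' : p ∣ n := by
        rw [dvd_neg] at hd
        have h1 : p ∣ n / 4 := by exact_mod_cast hd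
        have e : n = 4 * (n / 4) := by omega
        rw [e]
        exact h1.mul_left 4
      rw [chE_zero hn (fun h => hp.one_lt.ne' (Nat.eq_one_of_dvd_coprimes h dvd_rfl hd')), mul_zero]
    · rw [ap_Em_ndvd p hp2 hd, chE_prime hE hp hp2, mul_comm]

theorem dvd_Δ {n : ℕ} (h4 : n % 4 = 3) {p : ℕ} (hp : p.Prime) :
    (p : ℤ) ∣ (WN (-(n : ℤ))).Δ ↔ p ∣ 21 ∨ p ∣ n := by
  rw [WN_Δ (by omega)]
  have e : ((3 : ℤ) ^ 4 * 7 ^ 2 * (-(n : ℤ)) ^ 6) = ((3 ^ 4 * 7 ^ 2 * n ^ 6 : ℕ) : ℤ) := by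
    push_cast; ring
  rw [e, Int.natCast_dvd_natCast, hp.dvd_mul, hp.dvd_mul]
  constructor
  · rintro ((h | h) | h)
    · exact Or.inl ((hp.dvd_of_dvd_pow h).trans (by norm_num))
    · exact Or.inl ((hp.dvd_of_dvd_pow h).trans (by norm_num))
    · exact Or.inr (hp.dvd_of_dvd_pow h)
  · rintro (h | h)
    · rw [show (21 : ℕ) = 3 * 7 by norm_num, hp.dvd_mul] at h
      rcases h with h | h
      · exact Or.inl (Or.inl (dvd_pow h (by norm_num)))
      · exact Or.inl (Or.inr (dvd_pow h (by norm_num)))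
    · exact Or.inr (dvd_pow h (by norm_num))

/-- the torsion subgroup, even discriminants -/
theorem tors_E {n : ℕ} (h : Ae n) : ∃ t : ℕ, Odd t ∧
    Nat.card (AddCommGroup.torsion (EQm (-((n / 4 : ℕ) : ℤ))).toAffine.Point) = 4 * t := by
  have hcl := cls_ae h
  refine tors_Em hcl.neg ?_
  intro hsq
  have h1 : IsSquare (((1 : ℕ) : ℚ) * ((n / 4 : ℕ) : ℚ)) := by
    have e9 : (-(((-((n / 4 : ℕ) : ℤ)) : ℤ) : ℚ)) = ((1 : ℕ) : ℚ) * ((n / 4 : ℕ) : ℚ) := by
      rw [Int.cast_neg, neg_neg, Int.cast_natCast, Nat.cast_one, one_mul]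
    rwa [e9] at hsq
  have hsM : Squarefree (n / 4) := by
    rw [← Int.squarefree_natCast]
    intro x hx
    exact hcl.sqf x (by rwa [dvd_neg])
  have h2 := Pool.Agent.N875.X15.eq_of_sq_mul squarefree_one hsM h1
  have := hcl.m7
  rw [← h2] at this
  norm_num at this

end Pool.Agent.N637.P21
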