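import Pool.Agent.N637.P21.Min
import Pool.Agent.N875.X15.Per

/-!
# The real period of the twists of `21a1` by negative discriminants
-/

set_option autoImplicit false

namespace Pool.Agent.N637.P21

open Set Filter Topology PeriodPair MeasureTheory
open Pool.Agent.Y702.G (cubic)
open Pool.Agent.N875.X15 (sc mem_sc g2_sc g3_sc)

/-- **The real period of the twists by negative discriminants `-n`.** -/
theorem per_neg (L : PeriodPair) (Op Om : ℝ) (hOp : 0 < Op) (hOm : 0 < Om)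
    (hg2 : L.g₂ = 193 / 12) (hg3 : L.g₃ = 575 / 216)
    (hL : ∀ w : ℂ, w ∈ L.lattice ↔ ∃ a b : ℤ, w = a * Op + b * Om * Complex.I)
    (n : ℕ) (hn : 0 < n) (W : WeierstrassCurve ℤ) (h4 : W.c₄ = 193 * (n : ℤ) ^ 2)
    (h6 : W.c₆ = -(575 * (n : ℤ) ^ 3)) :
    ∫ x in {x : ℝ | 0 < cubic W x}, 1 / √(cubic W x) = Om / √n := by
  have hn0 : (0 : ℝ) < n := by exact_mod_cast hn
  have hs : (0 : ℝ) < √n := Real.sqrt_pos.2 hn0
  have hs2 : (√(n : ℝ)) ^ 2 = n := Real.sq_sqrt hn0.le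
  have hsC : ((√(n : ℝ) : ℝ) : ℂ) ^ 2 = (n : ℂ) := by
    rw [← Complex.ofReal_pow, hs2]
    simp
  have hs0 : ((√(n : ℝ) : ℝ) : ℂ) ≠ 0 := by exact_mod_cast hs.ne'
  have hnC : (n : ℂ) ≠ 0 := by exact_mod_cast hn.ne'
  set c : ℂ := Complex.I / ((√(n : ℝ) : ℝ) : ℂ) with hc
  have hc0 : c ≠ 0 := div_ne_zero Complex.I_ne_zero hs0
  have c2 : c ^ 2 = -(1 / (n : ℂ)) := by
    rw [hc, div_pow, hsC, Complex.I_sq]
    ring
  have c4 : c ^ 4 = 1 / (n : ℂ) ^ 2 := by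
    have : c ^ 4 = (c ^ 2) ^ 2 := by ring
    rw [this, c2]
    ring
  have c6 : c ^ 6 = -(1 / (n : ℂ) ^ 3) := by
    have : c ^ 6 = (c ^ 2) ^ 3 := by ring
    rw [this, c2]
    ring
  refine Pool.Agent.R425.P.s_perrP W (sc c hc0 L) (Om / √n) (Op / √n) (div_pos hOm hs)
    (div_pos hOp hs) ?_ ?_ ?_
  · rw [g2_sc, hg2, h4, c4]
    push_cast
    field_simp
  · rw [g3_sc, hg3, h6, c6]
    push_cast
    field_simp
  · intro w
    rw [mem_sc]
    constructor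
    · rintro ⟨l, hl, rfl⟩
      obtain ⟨a, b, rfl⟩ := (hL _).1 hl
      refine ⟨-b, a, ?_⟩
      rw [hc]
      push_cast
      field_simp
      linear_combination (b * Om : ℂ) * Complex.I_sq
    · rintro ⟨a, b, rfl⟩
      refine ⟨b * Op + (-a : ℤ) * Om * Complex.I, (hL _).2 ⟨b, -a, rfl⟩, ?_⟩
      rw [hc]
      push_cast
      field_simp
      linear_combination (a * Om : ℂ) * Complex.I_sq

/-- the real period of the twist by `-n`, `n = 3 mod 4` -/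
theorem per_WN (L : PeriodPair) (Op Om : ℝ) (hOp : 0 < Op) (hOm : 0 < Om)
    (hg2 : L.g₂ = 193 / 12) (hg3 : L.g₃ = 575 / 216)
    (hL : ∀ w : ℂ, w ∈ L.lattice ↔ ∃ a b : ℤ, w = a * Op + b * Om * Complex.I)
    (n : ℕ) (h4 : n % 4 = 3) :
    ∫ x in {x : ℝ | 0 < cubic (WN (-(n : ℤ))) x}, 1 / √(cubic (WN (-(n : ℤ))) x) = Om / √n := by
  refine per_neg L Op Om hOp hOm hg2 hg3 hL n (by omega) _ ?_ ?_
  · rw [c4_WN (by omega)]
    ring
  · rw [c6_WN (by omega)]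
    ring

end Pool.Agent.N637.P21
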