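import Pool.Agent.N974.Gen.S21

/-!
# The odd symbol of level 21 for the given period lattice

The same proof as that of `exists_symb21` (helper974), where the factor is given.
-/

set_option autoImplicit false
set_option linter.unusedSectionVars false

open UpperHalfPlane MatrixGroups CongruenceSubgroup Filter Topology MeasureTheory Set

namespace Pool.Agent.N637.P21

open Pool.Agent.W97.MT (ap affCount)
open Pool.Agent.Y687 (cnt cnt_eq)
open Pool.Agent.N974.MF (Hor)
open Pool.Agent.N974.Gen (Symb21 gcd21 Eigen Param II F value_class tors21 II_class II_inf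
  II_zero_im SymbG symbG_of_im mob_II_inf mob_II_pole mob_II ap21_2 ap21_3 ap21_5 ap21_7 ap21_11
  ap21_13 II_value)

variable {f : CuspForm (Gamma0 21 : Subgroup (GL (Fin 2) ℝ)) 2} {X : ℂ → ℂ}

/-- the imaginary parts of the integrals and the symbol, for a given lattice -/
theorem exists_symb21L (L : PeriodPair) (Op Om : ℝ) (_hOp : 0 < Op) (hOm : 0 < Om)
    (g2 : L.g₂ = 193 / 12) (g3 : L.g₃ = 575 / 216)
    (hL : ∀ w : ℂ, w ∈ L.lattice ↔ ∃ a b : ℤ, w = a * Op + b * Om * Complex.I)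
    (h : Eigen f (fun p => ap Pool.Agent.N974.Gen.E21 p))
    (hp : Param f L X)
    (h0 : Tendsto X (Hor ((0 : ℚ) : ℂ)) (𝓝 (61 / 12)))
    (h7 : Tendsto X (Hor ((1 / 7 : ℚ) : ℂ)) (𝓝 (-11 / 12)))
    (h3 : Tendsto X (Hor ((1 / 3 : ℚ) : ℂ)) (𝓝 (-23 / 12)))
    (hW21 : ∃ ε : ℂ, (ε = 1 ∨ ε = -1) ∧ ∃ p, ∀ z : ℂ, 0 < z.im → F f (-1 / (21 * z)) = ε * F f z + p)
    (hW3 : ∃ ε : ℂ, (ε = 1 ∨ ε = -1) ∧ ∃ p, ∀ z : ℂ, 0 < z.im →
      F f ((9 * z - 4) / (21 * z - 9)) = ε * F f z + p) :
    ∃ s : ℚ → ℤ, (∀ r : ℚ, (II f r).im = Om / 2 * s r) ∧ Symb21 s (fun p => ap Pool.Agent.N974.Gen.E21 p) := by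
  have hsq : Squarefree 21 := by
    rw [show (21 : ℕ) = 3 * 7 by norm_num, Nat.squarefree_mul (by norm_num)]
    exact ⟨Nat.prime_three.squarefree, (by norm_num : Nat.Prime 7).squarefree⟩
  have k0 : ∀ r : ℚ, ¬ (3 : ℤ) ∣ r.den → ¬ (7 : ℤ) ∣ r.den → II f r ∉ L.lattice ∧
      2 * II f r ∉ L.lattice ∧ 4 * II f r ∈ L.lattice ∧ L.weierstrassP (II f r) = 61 / 12 ∧
      L.weierstrassP (2 * II f r) = 25 / 12 ∧ II f r - II f 0 ∈ L.lattice := by
    intro r h3' h7'
    have hg : Nat.gcd (0 : ℚ).den 21 = Nat.gcd r.den 21 := gcd21 _ _ (by simp [h3']) (by simp [h7'])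
    obtain ⟨e1, e2⟩ := value_class hp hsq h0 hg
    obtain ⟨e3, e4, e5⟩ := (tors21 L g2 g3 e1).1 e2
    exact ⟨e1, e3, e5, e2, e4, II_class hp hsq hg⟩
  have k7 : ∀ r : ℚ, ¬ (3 : ℤ) ∣ r.den → (7 : ℤ) ∣ r.den → II f r ∉ L.lattice ∧
      2 * II f r ∉ L.lattice ∧ 4 * II f r ∈ L.lattice ∧ L.weierstrassP (II f r) = -11 / 12 ∧
      L.weierstrassP (2 * II f r) = 25 / 12 := by
    intro r h3' h7'
    have hg : Nat.gcd (1 / 7 : ℚ).den 21 = Nat.gcd r.den 21 :=
      gcd21 _ _ (by norm_num [h3']) (by norm_num [h7'])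
    obtain ⟨e1, e2⟩ := value_class hp hsq h7 hg
    obtain ⟨e3, e4, e5⟩ := (tors21 L g2 g3 e1).2.1 e2
    exact ⟨e1, e3, e5, e2, e4⟩
  have k3 : ∀ r : ℚ, (3 : ℤ) ∣ r.den → ¬ (7 : ℤ) ∣ r.den → II f r ∉ L.lattice ∧
      2 * II f r ∈ L.lattice ∧ L.weierstrassP (II f r) = -23 / 12 := by
    intro r h3' h7'
    have hg : Nat.gcd (1 / 3 : ℚ).den 21 = Nat.gcd r.den 21 :=
      gcd21 _ _ (by norm_num [h3']) (by norm_num [h7'])
    obtain ⟨e1, e2⟩ := value_class hp hsq h3 hg
    exact ⟨e1, (tors21 L g2 g3 e1).2.2 e2, e2⟩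
  have k1 : ∀ r : ℚ, (3 : ℤ) ∣ r.den → (7 : ℤ) ∣ r.den → II f r ∈ L.lattice := by
    intro r h3' h7'
    exact II_inf hp r (by push_cast; omega)
  obtain ⟨z1, z2, z4, zw, zz, -⟩ := k0 0 (by simp) (by simp)
  have z0 := II_zero_im f h.real
  -- the real point of order four
  obtain ⟨m0, hm0, hm0odd⟩ : ∃ m0 : ℤ, 4 * II f 0 = m0 * Op ∧ Odd m0 := by
    obtain ⟨a, b, hab⟩ := (hL _).1 z4
    have h1 := congrArg Complex.im hab
    have h2 : b = 0 := by
      simp [z0] at h1
      rcases h1 with h1 | h1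
      · exact h1
      · exact absurd h1 hOm.ne'
    refine ⟨a, by rw [hab, h2]; simp, ?_⟩
    rw [← Int.not_even_iff_odd]
    rintro ⟨k, hk⟩
    apply z2
    refine (hL _).2 ⟨k, 0, ?_⟩
    have h3 : (4 : ℂ) * II f 0 = (k + k) * Op := by
      rw [hab, h2, hk]; push_cast; ring
    linear_combination (1 / 2 : ℂ) * h3
  have mem_ofI : ∀ w : ℂ, w ∈ L.lattice → ∃ k : ℤ, w.im = k * Om := by
    intro w hw
    obtain ⟨a, b, hab⟩ := (hL w).1 hw
    exact ⟨b, by rw [hab]; simp⟩
  have mem_ofR : ∀ w : ℂ, w ∈ L.lattice → ∃ k : ℤ, w.re = k * Op := by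
    intro w hw
    obtain ⟨a, b, hab⟩ := (hL w).1 hw
    exact ⟨a, by rw [hab]; simp⟩
  have two_diff : ∀ r : ℚ, ¬ (3 : ℤ) ∣ r.den → (7 : ℤ) ∣ r.den →
      2 * II f r - 2 * II f 0 ∈ L.lattice := by
    intro r h3' h7'
    obtain ⟨e1, e2, e4, ew, e5⟩ := k7 r h3' h7'
    rcases Pool.Agent.W646.MT.s_inj L _ _ e2 z2 (by rw [e5, zz]) with h | h
    · exact h
    · have h6 := sub_mem h z4
      have : 2 * II f r + 2 * II f 0 - 4 * II f 0 = 2 * II f r - 2 * II f 0 := by ring
      rwa [this] at h6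
  -- imaginary parts
  have him : ∀ r : ℚ, ∃ k : ℤ, (II f r).im = Om / 2 * k := by
    intro r
    by_cases h3' : (3 : ℤ) ∣ r.den
    · by_cases h7' : (7 : ℤ) ∣ r.den
      · obtain ⟨k, hk⟩ := mem_ofI _ (k1 r h3' h7')
        exact ⟨2 * k, by rw [hk]; push_cast; ring⟩
      · obtain ⟨k, hk⟩ := mem_ofI _ (k3 r h3' h7').2.1
        refine ⟨k, ?_⟩
        have : (2 * II f r).im = 2 * (II f r).im := by simp
        rw [this] at hk
        linarith
    · by_cases h7' : (7 : ℤ) ∣ r.den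
      · obtain ⟨k, hk⟩ := mem_ofI _ (two_diff r h3' h7')
        refine ⟨k, ?_⟩
        have : (2 * II f r - 2 * II f 0).im = 2 * (II f r).im := by simp [z0]
        rw [this] at hk
        linarith
      · obtain ⟨k, hk⟩ := mem_ofI _ (k0 r h3' h7').2.2.2.2.2
        refine ⟨2 * k, ?_⟩
        rw [Complex.sub_im, z0, sub_zero] at hk
        rw [hk]; push_cast; ring
  choose s hs using him
  have hκ : Om / 2 ≠ 0 := by positivity
  have inj : ∀ x y : ℤ, Om / 2 * (x : ℝ) = Om / 2 * y → x = y := fun x y h => by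
    exact_mod_cast mul_left_cancel₀ hκ h
  have G : SymbG 21 s (fun p => ap Pool.Agent.N974.Gen.E21 p) := symbG_of_im h (by norm_num) hκ hs
  refine ⟨s, hs, G.per, G.neg, G.hecke, G.heckeU, ?_, ?_, ?_, ?_, ?_, ?_, ?_,
    ?_, ap21_2, ap21_3, ap21_5, ap21_7, ap21_11, ap21_13⟩
  · intro A B C D hdet r hr
    have := G.aff (A := A) (B := B) (C := C) (D := D) (by exact_mod_cast hdet) r (by exact_mod_cast hr)
    exact_mod_cast this
  · intro A B C D hdet hC
    have := G.aff_inf (A := A) (B := B) (C := C) (D := D) (by exact_mod_cast hdet) hC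
    exact_mod_cast this
  · -- the Fricke involution
    intro r hr
    obtain ⟨ε, hε, p, hF⟩ := hW21
    have hdet : (0 : ℝ) < 0 * 0 - (-1) * 21 := by norm_num
    have hF' : ∀ z : ℂ, 0 < z.im → F f ((((0 : ℝ) : ℂ) * z + ((-1 : ℝ) : ℂ)) /
        (((21 : ℝ) : ℂ) * z + ((0 : ℝ) : ℂ))) = ε * F f z + p := by
      intro z hz
      rw [← hF z hz]
      push_cast
      rw [zero_mul, zero_add, add_zero]
    have hp0 : II f 0 = p := mob_II_inf f hdet hF' 0 (by norm_num) (by norm_num)
    have hpole := mob_II_pole f hdet hF' 0 (by norm_num) (by norm_num)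
    have hε1 : ε = -1 := by
      rcases hε with rfl | rfl
      · exfalso
        apply z1
        have : (2 : ℂ) * II f 0 = 0 := by linear_combination hpole + hp0
        have h0' : II f 0 = 0 := by simpa using this
        rw [h0']
        exact zero_mem _
      · rfl
    have hr' : (r : ℝ) ≠ 0 := by exact_mod_cast hr
    have h4 := mob_II f hdet hF' r (-1 / (21 * r)) (by simpa using hr') (by
      push_cast
      field_simp
      ring)
    apply inj
    rw [← hs, h4, hε1, ← hp0]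
    push_cast
    rw [mul_neg, ← hs, Complex.add_im, z0]
    simp
  · -- the involution at `3`
    intro r hr
    obtain ⟨ε, hε, p, hF⟩ := hW3
    have hdet : (0 : ℝ) < 9 * (-9) - (-4) * 21 := by norm_num
    have hF' : ∀ z : ℂ, 0 < z.im → F f ((((9 : ℝ) : ℂ) * z + ((-4 : ℝ) : ℂ)) /
        (((21 : ℝ) : ℂ) * z + ((-9 : ℝ) : ℂ))) = ε * F f z + p := by
      intro z hz
      rw [← hF z hz]
      push_cast
      rw [← sub_eq_add_neg, ← sub_eq_add_neg]
    have hp0 : II f (3 / 7) = p := mob_II_inf f hdet hF' (3 / 7) (by norm_num) (by norm_num)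
    have hpole := mob_II_pole f hdet hF' (3 / 7) (by norm_num) (by norm_num)
    have hε1 : ε = -1 := by
      rcases hε with rfl | rfl
      · exfalso
        apply (k7 (3 / 7) (by norm_num) (by norm_num)).1
        have : (2 : ℂ) * II f (3 / 7) = 0 := by linear_combination hpole + hp0
        have h0' : II f (3 / 7) = 0 := by simpa using this
        rw [h0']
        exact zero_mem _
      · rfl
    have hr' : (21 * (r : ℝ) - 9) ≠ 0 := by exact_mod_cast hr
    have h4 := mob_II f hdet hF' r ((9 * r - 4) / (21 * r - 9)) (by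
      rw [← sub_eq_add_neg]; exact hr') (by
      push_cast
      rw [← sub_eq_add_neg, div_mul_cancel₀ _ hr']
      ring)
    apply inj
    rw [← hs, h4, hε1, ← hp0]
    push_cast
    rw [mul_sub, ← hs, ← hs, Complex.add_im]
    simp
    ring
  · -- prime to 21
    intro r h3' h7'
    obtain ⟨k, hk⟩ := mem_ofI _ (k0 r h3' h7').2.2.2.2.2
    refine ⟨k, ?_⟩
    apply inj
    rw [← hs]
    rw [Complex.sub_im, z0, sub_zero] at hk
    rw [hk]; push_cast; ring
  · -- divisible by 3 only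
    intro r h3' h7'
    rw [← Int.not_even_iff_odd]
    rintro ⟨k, hk⟩
    obtain ⟨e1, e2, ew⟩ := k3 r h3' h7'
    have hI : (II f r).im = k * Om := by
      have := hs r
      rw [hk] at this
      push_cast at this
      linarith
    obtain ⟨m, hm⟩ := mem_ofR _ e2
    have hre2 : 2 * (II f r).re = m * Op := by
      rw [← hm]; simp
    have er : II f r = k * Om * Complex.I + (m : ℂ) * Op / 2 := by
      apply Complex.ext
      · have : ((m : ℂ) * Op / 2) = ((m * Op / 2 : ℝ) : ℂ) := by push_cast; ring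
        rw [Complex.add_re, this, Complex.ofReal_re]
        simp
        linarith
      · have : ((m : ℂ) * Op / 2) = ((m * Op / 2 : ℝ) : ℂ) := by push_cast; ring
        rw [Complex.add_im, this, Complex.ofReal_im]
        simp [hI]
    have hmodd : Odd m := by
      rw [← Int.not_even_iff_odd]
      rintro ⟨l, hl⟩
      apply e1
      refine (hL _).2 ⟨l, k, ?_⟩
      rw [er, hl]; push_cast; ring
    obtain ⟨u, hu⟩ := hmodd
    obtain ⟨v, hv⟩ := hm0odd
    have h9 : II f r - 2 * II f 0 ∈ L.lattice := by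
      refine (hL _).2 ⟨u - v, k, ?_⟩
      have e0 : II f 0 = (m0 : ℂ) * Op / 4 := by linear_combination (1 / 4 : ℂ) * hm0
      rw [e0, er, hu, hv]; push_cast; ring
    have h8 : L.weierstrassP (II f r) = L.weierstrassP (2 * II f 0) := by
      have := L.weierstrassP_add_coe (2 * II f 0) ⟨II f r - 2 * II f 0, h9⟩
      rw [← this]
      congr 1
      simp
    rw [ew, zz] at h8
    norm_num at h8
  · -- divisible by 7 only
    intro r h3' h7'
    rw [← Int.not_even_iff_odd]
    rintro ⟨k, hk⟩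
    obtain ⟨e1, e2, e4, ew, -⟩ := k7 r h3' h7'
    -- the real translate
    have hI : (II f r).im = k * Om := by
      have := hs r
      rw [hk] at this
      push_cast at this
      linarith
    obtain ⟨m, hm'⟩ := mem_ofR _ e4
    have hm : 4 * (II f r).re = m * Op := by
      rw [← hm']; simp
    have hw0 : II f r = k * Om * Complex.I + (m : ℂ) * Op / 4 := by
      have e8 : ((m : ℂ) * Op / 4) = ((m * Op / 4 : ℝ) : ℂ) := by push_cast; ring
      apply Complex.ext
      · rw [Complex.add_re, e8, Complex.ofReal_re]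
        simp
        linarith
      · rw [Complex.add_im, e8, Complex.ofReal_im]
        simp [hI]
    have hmodd : Odd m := by
      rw [← Int.not_even_iff_odd]
      rintro ⟨l, hl⟩
      apply e2
      have h6 : 2 * II f r = 2 * (k * Om * Complex.I) + (l : ℂ) * Op := by
        rw [hw0, hl]; push_cast; ring
      rw [h6]
      exact (hL _).2 ⟨l, 2 * k, by push_cast; ring⟩
    have hpm : II f r - II f 0 ∈ L.lattice ∨ II f r + II f 0 ∈ L.lattice := by
      have e0 : II f 0 = (m0 : ℂ) * Op / 4 := by linear_combination (1 / 4 : ℂ) * hm0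
      obtain ⟨u, hu⟩ := hmodd
      obtain ⟨v, hv⟩ := hm0odd
      have h7 : (∃ l, m - m0 = 4 * l) ∨ ∃ l, m + m0 = 4 * l := by
        rcases Int.even_or_odd (u - v) with ⟨l, hl⟩ | ⟨l, hl⟩
        · left; exact ⟨l, by omega⟩
        · right; exact ⟨l + v + 1, by omega⟩
      rcases h7 with ⟨l, hl⟩ | ⟨l, hl⟩
      · left
        refine (hL _).2 ⟨l, k, ?_⟩
        have hl' : (m : ℂ) - m0 = 4 * l := by exact_mod_cast hl
        rw [e0, hw0]
        linear_combination (Op / 4 : ℂ) * hl'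
      · right
        refine (hL _).2 ⟨l, k, ?_⟩
        have hl' : (m : ℂ) + m0 = 4 * l := by exact_mod_cast hl
        rw [e0, hw0]
        linear_combination (Op / 4 : ℂ) * hl'
    have h8 : L.weierstrassP (II f r) = L.weierstrassP (II f 0) := by
      rcases hpm with h9 | h9
      · have := L.weierstrassP_add_coe (II f 0) ⟨II f r - II f 0, h9⟩
        rw [← this]
        congr 1
        simp
      · have := L.weierstrassP_add_coe (-II f 0) ⟨II f r + II f 0, h9⟩
        rw [L.weierstrassP_neg] at this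
        rw [← this]
        congr 1
        simp
    rw [ew, zw] at h8
    norm_num at h8
  · intro r h3' h7'
    obtain ⟨k, hk⟩ := mem_ofI _ (k1 r h3' h7')
    refine ⟨k, ?_⟩
    apply inj
    rw [← hs, hk]; push_cast; ring


end Pool.Agent.N637.P21
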