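import Pool.Agent.N637.P21.Lf
import Pool.Agent.N637.P21.SyL
import Pool.Agent.N637.P21.Per
import Pool.Agent.N402.MF21.Asm
import Pool.Agent.N975.CHB
import Pool.Agent.Y700.Fin

/-!
# The 2-part of the strong formula for the twists of `21a1` by all negative discriminants: assembly
-/

set_option autoImplicit false
set_option linter.style.haveILetI false

open Finset

namespace Pool.Agent.N637.P21

open Pool.Agent.N969.P15 (un chE Ev Qe Qc)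
open Pool.Agent.N974.Gen (II Symb21 Eigen)
open Pool.Agent.Y700 (IsL tam tamProd Omega psi)
open Pool.Agent.W97.MT (ap IsGloballyMinimal)
open Pool.Agent.N402.MF21 (f21 eigen21 param21 tends0 tends3 tends7 hW21 hW3)

/-- the central value in terms of the symbol -/
def Rel (n : ℕ) (w : ℕ → ℤ) (Q : Prop) : Prop := ∃ y c : ℤ, Odd c ∧ (Odd y ↔ Q) ∧
  ∀ (s : ℚ → ℤ) (a : ℕ → ℤ), Symb21 s a → ∃ e : ℤ, Odd e ∧
    4 * c * ∑ u ∈ un n, w u * s ((u : ℚ) / n) =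
      e * ((4 ^ n.primeFactors.card * (t2 3 n * t2 7 n) : ℕ) : ℤ) * y ^ 2

lemma pow4 (k : ℕ) (y : ℤ) : (2 ^ k * y) ^ 2 = 4 ^ k * y ^ 2 := by
  rw [mul_pow, ← pow_mul, mul_comm k 2, pow_mul]
  norm_num

theorem omega_eq (W : WeierstrassCurve ℤ) : Omega W = 2 * ∫ x in {x : ℝ |
    0 < Pool.Agent.Y702.G.cubic W x}, 1 / √(Pool.Agent.Y702.G.cubic W x) := by
  unfold Omega
  rw [← MeasureTheory.integral_const_mul]
  show ∫ x in {x : ℝ | 0 < psi W x}, 2 / √(psi W x) = ∫ x in {x : ℝ | 0 < psi W x},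
    2 * (1 / √(psi W x))
  congr 1
  funext x
  rw [mul_one_div]

theorem odd_val {z : ℤ} (h : Odd z) : padicValRat 2 (z : ℚ) = 0 := by
  haveI : Fact (Nat.Prime 2) := ⟨Nat.prime_two⟩
  rw [padicValRat.of_int, padicValInt.eq_zero_of_not_dvd]
  · rfl
  · intro h2
    rw [← Int.not_even_iff_odd] at h
    exact h (even_iff_two_dvd.2 (by exact_mod_cast h2))

/-- **the assembly** -/
theorem core {n : ℕ} [NeZero n] (hn1 : 1 < n) (W : WeierstrassCurve ℤ)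
    (h4 : W.c₄ = 193 * (n : ℤ) ^ 2) (h6 : W.c₆ = -(575 * (n : ℤ) ^ 3))
    (χ : DirichletCharacter ℂ n) (hχ : χ.IsPrimitive) (hinv : χ⁻¹ = χ) (hodd : χ (-1) = -1)
    (w : ℕ → ℤ) (hw : ∀ u : ℕ, χ (u : ZMod n) = (w u : ℂ))
    (hv : ∀ p : ℕ, p.Prime → w p = 0 ∨ w p = 1 ∨ w p = -1)
    (ha : ∀ p : ℕ, p.Prime → ap W p = ap E21 p * w p)
    (hΔ : ∀ p : ℕ, p.Prime → ((p : ℤ) ∣ W.Δ ↔ p ∣ 21 ∨ w p = 0))
    (hT : tamProd W = 4 ^ n.primeFactors.card * (t2 3 n * t2 7 n))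
    (htor : ∃ t : ℕ, Odd t ∧
      Nat.card (AddCommGroup.torsion (W.map (Int.castRingHom ℚ)).toAffine.Point) = 4 * t)
    {Q : Prop} (hR : Rel n w Q) :
    0 < Omega W ∧
    ∃ (f : ℂ → ℂ) (v : ℚ) (y : ℤ), IsL W f ∧ v ≠ 0 ∧ padicValRat 2 v = 0 ∧ (Odd y ↔ Q) ∧
      f 1 = (((v : ℝ) * (y : ℝ) ^ 2 * (Omega W * tamProd W /
        (Nat.card (AddCommGroup.torsion (W.map (Int.castRingHom ℚ)).toAffine.Point) : ℝ) ^ 2) : ℝ) :
          ℂ) := by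
  have hn0 : (0 : ℝ) < n := by exact_mod_cast (by omega : 0 < n)
  have hsn : (0 : ℝ) < √(n : ℝ) := Real.sqrt_pos.2 hn0
  obtain ⟨L, Op, Om, hOp, hOm, g2, g3, hL⟩ := Pool.Agent.N975.LatGen.lat21
  obtain ⟨sm, hsm, hsym⟩ := exists_symb21L L Op Om hOp hOm g2 g3 hL eigen21 (param21 L g2 g3)
    tends0 tends7 tends3 hW21 hW3
  have hΩ : Omega W = 2 * Om / √n := by
    rw [omega_eq, per_neg L Op Om hOp hOm g2 g3 hL n (by omega) W h4 h6]
    ring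
  obtain ⟨f, ε, hf, hε, hval⟩ := valueG (f := f21) eigen21 hsm W hn1 χ hχ hinv hodd w hw hv ha hΔ
  refine ⟨by rw [hΩ]; positivity, ?_⟩
  obtain ⟨y, c, hc, hyQ, hrel⟩ := hR
  obtain ⟨t, ht, htor⟩ := htor
  obtain ⟨e, he, hr⟩ := hrel sm _ hsym
  have : Fact (Nat.Prime 2) := ⟨Nat.prime_two⟩
  have hεo : Odd ε := by rcases hε with rfl | rfl <;> decide
  have hzo : Odd (ε * e * (t : ℤ) ^ 2) :=
    (hεo.mul he).mul ((Int.odd_coe_nat t).2 ht).pow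
  have hz0 : ε * e * (t : ℤ) ^ 2 ≠ 0 := by
    intro h0
    rw [h0] at hzo
    exact absurd hzo (by decide)
  have hc0 : c ≠ 0 := by
    rintro rfl
    exact absurd hc (by decide)
  have ht0 : (t : ℝ) ≠ 0 := by
    have : t ≠ 0 := by rintro rfl; exact absurd ht (by decide)
    exact_mod_cast this
  refine ⟨f, ((ε * e * (t : ℤ) ^ 2 : ℤ) : ℚ) / ((c : ℤ) : ℚ), y, hf, ?_, ?_, hyQ, ?_⟩
  · exact div_ne_zero (by exact_mod_cast hz0) (by exact_mod_cast hc0)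
  · rw [padicValRat.div (by exact_mod_cast hz0) (by exact_mod_cast hc0), odd_val hzo, odd_val hc]
    rfl
  · rw [hval, hΩ, htor, hT]
    have hr' : (4 : ℝ) * c * ((∑ u ∈ un n, w u * sm ((u : ℚ) / n) : ℤ) : ℝ) =
        (e : ℝ) * ((4 ^ n.primeFactors.card * (t2 3 n * t2 7 n) : ℕ) : ℝ) * (y : ℝ) ^ 2 := by
      exact_mod_cast hr
    set S : ℝ := ((∑ u ∈ un n, w u * sm ((u : ℚ) / n) : ℤ) : ℝ) with hS
    set T : ℝ := ((4 ^ n.primeFactors.card * (t2 3 n * t2 7 n) : ℕ) : ℝ) with hTd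
    congr 1
    have hcR : (c : ℝ) ≠ 0 := by exact_mod_cast hc0
    have hS' : S = (e : ℝ) * T * (y : ℝ) ^ 2 / (4 * c) := by
      rw [eq_div_iff (mul_ne_zero (by norm_num) hcR)]
      linarith
    rw [hS']
    push_cast
    field_simp
    ring

/-- **Odd discriminants.** -/
theorem strongO {n : ℕ} (h : Ao n) {Q : Prop} (hR : Rel n (fun u => jacobiSym u n) Q) :
    IsGloballyMinimal (WN (-(n : ℤ))) ∧
    tamProd (WN (-(n : ℤ))) = 4 ^ n.primeFactors.card * (t2 3 n * t2 7 n) ∧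
    (∃ t : ℕ, Odd t ∧ Nat.card (AddCommGroup.torsion (WNQ (-(n : ℤ))).toAffine.Point) = 4 * t) ∧
    0 < Omega (WN (-(n : ℤ))) ∧
    ∃ (f : ℂ → ℂ) (v : ℚ) (y : ℤ), IsL (WN (-(n : ℤ))) f ∧ v ≠ 0 ∧ padicValRat 2 v = 0 ∧
      (Odd y ↔ Q) ∧
      f 1 = (((v : ℝ) * (y : ℝ) ^ 2 * (Omega (WN (-(n : ℤ))) * tamProd (WN (-(n : ℤ))) /
        (Nat.card (AddCommGroup.torsion (WNQ (-(n : ℤ))).toAffine.Point) : ℝ) ^ 2) : ℝ) : ℂ) := by
  classical
  have hcl := cls_ao h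
  obtain ⟨hs, h4, h3, h7⟩ := id h
  have m4 : (-(n : ℤ)) % 4 = 1 := by omega
  haveI : NeZero n := ⟨by omega⟩
  have hodd : Odd n := Nat.odd_iff.2 (by omega)
  set d : Pool.Agent.H491R3.J.OS := ⟨n, hodd, hs, by omega⟩ with hd
  have hchi : ∀ m : ℕ, H491R3.J.chi d (m : ZMod n) = ((jacobiSym (m : ℤ) n : ℤ) : ℂ) :=
    H491R3.J.chi_natCast d
  have htor := tors_WN h4
  refine ⟨min_WN m4 hcl.sqf, tamP_N h, htor, ?_⟩
  have jz : ∀ p : ℕ, p.Prime → (jacobiSym (p : ℤ) n = 0 ↔ p ∣ n) := by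
    intro p hp
    rw [jacobiSym.eq_zero_iff_not_coprime, Int.gcd_natCast_natCast]
    have h9 : Nat.gcd p n = 1 ↔ ¬ p ∣ n := Nat.Prime.coprime_iff_not_dvd hp
    rw [ne_eq, h9, not_not]
  refine core (by omega) (WN (-(n : ℤ))) ?_ ?_ (H491R3.J.chi d) (H491R3.J.chi_primitive d)
    (H491R3.J.chi_inv d) ?_ (fun u => jacobiSym u n) hchi ?_ ?_ ?_ (tamP_N h) htor hR
  · rw [c4_WN m4]; ring
  · rw [c6_WN m4]; ring
  · have h9 := H491R3.J.chi_neg_one d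
    have h10 : ¬ (d.1 % 4 = 1) := by
      change ¬ (n % 4 = 1)
      omega
    rw [h9, if_neg h10]
  · intro p hp
    by_cases hpn : p ∣ n
    · exact Or.inl ((jz p hp).2 hpn)
    · right
      refine jacobiSym.eq_one_or_neg_one ?_
      rw [Int.gcd_natCast_natCast]
      exact (Nat.Prime.coprime_iff_not_dvd hp).2 hpn
  · intro p hp
    exact ap_WN h4 p hp
  · intro p hp
    rw [dvd_Δ h4 hp, jz p hp]

open Pool.Agent.N975.ChE in
/-- **Even discriminants.** -/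
theorem strongE {n : ℕ} (h : Ae n) {Q : Prop} (hR : Rel n (fun u => chE n u) Q) :
    IsGloballyMinimal (Em (-((n / 4 : ℕ) : ℤ))) ∧
    tamProd (Em (-((n / 4 : ℕ) : ℤ))) = 4 ^ n.primeFactors.card * (t2 3 n * t2 7 n) ∧
    (∃ t : ℕ, Odd t ∧
      Nat.card (AddCommGroup.torsion (EQm (-((n / 4 : ℕ) : ℤ))).toAffine.Point) = 4 * t) ∧
    0 < Omega (Em (-((n / 4 : ℕ) : ℤ))) ∧
    ∃ (f : ℂ → ℂ) (v : ℚ) (y : ℤ), IsL (Em (-((n / 4 : ℕ) : ℤ))) f ∧ v ≠ 0 ∧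
      padicValRat 2 v = 0 ∧ (Odd y ↔ Q) ∧
      f 1 = (((v : ℝ) * (y : ℝ) ^ 2 * (Omega (Em (-((n / 4 : ℕ) : ℤ))) *
        tamProd (Em (-((n / 4 : ℕ) : ℤ))) /
        (Nat.card (AddCommGroup.torsion (EQm (-((n / 4 : ℕ) : ℤ))).toAffine.Point) : ℝ) ^ 2) : ℝ) :
          ℂ) := by
  classical
  have hcl := cls_ae h
  obtain ⟨hE, h3, h7⟩ := id h
  have hm := ev_mod hE
  obtain ⟨m, hnm⟩ : ∃ m, n = 4 * m := ⟨n / 4, by omega⟩
  have e4 : n / 4 = m := by omega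
  haveI : NeZero n := ⟨by omega⟩
  have m4 : (-((n / 4 : ℕ) : ℤ)) % 4 ≠ 1 := by
    obtain ⟨k, hk, hs, h4⟩ := hE
    have : k = m := by omega
    subst this
    rw [e4]
    omega
  have htor := tors_E h
  refine ⟨min_Em m4 hcl.sqf, tamP_E h, htor, ?_⟩
  have jz : ∀ p : ℕ, p.Prime → (chE n p = 0 ↔ p ∣ n) := by
    intro p hp
    constructor
    · intro h0
      by_contra hcon
      rcases chE_pm hm ((Nat.Prime.coprime_iff_not_dvd hp).2 hcon) with h | h <;>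
        rw [h] at h0 <;> norm_num at h0
    · intro h0
      exact chE_zero hm fun h => hp.one_lt.ne' (Nat.eq_one_of_dvd_coprimes h dvd_rfl h0)
  refine core (by omega) (Em (-((n / 4 : ℕ) : ℤ))) ?_ ?_ (chi n hm) (chi_primitive hE)
    (chi_inv n hm) ?_ (fun u => chE n u) (chi_nat n hm) ?_ ?_ ?_ (tamP_E h) htor hR
  · rw [c4_Em, e4, hnm]; push_cast; ring
  · rw [c6_Em, e4, hnm]; push_cast; ring
  · have h1 : ((n - 1 : ℕ) : ZMod n) = -1 := by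
      rw [Nat.cast_sub (by omega), ZMod.natCast_self, Nat.cast_one, zero_sub]
    have h2 : chE n ((n - 1 : ℕ) : ℤ) = -1 := by
      rw [chE_mod hm (u := ((n - 1 : ℕ) : ℤ)) (v := -1) ⟨1, by omega⟩]
      exact Pool.Agent.N975.CHB.chE_neg_one hE
    rw [← h1, chi_nat n hm, h2]
    norm_num
  · intro p hp
    by_cases hpn : p ∣ n
    · exact Or.inl ((jz p hp).2 hpn)
    · exact Or.inr (chE_pm hm ((Nat.Prime.coprime_iff_not_dvd hp).2 hpn))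
  · intro p hp
    exact ap_E hE p hp
  · intro p hp
    rw [jz p hp, Em_Δ, e4]
    have e : ((2 : ℤ) ^ 12 * 3 ^ 4 * 7 ^ 2 * (-(m : ℤ)) ^ 6) =
        ((3 ^ 4 * 7 ^ 2 * (2 ^ 12 * m ^ 6) : ℕ) : ℤ) := by
      push_cast; ring
    rw [e, Int.natCast_dvd_natCast, hp.dvd_mul, hp.dvd_mul (m := 2 ^ 12), hnm, hp.dvd_mul (m := 4)]
    have k4 : p ∣ 4 ↔ p ∣ 2 ^ 12 := by
      rw [show (4 : ℕ) = 2 ^ 2 by norm_num]
      constructor
      · intro h; exact dvd_pow (hp.dvd_of_dvd_pow h) (by norm_num)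
      · intro h; exact dvd_pow (hp.dvd_of_dvd_pow h) (by norm_num)
    have km : p ∣ m ^ 6 ↔ p ∣ m := ⟨fun h => hp.dvd_of_dvd_pow h, fun h => dvd_pow h (by norm_num)⟩
    have k21 : p ∣ 3 ^ 4 * 7 ^ 2 ↔ p ∣ 21 := by
      rw [show (21 : ℕ) = 3 * 7 by norm_num, hp.dvd_mul, hp.dvd_mul]
      constructor
      · rintro (h | h)
        · exact Or.inl (hp.dvd_of_dvd_pow h)
        · exact Or.inr (hp.dvd_of_dvd_pow h)
      · rintro (h | h)
        · exact Or.inl (dvd_pow h (by norm_num))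
        · exact Or.inr (dvd_pow h (by norm_num))
    rw [k4, km, k21]

end Pool.Agent.N637.P21
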