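import Pool.Agent.N637.P21.Main
import Pool.Agent.N637.P21.Min
import Pool.Agent.N875.X15.Tors

/-!
# The torsion subgroup of `E_m(ℚ)`, `m < 0`

`E_m : y² = x (x - 9 m) (x + 7 m)`.
-/

set_option autoImplicit false

namespace Pool.Agent.N637.P21

open WeierstrassCurve
open Pool.Agent.TH841.SH (IsR)
open Pool.Agent.N875.X15 (dbl_sq dbl_T two_tor sq_cancel card_four finite_tors tors_congr)

open scoped Classical

variable {m : ℤ}

/-- there is no rational point of order four -/
theorem no_four (hm : m < 0) (hns : ¬ IsSquare (-(m : ℚ))) (P : (EQm m).toAffine.Point)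
    (h : (P + P) + (P + P) = 0) : P + P = 0 := by
  by_contra hne
  have hR := isR m
  obtain ⟨e, he, hP2, hee⟩ := two_tor hR two_ne_zero h hne
  have hmQ : (m : ℚ) < 0 := by exact_mod_cast hm
  rcases P with _ | ⟨x, y, hxy⟩
  · exact hne (add_zero _)
  have hy : y ≠ 0 := by
    rintro rfl
    exact hne (dbl_T hR hxy)
  have k1 := dbl_sq hR two_ne_zero hxy hy he hP2
  have k2 := dbl_sq hR.rot two_ne_zero hxy hy he hP2
  have k3 := dbl_sq hR.rot.rot two_ne_zero hxy hy he hP2
  rcases hee with rfl | rfl | rfl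
  · have : (((0 : ℤ)) : ℚ) - ((-7 * m : ℤ) : ℚ) = 7 * m := by push_cast; ring
    rw [this] at k3
    have := k3.nonneg
    linarith
  · have : ((9 * m : ℤ) : ℚ) - ((0 : ℤ) : ℚ) = 9 * m := by push_cast; ring
    rw [this] at k1
    have := k1.nonneg
    linarith
  · apply hns
    have e1 : ((-7 * m : ℤ) : ℚ) - ((9 * m : ℤ) : ℚ) = 4 * 4 * -(m : ℚ) := by push_cast; ring
    rw [e1] at k2
    exact sq_cancel (by norm_num : (4 * 4 : ℚ) ≠ 0) ⟨4, rfl⟩ k2

/-- the points killed by two -/
theorem mem_T4 (hm : m ≠ 0) {P : (EQm m).toAffine.Point} (h : P + P = 0) : P ∈ T4 hm := by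
  by_cases hP : P = 0
  · rw [hP]
    unfold T4
    exact Finset.mem_insert_self _ _
  · obtain ⟨x, hx, rfl, hxx⟩ := two_tor (isR m) two_ne_zero h hP
    unfold T4
    rw [Finset.mem_insert, Finset.mem_insert, Finset.mem_insert, Finset.mem_singleton]
    right
    rcases hxx with rfl | rfl | rfl
    · left
      congr 1
    · right; left
      congr 1
      push_cast
      rfl
    · right; right
      congr 1
      push_cast
      rfl

/-- **The order of the torsion subgroup.** -/
theorem tors_Em (hm : m < 0) (hns : ¬ IsSquare (-(m : ℚ))) :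
    ∃ t : ℕ, Odd t ∧ Nat.card (AddCommGroup.torsion (EQm m).toAffine.Point) = 4 * t := by
  have : Finite (AddCommGroup.torsion (EQm m).toAffine.Point) := finite_tors (fg_E hm.ne)
  refine card_four ?_ ?_
  · have e : {x : AddCommGroup.torsion (EQm m).toAffine.Point // x + x = 0} ≃ (T4 hm.ne : Finset _) :=
      { toFun := fun x => ⟨x.1.1, mem_T4 hm.ne (congrArg Subtype.val x.2)⟩
        invFun := fun x => ⟨⟨x.1, by
          have h1 : IsOfFinAddOrder x.1 := isOfFinAddOrder_iff_nsmul_eq_zero.2
            ⟨2, two_pos, by rw [two_nsmul]; exact T4_two hm.ne _ x.2⟩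
          exact h1⟩, Subtype.ext (T4_two hm.ne _ x.2)⟩
        left_inv := fun x => rfl
        right_inv := fun x => rfl }
    rw [Nat.card_congr e, Nat.card_eq_fintype_card, Fintype.card_coe, T4_card]
  · rintro ⟨x, hx⟩ h
    apply Subtype.ext
    exact no_four hm hns x (congrArg Subtype.val h)

end Pool.Agent.N637.P21
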