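import Pool.Agent.N637.P21.Short
import Pool.Agent.N637.P21.Tors

/-!
# The data of the formula at the central point for the twists of `21a1` by the odd negative
# fundamental discriminants
-/

set_option autoImplicit false
set_option linter.style.haveILetI false

namespace Pool.Agent.N637.P21

open WeierstrassCurve
open Pool.Agent.Y700 (tam)
open Pool.Agent.TH841.SH.D (Sha)
open Pool.Agent.Z702 (S_TRN)
open Pool.Agent.N875.X15 (Fin2)
open Pool.Agent.N969.P15 (Qc)

theorem fin2_N {m : ℤ} (h4 : m % 4 = 1) : Fin2 (WNQ m) ↔ Fin2 (EQm m) := by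
  have hT : S_TRN := Pool.Agent.Z932.Z702.t_TRN
  obtain ⟨h1, h2, -⟩ := hT _ _ _ _ _ _ (vr h4 ℚ) (WN_Δ_ne h4 ℚ)
  exact and_congr h1.symm h2.symm

/-- **Odd discriminants**: the criterion for the minimal equation. -/
theorem crit_ao_N {n : ℕ} (h : Ao n) : Fin2 (WNQ (-(n : ℤ))) ↔ Qc n := by
  have h4 := h.2.1
  rw [fin2_N (by omega)]
  exact crit_ao h

/-! ### Tamagawa numbers -/

theorem pf_Δ {n : ℕ} (h4 : n % 4 = 3) :
    (WN (-(n : ℤ))).Δ.natAbs.primeFactors = insert 3 (insert 7 n.primeFactors) := by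
  have hn0 : n ≠ 0 := by omega
  have e : (WN (-(n : ℤ))).Δ.natAbs = 3 ^ 4 * 7 ^ 2 * n ^ 6 := by
    rw [WN_Δ (by omega), Int.natAbs_mul, Int.natAbs_mul, Int.natAbs_pow, Int.natAbs_pow,
      Int.natAbs_pow, Int.natAbs_neg, Int.natAbs_natCast]
    rfl
  rw [e, Nat.primeFactors_mul (by norm_num) (pow_ne_zero _ hn0),
    Nat.primeFactors_mul (by norm_num) (by norm_num), Nat.primeFactors_pow _ (by norm_num),
    Nat.primeFactors_pow _ (by norm_num), Nat.primeFactors_pow _ (by norm_num),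
    Nat.Prime.primeFactors Nat.prime_three, Nat.Prime.primeFactors (by norm_num : Nat.Prime 7)]
  ext p
  simp

/-- **The product of the Tamagawa numbers** (`tamProd` of `Pool.Agent.Y700.Fin`, unfolded). -/
theorem tam_prod {n : ℕ} (h : Ao n) :
    (∏ p ∈ (WN (-(n : ℤ))).Δ.natAbs.primeFactors, if h : p.Prime then
      (haveI := Fact.mk h; tam (WN (-(n : ℤ))) p) else 1) =
    4 ^ n.primeFactors.card * (if 3 ∣ n then 1 else 2) * (if 7 ∣ n then 1 else 2) := by
  obtain ⟨hs, h4, h3, h7⟩ := h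
  have m4 : (-(n : ℤ)) % 4 = 1 := by omega
  have hn0 : n ≠ 0 := hs.ne_zero
  have hsm : Squarefree (-(n : ℤ)) := by
    intro x hx
    rw [dvd_neg] at hx
    exact Int.squarefree_natCast.2 hs x hx
  set t : ℕ → ℕ := fun p => if h : p.Prime then (haveI := Fact.mk h; tam (WN (-(n : ℤ))) p) else 1
    with ht
  have e0 : (∏ p ∈ (WN (-(n : ℤ))).Δ.natAbs.primeFactors, if h : p.Prime then
      (haveI := Fact.mk h; tam (WN (-(n : ℤ))) p) else 1) =
      ∏ p ∈ insert 3 (insert 7 n.primeFactors), t p := by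
    rw [pf_Δ h4]
  have ep : ∏ p ∈ n.primeFactors, t p = 4 ^ n.primeFactors.card := by
    rw [Finset.prod_congr rfl (g := fun _ => 4), Finset.prod_const]
    intro p hp
    obtain ⟨h1, h2, -⟩ := Nat.mem_primeFactors.1 hp
    rw [ht]
    simp only
    rw [dif_pos h1]
    haveI := Fact.mk h1
    exact tam_WN_ram m4 hsm (by rw [dvd_neg]; exact_mod_cast h2)
  have e7 : ∏ p ∈ insert 7 n.primeFactors, t p =
      4 ^ n.primeFactors.card * (if 7 ∣ n then 1 else 2) := by
    by_cases c7 : 7 ∣ n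
    · rw [if_pos c7, mul_one, Finset.insert_eq_of_mem, ep]
      exact Nat.mem_primeFactors.2 ⟨by norm_num, c7, hn0⟩
    · rw [if_neg c7, Finset.prod_insert (fun hh => c7 (Nat.dvd_of_mem_primeFactors hh)), ep]
      have p7 : Nat.Prime 7 := by norm_num
      have : t 7 = 2 := by
        rw [ht]
        simp only
        rw [dif_pos p7]
        exact tam_WN_seven m4 (by omega)
      rw [this, mul_comm]
  rw [e0]
  by_cases c3 : 3 ∣ n
  · rw [if_pos c3, mul_one, Finset.insert_eq_of_mem, e7]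
    exact Finset.mem_insert_of_mem (Nat.mem_primeFactors.2 ⟨by norm_num, c3, hn0⟩)
  · rw [if_neg c3, Finset.prod_insert, e7]
    · have : t 3 = 2 := by
        rw [ht]
        simp only
        rw [dif_pos Nat.prime_three]
        exact tam_WN_three m4 (by omega)
      rw [this]
      ring
    · intro hh
      rcases Finset.mem_insert.1 hh with hh | hh
      · norm_num at hh
      · exact c3 (Nat.dvd_of_mem_primeFactors hh)

/-! ### Torsion -/

/-- the order of the torsion subgroup, for the minimal equation -/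
theorem tors_WN {n : ℕ} (h4 : n % 4 = 3) : ∃ t : ℕ, Odd t ∧
    Nat.card (AddCommGroup.torsion (WNQ (-(n : ℤ))).toAffine.Point) = 4 * t := by
  have m4 : (-(n : ℤ)) % 4 = 1 := by omega
  obtain ⟨t, ht, h⟩ := tors_Em (m := -(n : ℤ)) (by omega) (by
    have e : (-(((-(n : ℤ)) : ℤ) : ℚ)) = ((n : ℤ) : ℚ) := by push_cast; ring
    rw [e, Rat.isSquare_intCast_iff]
    rintro ⟨r, hr⟩
    have h7 : (n : ℤ) % 4 = 3 := by omega
    rw [hr] at h7
    have h8 : r % 4 = 0 ∨ r % 4 = 1 ∨ r % 4 = 2 ∨ r % 4 = 3 := by omega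
    rcases h8 with h8 | h8 | h8 | h8 <;> rw [Int.mul_emod, h8] at h7 <;> norm_num at h7)
  refine ⟨t, ht, ?_⟩
  rw [← h]
  exact Pool.Agent.N875.X15.tors_congr ((vr m4 ℚ).equiv (WN_Δ_ne m4 ℚ))

end Pool.Agent.N637.P21
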