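import Pool.Agent.N637.P21.ApE
import Pool.Agent.N974.Gen.LfinE
import Pool.Agent.N974.Gen.Models
import Pool.Agent.Y700.Lm
import Pool.Agent.N975.LfinE

/-!
# The `L`-functions of the twists of `21a1` by all negative discriminants, and their central values
-/

set_option autoImplicit false
set_option linter.style.haveILetI false

open scoped Classical
open Complex Filter Topology Set UpperHalfPlane MatrixGroups CongruenceSubgroup ZMod

namespace Pool.Agent.N637.P21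

open Pool.Agent.W97.MT (affCount ap)
open Pool.Agent.N974.Gen (Eigen exists_L_all II II_conj II_add_one)
open Pool.Agent.N969.P15 (Ev chE un)
open Pool.Agent.Y700 (IsL)
open Pool.Agent.Y687 (p_cpow)

variable {f : CuspForm (Gamma0 21 : Subgroup (GL (Fin 2) ℝ)) 2}

theorem exists_LG (h : Eigen f (fun p => ap E21 p)) (W : WeierstrassCurve ℤ) {q : ℕ} [NeZero q]
    (χ : DirichletCharacter ℂ q) (hχ : χ.IsPrimitive) (hinv : χ⁻¹ = χ) (hodd : χ (-1) = -1)
    (w : ℕ → ℤ) (hw : ∀ u : ℕ, χ (u : ZMod q) = (w u : ℂ))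
    (hv : ∀ p : ℕ, p.Prime → w p = 0 ∨ w p = 1 ∨ w p = -1)
    (ha : ∀ p : ℕ, p.Prime → ap W p = ap E21 p * w p)
    (hΔ : ∀ p : ℕ, p.Prime → ((p : ℤ) ∣ W.Δ ↔ p ∣ 21 ∨ w p = 0)) :
    ∃ (F : ℂ → ℂ) (τ : ℂ), IsL W F ∧ τ ^ 2 = -(q : ℂ) ∧
      τ * F 1 = ∑ a ∈ un q, (w a : ℂ) * II f ((a : ℚ) / q) := by
  obtain ⟨g, hg1, hg2, hg3⟩ := exists_L_all f h χ hχ
  refine ⟨g, gaussSum χ (stdAddChar (N := q)), ⟨hg1, ?_⟩, ?_, ?_⟩
  · intro s hs
    refine (congrArg (fun g => HasProd g _) (funext fun p => ?_)).mp (hg2 s hs)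
    have hpp : (p : ℕ).Prime := p.2
    rw [hw, ha p hpp]
    rcases hv p hpp with h0 | h0
    · have hbad : ((p : ℕ) : ℤ) ∣ W.Δ := (hΔ p hpp).2 (Or.inr h0)
      rw [h0, if_pos hbad]
      simp
    · have hne : w (p : ℕ) ≠ 0 := by rcases h0 with h | h <;> rw [h] <;> norm_num
      have hx2 : ((w (p : ℕ) : ℤ) : ℂ) ^ 2 = 1 := by
        rcases h0 with h | h <;> rw [h] <;> norm_num
      rw [hx2]
      have hΔ' : ((p : ℕ) : ℤ) ∣ W.Δ ↔ (p : ℕ) ∣ 21 := by
        rw [hΔ p hpp]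
        tauto
      by_cases h21' : (p : ℕ) ∣ 21
      · rw [if_pos h21', if_pos (hΔ'.2 h21')]
        push_cast
        ring
      · rw [if_neg h21', if_neg (fun h => h21' (hΔ'.1 h)), mul_one, p_cpow hpp.ne_zero]
        push_cast
        ring
  · have h1 := Pool.Agent.W378.CY.gauss_prod q χ hχ
    rw [hinv, hodd] at h1
    rw [sq]
    linear_combination -h1
  · rw [hinv] at hg3
    rw [hg3, Pool.Agent.N975.LfinE.sum_unC]
    refine Finset.sum_congr rfl fun u _ => ?_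
    rw [← hw, ZMod.natCast_zmod_val]

/-- the sum over an even function is zero -/
theorem sum_zero {sp : ℚ → ℝ} (hneg : ∀ r, sp (-r) = sp r) (hper : ∀ r, sp (r + 1) = sp r)
    {n : ℕ} (hn : 1 < n) (w : ℕ → ℤ) (hw : ∀ a, a < n → 0 < a → w (n - a) = - w a) :
    ∑ u ∈ un n, (w u : ℝ) * sp ((u : ℚ) / n) = 0 := by
  have mem : ∀ a, a ∈ un n ↔ a < n ∧ Nat.Coprime a n := by
    intro a
    unfold un
    rw [Finset.mem_filter, Finset.mem_range]
  have h : ∑ u ∈ un n, (w u : ℝ) * sp ((u : ℚ) / n) = -∑ u ∈ un n, (w u : ℝ) * sp ((u : ℚ) / n) := by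
    rw [← Finset.sum_neg_distrib]
    have h0 : ∀ a ∈ un n, 0 < a := by
      intro a ha
      rw [mem] at ha
      rcases Nat.eq_zero_or_pos a with h | h
      · rw [h, Nat.coprime_zero_left] at ha
        omega
      · exact h
    refine Finset.sum_bij' (fun a _ => n - a) (fun a _ => n - a) ?_ ?_ ?_ ?_ ?_
    · intro a ha
      have := h0 a ha
      rw [mem] at ha ⊢
      exact ⟨by omega, (Nat.coprime_self_sub_left ha.1.le).2 ha.2⟩
    · intro a ha
      have := h0 a ha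
      rw [mem] at ha ⊢
      exact ⟨by omega, (Nat.coprime_self_sub_left ha.1.le).2 ha.2⟩
    · intro a ha
      rw [mem] at ha
      have := ha.1
      show n - (n - a) = a
      omega
    · intro a ha
      rw [mem] at ha
      have := ha.1
      show n - (n - a) = a
      omega
    · intro a ha
      have h0' := h0 a ha
      rw [mem] at ha
      have hn : (n : ℚ) ≠ 0 := by exact_mod_cast (by omega : n ≠ 0)
      have e1 : (((n - a : ℕ) : ℚ) / n) = -((a : ℚ) / n) + 1 := by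
        rw [Nat.cast_sub ha.1.le]
        field_simp
        ring
      rw [e1, hper, hneg, hw a ha.1 h0']
      push_cast
      ring
  linarith

/-- **The central value.** -/
theorem valueG (h : Eigen f (fun p => ap E21 p)) {s : ℚ → ℤ} {Om : ℝ}
    (hs : ∀ r : ℚ, (II f r).im = Om / 2 * s r)
    (W : WeierstrassCurve ℤ) {n : ℕ} [NeZero n] (hn1 : 1 < n)
    (χ : DirichletCharacter ℂ n) (hχ : χ.IsPrimitive) (hinv : χ⁻¹ = χ) (hodd : χ (-1) = -1)
    (w : ℕ → ℤ) (hw : ∀ u : ℕ, χ (u : ZMod n) = (w u : ℂ))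
    (hv : ∀ p : ℕ, p.Prime → w p = 0 ∨ w p = 1 ∨ w p = -1)
    (ha : ∀ p : ℕ, p.Prime → ap W p = ap E21 p * w p)
    (hΔ : ∀ p : ℕ, p.Prime → ((p : ℤ) ∣ W.Δ ↔ p ∣ 21 ∨ w p = 0)) :
    ∃ (F : ℂ → ℂ) (ε : ℤ), IsL W F ∧ (ε = 1 ∨ ε = -1) ∧
      F 1 = ((ε * (∑ u ∈ un n, w u * s ((u : ℚ) / n) : ℤ) * Om / (2 * Real.sqrt n) : ℝ) : ℂ) := by
  obtain ⟨F, τ, hf, hτ, hv'⟩ := exists_LG h W χ hχ hinv hodd w hw hv ha hΔ
  have h0 := sum_zero (sp := fun r => (II f r).re)
    (fun r => by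
      show (II f (-r)).re = (II f r).re
      rw [II_conj f h.real, Complex.conj_re])
    (fun r => by
      show (II f (r + 1)).re = (II f r).re
      rw [II_add_one]) hn1 w (by
    intro a ha1 ha0
    have e1 : ((w (n - a) : ℤ) : ℂ) = ((-w a : ℤ) : ℂ) := by
      rw [← hw, Nat.cast_sub ha1.le, ZMod.natCast_self, zero_sub, neg_eq_neg_one_mul, map_mul,
        hodd, hw]
      push_cast
      ring
    exact_mod_cast e1)
  set SM : ℤ := ∑ u ∈ un n, w u * s ((u : ℚ) / n) with hSM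
  have h3 : ∑ a ∈ un n, ((w a : ℤ) : ℂ) * II f ((a : ℚ) / n) =
      ((SM : ℤ) : ℂ) * (Om / 2) * Complex.I := by
    have e1 : ∀ a ∈ un n, ((w a : ℤ) : ℂ) * II f ((a : ℚ) / n) =
        (((w a : ℝ) * (II f ((a : ℚ) / n)).re : ℝ) : ℂ) +
          ((w a * s ((a : ℚ) / n) : ℤ) : ℂ) * (Om / 2) * Complex.I := by
      intro a _
      have e2 : II f ((a : ℚ) / n) = (((II f ((a : ℚ) / n)).re : ℝ) : ℂ) +
          (((II f ((a : ℚ) / n)).im : ℝ) : ℂ) * Complex.I := (Complex.re_add_im _).symm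
      rw [hs] at e2
      conv_lhs => rw [e2]
      push_cast
      ring
    rw [Finset.sum_congr rfl e1, Finset.sum_add_distrib, ← Complex.ofReal_sum, h0, hSM]
    push_cast
    rw [zero_add, Finset.sum_mul, Finset.sum_mul]
  rw [← hv'] at h3
  have hn0 : (0 : ℝ) < n := by exact_mod_cast (by omega : 0 < n)
  have hsn : (0 : ℝ) < Real.sqrt n := Real.sqrt_pos.2 hn0
  have hs2 : (Real.sqrt n) ^ 2 = n := Real.sq_sqrt hn0.le
  have hsC : ((Real.sqrt n : ℝ) : ℂ) ^ 2 = (n : ℂ) := by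
    rw [← Complex.ofReal_pow, hs2]
    simp
  have hs0 : ((Real.sqrt n : ℝ) : ℂ) ≠ 0 := by exact_mod_cast hsn.ne'
  have hτ2 : (τ - Complex.I * (Real.sqrt n : ℝ)) * (τ + Complex.I * (Real.sqrt n : ℝ)) = 0 := by
    linear_combination hτ - hsC * Complex.I ^ 2 - (n : ℂ) * Complex.I_sq
  rcases mul_eq_zero.1 hτ2 with h | h
  · have hτ' : τ = Complex.I * (Real.sqrt n : ℝ) := by linear_combination h
    refine ⟨F, 1, hf, Or.inl rfl, ?_⟩
    rw [hτ'] at h3
    have h5 : Complex.I * (2 * (Real.sqrt n : ℝ) * F 1) =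
        Complex.I * (((SM : ℤ) : ℂ) * Om) := by
      linear_combination 2 * h3
    have h6 := mul_left_cancel₀ Complex.I_ne_zero h5
    push_cast
    field_simp
    linear_combination h6
  · have hτ' : τ = -(Complex.I * (Real.sqrt n : ℝ)) := by linear_combination h
    refine ⟨F, -1, hf, Or.inr rfl, ?_⟩
    rw [hτ'] at h3
    have h5 : Complex.I * (-(2 * (Real.sqrt n : ℝ) * F 1)) =
        Complex.I * (((SM : ℤ) : ℂ) * Om) := by
      linear_combination 2 * h3
    have h6 := mul_left_cancel₀ Complex.I_ne_zero h5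
    push_cast
    field_simp
    linear_combination -h6

end Pool.Agent.N637.P21
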