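import Pool.Agent.N637.P21.Rank
import Pool.Agent.N875.X15.TamU
import Pool.Agent.Y809.BSD14.Tam1
import Pool.Agent.W97.MT.Defs

/-!
# The Tamagawa numbers of `E_m : y² = x (x - 9 m) (x + 7 m)` at the odd primes
-/

set_option autoImplicit false

namespace Pool.Agent.N637.P21

open WeierstrassCurve
open Pool.Agent.TH841.SH (IsR)
open Pool.Agent.Y700 (PtP SingRed E0 tam VR)
open Pool.Agent.Y809.BSD14 (index_of t_E0)
open Pool.Agent.W97.MT (IsGloballyMinimal)
open Pool.Agent.N875.X15 (isR_eqn add_T two_tor dbl_T val_ram normlt_iff normle_iff norm_add_lt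
  norm_sub_lt norm_mul_lt norm_mul_lt' norm_int norm_two norm_sq_lt norm_lt_of_dvd not_norm_lt
  norm_le_iff norm_lt_iff norm_eq_iff val_zero val_one val_p val_mul_unit not_dvd_of_prime val_unr
  tam_VR)

open scoped Classical

section tam

variable {p : ℕ} [hp : Fact p.Prime] {m : ℤ}

/-- the curve over `ℚ_p` -/
lemma isRp (p : ℕ) [Fact p.Prime] (m : ℤ) : IsR ((Em m).map (Int.castRingHom ℚ_[p]))
    (0 : ℚ_[p]) (9 * m) (-7 * m) := by
  refine ⟨?_, ?_, ?_, ?_, ?_⟩ <;> simp [Em] <;> ring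

lemma eqnp {x y : ℚ_[p]} (h : ((Em m).map (Int.castRingHom ℚ_[p])).toAffine.Nonsingular x y) :
    y ^ 2 = x * (x - 9 * m) * (x + 7 * m) := by
  have := (isR_eqn (isRp p m)).1 h.1
  rw [this]
  ring

lemma nonsingp (hm : m ≠ 0) {x : ℚ_[p]} (hx : x = 0 ∨ x = 9 * m ∨ x = -7 * m) :
    ((Em m).map (Int.castRingHom ℚ_[p])).toAffine.Nonsingular x 0 := by
  have hm' : (m : ℚ_[p]) ≠ 0 := by exact_mod_cast hm
  rw [Affine.nonsingular_iff, Affine.equation_iff]
  simp only [Em, map_a₁, map_a₂, map_a₃, map_a₄, map_a₆, eq_intCast]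
  push_cast
  have h3 : (m : ℚ_[p]) ^ 2 ≠ 0 := pow_ne_zero 2 hm'
  constructor
  · rcases hx with rfl | rfl | rfl <;> ring
  · left
    intro h
    apply h3
    rcases hx with rfl | rfl | rfl
    · linear_combination (1 / 63 : ℚ_[p]) * h
    · linear_combination (-1 / 144 : ℚ_[p]) * h
    · linear_combination (-1 / 112 : ℚ_[p]) * h

/-- the points of order two -/
noncomputable def Tp (hm : m ≠ 0) {x : ℚ_[p]} (hx : x = 0 ∨ x = 9 * m ∨ x = -7 * m) :
    PtP (Em m) p := Affine.Point.some x 0 (nonsingp hm hx)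

/-- singular reduction -/
lemma sing_def {x y : ℚ_[p]} : SingRed (Em m) p x y ↔ ‖x‖ ≤ 1 ∧ ‖y‖ ≤ 1 ∧
    ‖x * (x - 9 * m) + x * (x + 7 * m) + (x - 9 * m) * (x + 7 * m)‖ < 1 ∧ ‖2 * y‖ < 1 := by
  unfold SingRed
  show ‖x‖ ≤ 1 ∧ ‖y‖ ≤ 1 ∧ ‖((0 : ℤ) : ℚ_[p]) * y - (3 * x ^ 2 + 2 * ((-2 * m : ℤ) : ℚ_[p]) * x +
    ((-63 * m ^ 2 : ℤ) : ℚ_[p]))‖ < 1 ∧ ‖2 * y + ((0 : ℤ) : ℚ_[p]) * x + ((0 : ℤ) : ℚ_[p])‖ < 1 ↔ _
  have E1 : ((0 : ℤ) : ℚ_[p]) * y - (3 * x ^ 2 + 2 * ((-2 * m : ℤ) : ℚ_[p]) * x +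
      ((-63 * m ^ 2 : ℤ) : ℚ_[p])) =
      -(x * (x - 9 * m) + x * (x + 7 * m) + (x - 9 * m) * (x + 7 * m)) := by
    push_cast
    ring
  have E2 : (2 : ℚ_[p]) * y + ((0 : ℤ) : ℚ_[p]) * x + ((0 : ℤ) : ℚ_[p]) = 2 * y := by
    push_cast; ring
  rw [E1, E2, norm_neg]

/-- the points which have singular reduction -/
theorem sing_iff (hp2 : p ≠ 2) {x y : ℚ_[p]}
    (h : ((Em m).map (Int.castRingHom ℚ_[p])).toAffine.Nonsingular x y) :
    SingRed (Em m) p x y ↔ ‖x‖ ≤ 1 ∧ ((‖x‖ < 1 ∧ ‖x - 9 * m‖ < 1) ∨ (‖x‖ < 1 ∧ ‖x + 7 * m‖ < 1) ∨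
      (‖x - 9 * m‖ < 1 ∧ ‖x + 7 * m‖ < 1)) := by
  have e := eqnp h
  have n1 : ‖(9 : ℚ_[p]) * m‖ ≤ 1 := by
    have := norm_int (p := p) (9 * m)
    push_cast at this
    exact this
  have n3 : ‖(7 : ℚ_[p]) * m‖ ≤ 1 := by
    have := norm_int (p := p) (7 * m)
    push_cast at this
    exact this
  have E2 : ‖2 * y‖ < 1 ↔ ‖y‖ < 1 := by
    rw [norm_mul, norm_two hp2, one_mul]
  have A1 : ‖x‖ ≤ 1 → ‖x - 9 * m‖ ≤ 1 := by
    intro hx
    rw [sub_eq_add_neg]
    exact (Padic.nonarchimedean _ _).trans (max_le hx (by rwa [norm_neg]))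
  have A2 : ‖x‖ ≤ 1 → ‖x + 7 * m‖ ≤ 1 := fun hx =>
    (Padic.nonarchimedean _ _).trans (max_le hx n3)
  have E3 : ‖x‖ ≤ 1 → (‖y‖ < 1 ↔ (‖x‖ < 1 ∨ ‖x - 9 * m‖ < 1 ∨ ‖x + 7 * m‖ < 1)) := by
    intro hx
    have a1 := A1 hx
    have a2 := A2 hx
    have e' : ‖y‖ * ‖y‖ = ‖x‖ * ‖x - 9 * m‖ * ‖x + 7 * m‖ := by
      rw [← norm_mul, ← pow_two, e, norm_mul, norm_mul]
    constructor
    · intro hy
      by_contra hcon
      push Not at hcon
      obtain ⟨c1, c2, c3⟩ := hcon
      rw [le_antisymm hx c1, le_antisymm a1 c2, le_antisymm a2 c3] at e'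
      nlinarith [norm_nonneg y]
    · intro hh
      apply norm_sq_lt
      rw [e]
      rcases hh with hh | hh | hh
      · exact norm_mul_lt (norm_mul_lt hh a1) a2
      · exact norm_mul_lt (norm_mul_lt' hx hh) a2
      · refine norm_mul_lt' ?_ hh
        rw [norm_mul]
        exact mul_le_one₀ hx (norm_nonneg _) a1
  rw [sing_def, E2]
  constructor
  · rintro ⟨hx, hy1, hd, hy⟩
    refine ⟨hx, ?_⟩
    have a1 := A1 hx
    have a2 := A2 hx
    have hprod : ∀ s t : ℚ_[p], ‖s * t‖ < 1 → ‖s‖ < 1 ∨ ‖t‖ < 1 := by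
      intro s t hst
      by_contra hcon
      push Not at hcon
      rw [norm_mul] at hst
      nlinarith [hcon.1, hcon.2]
    rcases (E3 hx).1 hy with c | c | c
    · have : ‖(x - 9 * m) * (x + 7 * m)‖ < 1 := by
        have e2 : (x - 9 * m) * (x + 7 * m) = (x * (x - 9 * m) + x * (x + 7 * m) +
          (x - 9 * m) * (x + 7 * m)) - (x * (x - 9 * m) + x * (x + 7 * m)) := by ring
        rw [e2]
        exact norm_sub_lt hd (norm_add_lt (norm_mul_lt c a1) (norm_mul_lt c a2))
      rcases hprod _ _ this with d | d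
      · exact Or.inl ⟨c, d⟩
      · exact Or.inr (Or.inl ⟨c, d⟩)
    · have : ‖x * (x + 7 * m)‖ < 1 := by
        have e2 : x * (x + 7 * m) = (x * (x - 9 * m) + x * (x + 7 * m) +
          (x - 9 * m) * (x + 7 * m)) - (x * (x - 9 * m) + (x - 9 * m) * (x + 7 * m)) := by ring
        rw [e2]
        exact norm_sub_lt hd (norm_add_lt (norm_mul_lt' hx c) (norm_mul_lt c a2))
      rcases hprod _ _ this with d | d
      · exact Or.inl ⟨d, c⟩
      · exact Or.inr (Or.inr ⟨c, d⟩)
    · have : ‖x * (x - 9 * m)‖ < 1 := by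
        have e2 : x * (x - 9 * m) = (x * (x - 9 * m) + x * (x + 7 * m) +
          (x - 9 * m) * (x + 7 * m)) - (x * (x + 7 * m) + (x - 9 * m) * (x + 7 * m)) := by ring
        rw [e2]
        exact norm_sub_lt hd (norm_add_lt (norm_mul_lt' hx c) (norm_mul_lt' a1 c))
      rcases hprod _ _ this with d | d
      · exact Or.inr (Or.inl ⟨d, c⟩)
      · exact Or.inr (Or.inr ⟨d, c⟩)
  · rintro ⟨hx, hh⟩
    have a1 := A1 hx
    have a2 := A2 hx
    have hy : ‖y‖ < 1 := (E3 hx).2 (by tauto)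
    refine ⟨hx, hy.le, ?_, hy⟩
    rcases hh with ⟨c, d⟩ | ⟨c, d⟩ | ⟨c, d⟩
    · exact norm_add_lt (norm_add_lt (norm_mul_lt c a1) (norm_mul_lt c a2)) (norm_mul_lt d a2)
    · exact norm_add_lt (norm_add_lt (norm_mul_lt c a1) (norm_mul_lt c a2)) (norm_mul_lt' a1 d)
    · exact norm_add_lt (norm_add_lt (norm_mul_lt' hx c) (norm_mul_lt' hx d)) (norm_mul_lt c a2)

/-- the reduction at the primes dividing `m` -/
lemma sing_ram (hp2 : p ≠ 2) (hpm : (p : ℤ) ∣ m) {x y : ℚ_[p]}
    (h : ((Em m).map (Int.castRingHom ℚ_[p])).toAffine.Nonsingular x y) :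
    SingRed (Em m) p x y ↔ ‖x‖ < 1 := by
  have hm1 : ‖(m : ℚ_[p])‖ < 1 := (Padic.norm_intCast_lt_one_iff).2 hpm
  have h9 : ‖9 * (m : ℚ_[p])‖ < 1 := by
    have := norm_mul_lt' (norm_int (p := p) 9) hm1
    push_cast at this
    exact this
  rw [sing_iff hp2 h]
  constructor
  · rintro ⟨-, ⟨c, -⟩ | ⟨c, -⟩ | ⟨c, -⟩⟩
    · exact c
    · exact c
    · have e : x = (x - 9 * m) + 9 * m := by ring
      rw [e]
      exact norm_add_lt c h9
  · intro c
    exact ⟨c.le, Or.inl ⟨c, norm_sub_lt c h9⟩⟩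

/-- the coset representatives -/
noncomputable def rp (hm : m ≠ 0) (i : Fin 4) : PtP (Em m) p :=
  if i = 0 then 0 else if i = 1 then Tp hm (Or.inl rfl) else
    if i = 2 then Tp hm (Or.inr (Or.inl rfl)) else Tp hm (Or.inr (Or.inr rfl))

lemma rp_dbl (hm : m ≠ 0) (i : Fin 4) : rp (p := p) hm i + rp hm i = 0 := by
  unfold rp
  split_ifs
  · exact add_zero 0
  · exact dbl_T (isRp p m) _
  · exact dbl_T (isRp p m) _
  · exact dbl_T (isRp p m) _

lemma Tp_inj (hm : m ≠ 0) {x x' : ℚ_[p]} (hx : x = 0 ∨ x = 9 * m ∨ x = -7 * m)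
    (hx' : x' = 0 ∨ x' = 9 * m ∨ x' = -7 * m) (h : Tp hm hx = Tp hm hx') : x = x' := by
  unfold Tp at h
  injection h

lemma Tp_ne (hm : m ≠ 0) {x : ℚ_[p]} (hx : x = 0 ∨ x = 9 * m ∨ x = -7 * m) :
    Tp hm hx ≠ 0 := Affine.Point.some_ne_zero _

lemma rp_inj (hm : m ≠ 0) : Function.Injective (rp (p := p) hm) := by
  have hm' : (m : ℚ_[p]) ≠ 0 := by exact_mod_cast hm
  have q9 : (9 * (m : ℚ_[p])) ≠ 0 := mul_ne_zero (by norm_num) hm'
  have q7 : (-7 * (m : ℚ_[p])) ≠ 0 := mul_ne_zero (by norm_num) hm'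
  have q16 : (9 * (m : ℚ_[p])) ≠ -7 * m := by
    intro h
    apply hm'
    linear_combination (1 / 16 : ℚ_[p]) * h
  have r0 : rp (p := p) hm 0 = 0 := rfl
  have r1 : rp (p := p) hm 1 = Tp hm (Or.inl rfl) := rfl
  have r2 : rp (p := p) hm 2 = Tp hm (Or.inr (Or.inl rfl)) := rfl
  have r3 : rp (p := p) hm 3 = Tp hm (Or.inr (Or.inr rfl)) := rfl
  intro i j hij
  fin_cases i <;> fin_cases j <;> first | rfl | (exfalso; revert hij; simp only [Fin.zero_eta, Fin.mk_one, Fin.reduceFinMk, r0, r1, r2, r3]; intro hij)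
  · exact Tp_ne hm _ hij.symm
  · exact Tp_ne hm _ hij.symm
  · exact Tp_ne hm _ hij.symm
  · exact Tp_ne hm _ hij
  · exact q9 (Tp_inj hm _ _ hij).symm
  · exact q7 (Tp_inj hm _ _ hij).symm
  · exact Tp_ne hm _ hij
  · exact q9 (Tp_inj hm _ _ hij)
  · exact q16 (Tp_inj hm _ _ hij)
  · exact Tp_ne hm _ hij
  · exact q7 (Tp_inj hm _ _ hij)
  · exact q16 (Tp_inj hm _ _ hij).symm

/-- translation by a point of order two -/
lemma shift (hp2 : p ≠ 2) (hpm : (p : ℤ) ∣ m) {a b c : ℚ_[p]}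
    (h : IsR ((Em m).map (Int.castRingHom ℚ_[p])) a b c) (ha : ‖a‖ < 1) {x y : ℚ_[p]}
    (hP : ((Em m).map (Int.castRingHom ℚ_[p])).toAffine.Nonsingular x y)
    (hT : ((Em m).map (Int.castRingHom ℚ_[p])).toAffine.Nonsingular a 0) (hx : x ≠ a)
    (hv : ‖x - a‖ ≤ ‖(a - b) * (a - c)‖) :
    (Affine.Point.some x y hP + Affine.Point.some a 0 hT : PtP (Em m) p) ∈ E0 (Em m) p := by
  obtain ⟨X, Y, H, e, hX⟩ := add_T h hP hT hx
  rw [e, t_E0]
  intro x' y' h' he hsing
  injection he with e1 e2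
  subst e1
  subst e2
  rw [sing_ram hp2 hpm h'] at hsing
  have h1 : 1 ≤ ‖X - a‖ := by
    rw [hX, norm_div, one_le_div (norm_pos_iff.2 (sub_ne_zero.2 hx))]
    exact hv
  have h2 := norm_sub_lt hsing ha
  linarith

/-- **The Tamagawa numbers at the odd primes dividing `m`.** -/
theorem tam_ram (hp2 : p ≠ 2) (hm : Squarefree m) (hpm : (p : ℤ) ∣ m) : tam (Em m) p = 4 := by
  have hm0 : m ≠ 0 := hm.ne_zero
  have hm' : (m : ℚ_[p]) ≠ 0 := by exact_mod_cast hm0
  have hm1 : ‖(m : ℚ_[p])‖ < 1 := (Padic.norm_intCast_lt_one_iff).2 hpm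
  have hR := isRp p m
  have vm := val_one hpm hm
  have v16 : (16 * (m : ℚ_[p])).valuation = 1 := by rw [val16 hp2 hm0, vm]
  have n7 : (7 * (m : ℚ_[p])) ≠ 0 := mul_ne_zero (by norm_num) hm'
  have n9 : (9 * (m : ℚ_[p])) ≠ 0 := mul_ne_zero (by norm_num) hm'
  have n16 : (16 * (m : ℚ_[p])) ≠ 0 := mul_ne_zero (by norm_num) hm'
  have r0 : rp (p := p) hm0 0 = 0 := rfl
  have r1 : rp (p := p) hm0 1 = Tp hm0 (Or.inl rfl) := rfl
  have r2 : rp (p := p) hm0 2 = Tp hm0 (Or.inr (Or.inl rfl)) := rfl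
  have r3 : rp (p := p) hm0 3 = Tp hm0 (Or.inr (Or.inr rfl)) := rfl
  have nrm : ∀ k : ℤ, ‖(k : ℚ_[p]) * m‖ < 1 := fun k => norm_mul_lt' (norm_int k) hm1
  refine index_of (E0 (Em m) p) (rp (p := p) hm0) (rp_dbl hm0) ?_ ?_
  · intro P
    rcases P with _ | ⟨x, y, h⟩
    · exact ⟨0, by rw [r0]; exact (E0 (Em m) p).zero_mem⟩
    by_cases hx1 : ‖x‖ < 1
    swap
    · refine ⟨0, ?_⟩
      rw [r0, add_zero, t_E0]
      intro x' y' h' he hsing
      injection he with e1 e2
      subst e1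
      subst e2
      exact hx1 ((sing_ram hp2 hpm h').1 hsing)
    have hE := eqnp h
    by_cases hy : y = 0
    · subst hy
      have h3 : x = 0 ∨ x = 9 * m ∨ x = -7 * m := by
        have h4 : x * (x - 9 * m) * (x + 7 * m) = 0 := by rw [← hE]; ring
        rcases mul_eq_zero.1 h4 with h5 | h5
        · rcases mul_eq_zero.1 h5 with h6 | h6
          · exact Or.inl h6
          · exact Or.inr (Or.inl (by linear_combination h6))
        · exact Or.inr (Or.inr (by linear_combination h5))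
      have hz : (Affine.Point.some x 0 h : PtP (Em m) p) + Affine.Point.some x 0 h = 0 := dbl_T hR h
      rcases h3 with rfl | rfl | rfl
      · exact ⟨1, by rw [r1]; unfold Tp; rw [hz]; exact (E0 (Em m) p).zero_mem⟩
      · exact ⟨2, by rw [r2]; unfold Tp; rw [hz]; exact (E0 (Em m) p).zero_mem⟩
      · exact ⟨3, by rw [r3]; unfold Tp; rw [hz]; exact (E0 (Em m) p).zero_mem⟩
    · have h0 : x * (x - 9 * m) * (x + 7 * m) ≠ 0 := by
        rw [← hE]; exact pow_ne_zero 2 hy
      have hu : x ≠ 0 := left_ne_zero_of_mul (left_ne_zero_of_mul h0)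
      have hv : x - 9 * m ≠ 0 := right_ne_zero_of_mul (left_ne_zero_of_mul h0)
      have hw : x + 7 * m ≠ 0 := right_ne_zero_of_mul h0
      have hs : IsSquare (x * (x - 9 * m) * (x + 7 * m)) := ⟨y, by rw [← hE, pow_two]⟩
      have hvx : 0 < x.valuation := (normlt_iff hu).1 hx1
      have E1 : x - 9 * (m : ℚ_[p]) - x = -(9 * m) := by ring
      have E2 : x + 7 * (m : ℚ_[p]) - x = 7 * m := by ring
      -- the three translations
      have s0 : (9 * (m : ℚ_[p])).valuation + (7 * (m : ℚ_[p])).valuation ≤ x.valuation →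
          ∃ i, (Affine.Point.some x y h : PtP (Em m) p) + rp hm0 i ∈ E0 (Em m) p := by
        intro hval
        refine ⟨1, ?_⟩
        rw [r1]
        refine shift hp2 hpm hR (by rw [norm_zero]; exact one_pos) h _ hu ?_
        have e : (0 - 9 * (m : ℚ_[p])) * (0 - -7 * m) = -((9 * m) * (7 * m)) := by ring
        rw [e, sub_zero, norm_neg, norm_le_iff hu (mul_ne_zero n9 n7),
          Padic.valuation_mul n9 n7]
        exact hval
      have s1 : 1 + (9 * (m : ℚ_[p])).valuation ≤ (x - 9 * m).valuation →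
          ∃ i, (Affine.Point.some x y h : PtP (Em m) p) + rp hm0 i ∈ E0 (Em m) p := by
        intro hval
        refine ⟨2, ?_⟩
        rw [r2]
        refine shift hp2 hpm hR.rot ?_ h _ ?_ ?_
        · have := nrm 9
          push_cast at this
          exact this
        · intro hx
          apply hv
          rw [hx]; ring
        · have e : (9 * (m : ℚ_[p]) - -7 * m) * (9 * m - 0) = (16 * m) * (9 * m) := by ring
          rw [e, norm_le_iff hv (mul_ne_zero n16 n9), Padic.valuation_mul n16 n9, v16]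
          exact hval
      have s2 : (7 * (m : ℚ_[p])).valuation + 1 ≤ (x + 7 * m).valuation →
          ∃ i, (Affine.Point.some x y h : PtP (Em m) p) + rp hm0 i ∈ E0 (Em m) p := by
        intro hval
        refine ⟨3, ?_⟩
        rw [r3]
        refine shift hp2 hpm hR.rot.rot ?_ h _ ?_ ?_
        · have := nrm (-7)
          push_cast at this
          exact this
        · intro hx
          apply hw
          rw [hx]; ring
        · have e : (-7 * (m : ℚ_[p]) - 0) * (-7 * m - 9 * m) = (7 * m) * (16 * m) := by ring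
          have e' : x - -7 * (m : ℚ_[p]) = x + 7 * m := by ring
          rw [e, e', norm_le_iff hw (mul_ne_zero n7 n16), Padic.valuation_mul n7 n16, v16]
          exact hval
      by_cases h7 : p = 7
      · subst h7
        have v9 : (9 * (m : ℚ_[7])).valuation = 1 := by rw [val9 (by norm_num) hm0, vm]
        have v7 : (7 * (m : ℚ_[7])).valuation = 2 := by rw [val7' hm0, vm]; norm_num
        have hs' : IsSquare (x * (x + 7 * (m : ℚ_[7])) * (x - 9 * m)) := by
          have e : x * (x + 7 * (m : ℚ_[7])) * (x - 9 * m) = x * (x - 9 * m) * (x + 7 * m) := by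
            ring
          rwa [e]
        have := val_ram hp2 (u := x) (v := x + 7 * (m : ℚ_[7])) (w := x - 9 * m) hu hw hv hs'
          (by rw [E2]; exact n7) (l := 2) (k := 1) (by rw [E2, v7])
          (by rw [E1, val_neg, v9]) (by norm_num) (by decide)
        rcases this with c | c | c | c
        · exfalso
          omega
        · exact s0 (by rw [v9, v7]; omega)
        · exact s2 (by rw [v7]; omega)
        · exact s1 (by rw [v9]; omega)
      · have v7 : (7 * (m : ℚ_[p])).valuation = 1 := by rw [val7 h7 hm0, vm]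
        have v9 : ∃ l : ℤ, (9 * (m : ℚ_[p])).valuation = l ∧ 1 ≤ l := by
          by_cases h3 : p = 3
          · subst h3
            exact ⟨3, by rw [val9' hm0, vm]; norm_num, by norm_num⟩
          · exact ⟨1, by rw [val9 h3 hm0, vm], le_refl _⟩
        obtain ⟨l, v9, hl⟩ := v9
        have := val_ram hp2 (u := x) (v := x - 9 * (m : ℚ_[p])) (w := x + 7 * m) hu hv hw hs
          (by rw [E1]; exact neg_ne_zero.2 n9) (l := l) (k := 1) (by rw [E1, val_neg, v9])
          (by rw [E2, v7]) hl (by decide)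
        rcases this with c | c | c | c
        · exfalso
          omega
        · exact s0 (by rw [v9, v7]; omega)
        · exact s1 (by rw [v9]; omega)
        · exact s2 (by rw [v7]; omega)
  · intro i j hij
    by_contra hne
    have h1 : rp (p := p) hm0 i + rp hm0 j ≠ 0 := by
      intro h
      apply hne
      apply rp_inj (p := p) hm0
      have h2 := rp_dbl (p := p) hm0 j
      have h3 : rp (p := p) hm0 i = -rp hm0 j := eq_neg_of_add_eq_zero_left h
      have h4 : rp (p := p) hm0 j = -rp hm0 j := eq_neg_of_add_eq_zero_left h2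
      rw [h3, ← h4]
    have h2 : (rp (p := p) hm0 i + rp hm0 j) + (rp hm0 i + rp hm0 j) = 0 := by
      have e1 := rp_dbl (p := p) hm0 i
      have e2 := rp_dbl (p := p) hm0 j
      have e : (rp (p := p) hm0 i + rp hm0 j) + (rp hm0 i + rp hm0 j) =
        (rp hm0 i + rp hm0 i) + (rp hm0 j + rp hm0 j) := by abel
      rw [e, e1, e2, add_zero]
    obtain ⟨x, hx, hP, hxx⟩ := two_tor hR two_ne_zero h2 h1
    rw [hP] at hij
    have hij' := (t_E0 (W := Em m) (p := p) _).1 hij
    refine hij' x 0 hx rfl ?_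
    rw [sing_ram hp2 hpm hx]
    rcases hxx with rfl | rfl | rfl
    · rw [norm_zero]; exact one_pos
    · have e := nrm 9
      push_cast at e
      exact e
    · have e := nrm (-7)
      push_cast at e
      exact e

/-- **The Tamagawa number in the case of nonsplit multiplicative reduction.** -/
theorem tam_nonsplit (hp2 : p ≠ 2) {a b c : ℚ_[p]}
    (hR : IsR ((Em m).map (Int.castRingHom ℚ_[p])) a b c)
    (hs : ∀ x y, ((Em m).map (Int.castRingHom ℚ_[p])).toAffine.Nonsingular x y →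
      (SingRed (Em m) p x y ↔ ‖x - a‖ < 1))
    (hT : ((Em m).map (Int.castRingHom ℚ_[p])).toAffine.Nonsingular a 0) {l : ℤ}
    (hab : a - b ≠ 0) (hac : a - c ≠ 0) (h1 : (a - b).valuation = l) (h2 : (a - c).valuation = 0)
    (hn : ¬ IsSquare (a - c)) : tam (Em m) p = 2 := by
  set T : PtP (Em m) p := Affine.Point.some a 0 hT with hTd
  have dT : T + T = 0 := dbl_T hR hT
  have hTn : T ∉ E0 (Em m) p := by
    intro h
    rw [t_E0] at h
    refine h a 0 hT rfl ?_
    rw [hs a 0 hT, sub_self, norm_zero]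
    exact one_pos
  refine index_of (E0 (Em m) p) (fun i : Fin 2 => if i = 0 then 0 else T) ?_ ?_ ?_
  · intro i
    by_cases hi : i = 0
    · simp [hi]
    · simp only [hi, if_false]
      exact dT
  · intro P
    rcases P with _ | ⟨x, y, h⟩
    · refine ⟨0, ?_⟩
      rw [if_pos rfl, add_zero]
      exact (E0 (Em m) p).zero_mem
    by_cases hx1 : ‖x - a‖ < 1
    swap
    · refine ⟨0, ?_⟩
      simp only [if_true, add_zero]
      rw [t_E0]
      intro x' y' h' he hsing
      injection he with e1 e2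
      subst e1
      subst e2
      exact hx1 ((hs _ _ h').1 hsing)
    refine ⟨1, ?_⟩
    have e10 : (if (1 : Fin 2) = 0 then (0 : PtP (Em m) p) else T) = T := if_neg (by decide)
    rw [e10]
    by_cases hxa : x = a
    · subst hxa
      have hy : y = 0 := by
        have := (isR_eqn hR).1 h.1
        rw [sub_self, zero_mul, zero_mul] at this
        exact pow_eq_zero_iff two_ne_zero |>.1 this
      subst hy
      rw [dT]
      exact (E0 (Em m) p).zero_mem
    obtain ⟨X, Y, H, e, hX⟩ := add_T hR h hT hxa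
    rw [hTd, e, t_E0]
    intro x' y' h' he hsing
    injection he with e1 e2
    subst e1
    subst e2
    rw [hs _ _ h', hX, norm_div] at hsing
    have hu : x - a ≠ 0 := sub_ne_zero.2 hxa
    have hE := (isR_eqn hR).1 h.1
    have hvw : x - b ≠ 0 ∧ x - c ≠ 0 := by
      constructor
      · intro h0
        have : x - a = b - a := by linear_combination h0
        have h3 : (X - a) = -(a - c) := by
          rw [hX, this, ← neg_sub a b, div_neg, mul_div_cancel_left₀ _ hab]
        have h4 : ‖a - c‖ < 1 := by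
          rw [← norm_neg, ← h3, hX, norm_div]
          exact hsing
        have := (normlt_iff hac).1 h4
        omega
      · intro h0
        have : x - a = c - a := by linear_combination h0
        rw [this, norm_sub_rev] at hx1
        have := (normlt_iff hac).1 hx1
        omega
    have hsq : IsSquare ((x - a) * (x - b) * (x - c)) := ⟨y, by rw [← hE, pow_two]⟩
    have := val_unr hp2 (u := x - a) (v := x - b) (w := x - c) hu hvw.1 hvw.2 hsq
      (by
        have : x - b - (x - a) = a - b := by ring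
        rwa [this]) (by
        have : x - c - (x - a) = a - c := by ring
        rwa [this]) (l := l) (by
        have : x - b - (x - a) = a - b := by ring
        rwa [this]) (by
        have : x - c - (x - a) = a - c := by ring
        rwa [this]) (by
        have : x - c - (x - a) = a - c := by ring
        rwa [this])
    have hpos : 0 < (x - a).valuation := (normlt_iff hu).1 hx1
    rcases this with c1 | c1
    · omega
    · have h5 : ‖x - a‖ ≤ ‖(a - b) * (a - c)‖ := by
        rw [norm_le_iff hu (mul_ne_zero hab hac), Padic.valuation_mul hab hac, h1, h2]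
        omega
      have h6 : 1 ≤ ‖(a - b) * (a - c)‖ / ‖x - a‖ := by
        rw [one_le_div (norm_pos_iff.2 hu)]
        exact h5
      linarith
  · intro i j hij
    fin_cases i <;> fin_cases j
    · rfl
    · exfalso
      apply hTn
      simpa using hij
    · exfalso
      apply hTn
      simpa using hij
    · rfl

end tam

/-- **The Tamagawa number at `3`.** -/
theorem tam_three {m : ℤ} (h3 : m % 3 = 2) : tam (Em m) 3 = 2 := by
  have hm : m ≠ 0 := by rintro rfl; norm_num at h3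
  have hm' : (m : ℚ_[3]) ≠ 0 := by exact_mod_cast hm
  have n3 : ¬ ((3 : ℕ) : ℤ) ∣ m := by push_cast; omega
  have vm : (m : ℚ_[3]).valuation = 0 := val_zero n3
  refine tam_nonsplit (by norm_num) (isRp 3 m) ?_ (nonsingp hm (Or.inl rfl)) (l := 2)
    ?_ ?_ ?_ ?_ ?_
  · intro x y h
    rw [sing_iff (by norm_num) h, sub_zero]
    have d9 : ‖(9 : ℚ_[3]) * m‖ < 1 := by
      have := norm_lt_of_dvd (p := 3) (k := 9 * m) ⟨3 * m, by push_cast; ring⟩
      push_cast at this
      exact this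
    constructor
    · rintro ⟨-, ⟨c, -⟩ | ⟨c, -⟩ | ⟨c, d⟩⟩
      · exact c
      · exact c
      · exfalso
        have e := norm_sub_lt d c
        have e1 : x + 7 * (m : ℚ_[3]) - (x - 9 * m) = ((16 * m : ℤ) : ℚ_[3]) := by push_cast; ring
        rw [e1] at e
        exact not_norm_lt (p := 3) (k := 16 * m) (by push_cast; omega) e
    · intro c
      exact ⟨c.le, Or.inl ⟨c, norm_sub_lt c d9⟩⟩
  · rw [zero_sub, neg_ne_zero]
    exact mul_ne_zero (by norm_num) hm'
  · rw [zero_sub, neg_mul, neg_neg]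
    exact mul_ne_zero (by norm_num) hm'
  · rw [zero_sub, val_neg, val9' hm, vm]
    norm_num
  · rw [zero_sub, neg_mul, neg_neg, val7 (by norm_num) hm, vm]
  · intro h
    have e : (0 : ℚ_[3]) - -7 * m = ((7 * m : ℤ) : ℚ_[3]) := by push_cast; ring
    rw [e] at h
    have := mod3_of_sq (n := 7 * m) (by omega) h
    omega

/-- **The Tamagawa number at `7`.** -/
theorem tam_seven {m : ℤ} (h7 : m % 7 = 1 ∨ m % 7 = 2 ∨ m % 7 = 4) : tam (Em m) 7 = 2 := by
  have hm : m ≠ 0 := by rintro rfl; norm_num at h7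
  have hm' : (m : ℚ_[7]) ≠ 0 := by exact_mod_cast hm
  have n7 : ¬ ((7 : ℕ) : ℤ) ∣ m := by push_cast; omega
  have vm : (m : ℚ_[7]).valuation = 0 := val_zero n7
  have hR : IsR ((Em m).map (Int.castRingHom ℚ_[7])) (0 : ℚ_[7]) (-7 * m) (9 * m) := by
    refine ⟨?_, ?_, ?_, ?_, ?_⟩ <;> simp [Em] <;> ring
  refine tam_nonsplit (by norm_num) hR ?_ (nonsingp hm (Or.inl rfl)) (l := 1)
    ?_ ?_ ?_ ?_ ?_
  · intro x y h
    rw [sing_iff (by norm_num) h, sub_zero]
    have d7 : ‖(7 : ℚ_[7]) * m‖ < 1 := by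
      have := norm_lt_of_dvd (p := 7) (k := 7 * m) ⟨m, by push_cast; ring⟩
      push_cast at this
      exact this
    constructor
    · rintro ⟨-, ⟨c, -⟩ | ⟨c, -⟩ | ⟨c, d⟩⟩
      · exact c
      · exact c
      · exfalso
        have e := norm_sub_lt d c
        have e1 : x + 7 * (m : ℚ_[7]) - (x - 9 * m) = ((16 * m : ℤ) : ℚ_[7]) := by push_cast; ring
        rw [e1] at e
        exact not_norm_lt (p := 7) (k := 16 * m) (by push_cast; omega) e
    · intro c
      exact ⟨c.le, Or.inr (Or.inl ⟨c, norm_add_lt c d7⟩)⟩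
  · rw [zero_sub, neg_mul, neg_neg]
    exact mul_ne_zero (by norm_num) hm'
  · rw [zero_sub, neg_ne_zero]
    exact mul_ne_zero (by norm_num) hm'
  · rw [zero_sub, neg_mul, neg_neg, val7' hm, vm]
    norm_num
  · rw [zero_sub, val_neg, val9 (by norm_num) hm, vm]
  · intro h
    have e : (0 : ℚ_[7]) - 9 * m = ((-9 * m : ℤ) : ℚ_[7]) := by push_cast; ring
    rw [e] at h
    have := mod7_of_sq (n := -9 * m) (by omega) h
    omega

end Pool.Agent.N637.P21
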